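import Pool.Agent.Q195.HT.SJ
import Pool.Agent.Q299.KN.BQ
import Pool.Agent.Q208.KN.B0

/-!
# Project HT: the weight of a region near the centre (task BN)
-/

set_option autoImplicit false

namespace Pool.Agent.Q195.HT

open Finset Filter Topology MeasureTheory
open Pool.Agent.W719.BS (D LL)
open Pool.Agent.Q99.HT
open Pool.Agent.Q99.KN (sn bc Wk zl ez Fk QZ kz th jN S_PZ)
open Q299.KN.Bq (norm_sin_le sinh_le_norm_sin norm_kz_le norm_ez th_bounds line_mem)

/-- the kernel is continuous on the line -/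
theorem kz_cont {N : ℕ} (hN1 : 1 ≤ N) {y : ℝ} (hy : 0 < y) :
    Continuous (fun x : ℝ => kz N (N * ((x : ℂ) + y * Complex.I))) := by
  have hN0 : (0 : ℝ) < N := by exact_mod_cast hN1
  unfold kz
  refine Continuous.div continuous_const (by fun_prop) fun x => ?_
  refine pow_ne_zero _ fun h0 => ?_
  have h1 := sinh_le_norm_sin (Real.pi * (N * ((x : ℂ) + y * Complex.I) - N + 1) / 2)
  rw [h0, norm_zero] at h1
  have him : (Real.pi * (N * ((x : ℂ) + y * Complex.I) - N + 1) / 2).im = Real.pi * (N * y) / 2 := by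
    have : (Real.pi * (N * ((x : ℂ) + y * Complex.I) - N + 1) / 2) =
        ((Real.pi * (N * x - N + 1) / 2 : ℝ) : ℂ) + ((Real.pi * (N * y) / 2 : ℝ) : ℂ) * Complex.I := by
      push_cast; ring
    rw [this, Complex.add_im, Complex.ofReal_im, Complex.im_ofReal_mul, Complex.I_im]
    ring
  rw [him] at h1
  have h2 : 0 < Real.pi * (N * y) / 2 := by positivity
  have h3 := Real.sinh_pos_iff.2 h2
  linarith

theorem ez_cont (N : ℕ) (w : ℤ) : Continuous (ez N w) := by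
  unfold ez
  fun_prop

theorem ez_even (N : ℕ) (w : ℤ) (ζ : ℂ) : ez N w (N * -ζ) = ez N w (N * ζ) := by
  unfold ez
  congr 2
  ring

/-- the elementary factors -/
theorem es_bd {N : ℕ} (hN1 : 1 ≤ N) (w : ℤ) {x t y τ : ℝ} (hx : |x| ≤ 1 / 4) (ht : |t| ≤ y)
    (hy : y ≤ 1) (hw : |(w : ℝ)| * y ≤ τ) :
    ‖ez N w (N * (x + t * Complex.I)) * Complex.sin (Real.pi * (x + t * Complex.I))‖ ≤
      Real.exp 4 * Real.exp (N * τ) := by
  have hN0 : (0 : ℝ) < N := by exact_mod_cast hN1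
  rw [norm_mul, norm_ez hN1, mul_comm (Real.exp 4)]
  have hp4 := Real.pi_lt_four
  have hp0 := Real.pi_pos
  apply mul_le_mul _ _ (norm_nonneg _) (Real.exp_pos _).le
  · apply Real.exp_le_exp.2
    have h1 : |Real.pi * w * N * x * t / 2| ≤ N * τ := by
      have e : Real.pi * w * N * x * t / 2 = (Real.pi / 2) * N * ((w : ℝ) * t) * x := by ring
      rw [e, abs_mul, abs_mul, abs_mul, abs_mul, abs_of_pos (by positivity : 0 < Real.pi / 2), abs_of_pos hN0]
      have h2 : |(w : ℝ)| * |t| ≤ τ := (mul_le_mul_of_nonneg_left ht (abs_nonneg _)).trans hw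
      have h3 : Real.pi / 2 * N * (|(w : ℝ)| * |t|) * |x| ≤ 2 * N * τ * (1 / 4) := by
        have a0 : 0 ≤ |(w : ℝ)| * |t| := by positivity
        have a1 : Real.pi / 2 * N ≤ 2 * N := mul_le_mul_of_nonneg_right (by linarith) hN0.le
        have a2 : Real.pi / 2 * N * (|(w : ℝ)| * |t|) ≤ 2 * N * τ :=
          mul_le_mul a1 h2 a0 (by positivity)
        exact mul_le_mul a2 hx (abs_nonneg _) ((by positivity : (0:ℝ) ≤ Real.pi / 2 * N * (|(w : ℝ)| * |t|)).trans a2)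
      have h4 : 0 ≤ τ := le_trans (by positivity) h2
      have h5 : 0 ≤ (N : ℝ) * τ := mul_nonneg hN0.le h4
      linarith
    linarith [neg_le_abs (Real.pi * w * N * x * t / 2)]
  · refine (norm_sin_le _).trans (Real.exp_le_exp.2 ?_)
    have im1 : ((x : ℂ) + t * Complex.I).im = t := by simp
    rw [Complex.im_ofReal_mul, im1, abs_mul, abs_of_pos hp0]
    have h1 : |t| ≤ 1 := ht.trans hy
    nlinarith [abs_nonneg t]

theorem QZ_int {r : ℝ} {N : ℕ} (hr : 0 < r) (hr1 : r ≤ 1 / 16) (hN : 16 / r ≤ N) {y : ℝ} (hy : 0 < y)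
    (hy1 : y ≤ r / 2) {f : ℂ → ℂ} (hf : ContinuousOn f (Metric.ball 0 r)) :
    IntervalIntegrable (fun x : ℝ => f (x + y * Complex.I) * kz N (N * (x + y * Complex.I))) volume
      (-th r N) (th r N) := by
  obtain ⟨hN1, hth1, hth2, _⟩ := th_bounds hr hr1 hN
  apply ContinuousOn.intervalIntegrable
  rw [Set.uIcc_of_le (by linarith)]
  refine ContinuousOn.mul ?_ (kz_cont hN1 hy).continuousOn
  refine hf.comp (f := fun x : ℝ => (x : ℂ) + y * Complex.I) (by fun_prop) ?_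
  intro x hx
  exact line_mem hr hth2 hy.le hy1 hx

theorem QZ_sub {r : ℝ} {N : ℕ} (hr : 0 < r) (hr1 : r ≤ 1 / 16) (hN : 16 / r ≤ N) {y : ℝ} (hy : 0 < y)
    (hy1 : y ≤ r / 2) {f g : ℂ → ℂ} (hf : ContinuousOn f (Metric.ball 0 r))
    (hg : ContinuousOn g (Metric.ball 0 r)) : QZ r N y f - QZ r N y g = QZ r N y fun ζ => f ζ - g ζ := by
  unfold QZ
  rw [← mul_sub, ← intervalIntegral.integral_sub (QZ_int hr hr1 hN hy hy1 hf) (QZ_int hr hr1 hN hy hy1 hg)]
  congr 1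
  refine intervalIntegral.integral_congr fun x _ => ?_
  beta_reduce
  ring

theorem QZ_bd {r : ℝ} {N : ℕ} (hr : 0 < r) (hr1 : r ≤ 1 / 16) (hN : 16 / r ≤ N) {y Q : ℝ} (hy : 0 < y)
    (hQ : 0 ≤ Q) {f : ℂ → ℂ} (hf : ∀ x ∈ Set.Icc (-th r N) (th r N), ‖f (x + y * Complex.I)‖ ≤ Q) :
    ‖QZ r N y f‖ ≤ N * (Q / y ^ 2) := by
  obtain ⟨hN1, hth1, hth2, _⟩ := th_bounds hr hr1 hN
  have hN0 : (0 : ℝ) < N := by exact_mod_cast hN1
  unfold QZ
  have hbd : ∀ x ∈ Set.uIoc (-th r N) (th r N),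
      ‖f (x + y * Complex.I) * kz N (N * (x + y * Complex.I))‖ ≤ Q / y ^ 2 := by
    intro x hx
    rw [Set.uIoc_of_le (by linarith)] at hx
    rw [norm_mul]
    have h1 := hf x (Set.Ioc_subset_Icc_self hx)
    have h2 := norm_kz_le hN1 (x := x) hy
    calc _ ≤ Q * (1 / y ^ 2) := mul_le_mul h1 h2 (norm_nonneg _) hQ
      _ = _ := by ring
  have h1 := intervalIntegral.norm_integral_le_of_norm_le_const hbd
  rw [norm_mul, norm_neg, norm_div, norm_mul, Complex.norm_I, mul_one, Complex.norm_natCast,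
    Complex.norm_real, Real.norm_eq_abs, abs_of_pos Real.pi_pos]
  have h2 : |th r N - -th r N| ≤ 1 := by
    rw [abs_of_nonneg (by linarith)]
    linarith
  have h3 : (N : ℝ) / Real.pi ≤ N := div_le_self hN0.le (by linarith [Real.pi_gt_three])
  have h4 : 0 ≤ Q / y ^ 2 := by positivity
  calc _ ≤ (N : ℝ) * (Q / y ^ 2 * 1) := by
        apply mul_le_mul h3 (h1.trans (mul_le_mul_of_nonneg_left h2 h4)) (norm_nonneg _) hN0.le
    _ = _ := by ring

section

variable {α : Fin 6 → ℝ} {r κ K C0 : ℝ} {N : ℕ} {η : ℝ}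

theorem FZ_LD (hB : Blk α r κ K C0) (hN : 16 / r ≤ N) (hη : |η| ≤ r / 4) {y : ℝ} (hy : 0 < y)
    (hy1 : y ≤ r / 2) (w : ℤ) : LD (FZ r N α w y η) (Metric.ball (qC α) (r / 2)) := by
  have hr := hB.r0
  have hr1 : r ≤ 1 / 16 := by linarith [hB.r1]
  obtain ⟨hN1, hth1, hth2, _⟩ := th_bounds hr hr1 hN
  have hV := VB_LD (η := η) hB hN hN1 hη
  unfold FZ QZ
  apply LD_const_mul
  refine LD_int Metric.isOpen_ball (fun (ξ : Fin 3 → ℂ) (x : ℝ) =>
    ez N w (N * (x + y * Complex.I)) * Complex.sin (Real.pi * (x + y * Complex.I)) *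
      VB r N α η ξ (x + y * Complex.I) * kz N (N * (x + y * Complex.I))) (by linarith) ?_ ?_
  · have h1 : ContinuousOn (fun p : (Fin 3 → ℂ) × ℝ => ez N w (N * ((p.2 : ℂ) + y * Complex.I)))
        (Metric.ball (qC α) (r / 2) ×ˢ Set.Icc (-th r N) (th r N)) := by
      apply Continuous.continuousOn
      exact (ez_cont N w).comp (f := fun p : (Fin 3 → ℂ) × ℝ => (N : ℂ) * ((p.2 : ℂ) + y * Complex.I)) (by fun_prop)
    have h2 : ContinuousOn (fun p : (Fin 3 → ℂ) × ℝ => Complex.sin (Real.pi * ((p.2 : ℂ) + y * Complex.I)))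
        (Metric.ball (qC α) (r / 2) ×ˢ Set.Icc (-th r N) (th r N)) := by fun_prop
    have h3 : ContinuousOn (fun p : (Fin 3 → ℂ) × ℝ => VB r N α η p.1 ((p.2 : ℂ) + y * Complex.I))
        (Metric.ball (qC α) (r / 2) ×ˢ Set.Icc (-th r N) (th r N)) := by
      refine hV.1.comp (f := fun p : (Fin 3 → ℂ) × ℝ => (p.1, (p.2 : ℂ) + y * Complex.I)) (by fun_prop) ?_
      intro p hp
      exact ⟨hp.1, line_mem hr hth2 hy.le hy1 hp.2⟩
    have h4 : ContinuousOn (fun p : (Fin 3 → ℂ) × ℝ => kz N (N * ((p.2 : ℂ) + y * Complex.I)))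
        (Metric.ball (qC α) (r / 2) ×ˢ Set.Icc (-th r N) (th r N)) := by
      apply Continuous.continuousOn
      exact (kz_cont hN1 hy).comp continuous_snd
    exact ((h1.mul h2).mul h3).mul h4
  · intro x hx ξ hξ u
    have h := hV.2 (ξ, (x : ℂ) + y * Complex.I) ⟨hξ, line_mem hr hth2 hy.le hy1 hx⟩ (u, 0)
    have h1 : DifferentiableAt ℂ (fun t : ℂ => VB r N α η (ξ + t • u) ((x : ℂ) + y * Complex.I)) 0 := by
      refine h.congr_of_eventuallyEq (Eventually.of_forall fun t => ?_)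
      simp
    exact (h1.const_mul _).mul_const _

theorem FZ_bd (hF : Fr α) (hB : Blk α r κ K C0) (hN : 16 / r ≤ N) (hη : |η| ≤ r / 4) {y : ℝ} (hy : 0 < y)
    (hy1 : y ≤ r / 2) (w : ℤ) {ξ : Fin 3 → ℂ} (hξ : ξ ∈ Metric.ball (qC α) (r / 2)) (hA : Ad3 α ξ) :
    ‖FZ r N α w y η ξ‖ ≤ Real.exp 4 * C0 / y ^ 2 * N ^ 2 *
    Real.exp (N * (v0 α + (K * η ^ 2 + (Real.pi * w * y) ^ 2 / (16 * κ) + K * y ^ 2) +
      mR α (re3 ξ) - κ * sR α (re3 ξ) + K * ∑ i, (ξ i).im ^ 2)) := by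
  have hr := hB.r0
  have hr1 : r ≤ 1 / 16 := by linarith [hB.r1]
  have hκ := hB.κ0
  have hC0 := hB.C1
  obtain ⟨hN1, hth1, hth2, _⟩ := th_bounds hr hr1 hN
  have hN0 : (0 : ℝ) < N := by exact_mod_cast hN1
  obtain ⟨E, hE⟩ : ∃ E : ℝ, E = Real.exp (N * (v0 α + (K * η ^ 2 + (Real.pi * w * y) ^ 2 / (16 * κ) + K * y ^ 2) +
      mR α (re3 ξ) - κ * sR α (re3 ξ) + K * ∑ i, (ξ i).im ^ 2)) := ⟨_, rfl⟩
  have hE0 : 0 < E := by rw [hE]; exact Real.exp_pos _
  rw [← hE]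
  unfold FZ
  refine (QZ_bd hr hr1 hN hy (Q := Real.exp 4 * (C0 * N * E)) (by positivity) ?_).trans (le_of_eq (by ring))
  intro x hx
  have hm := line_mem hr hth2 hy.le hy1 hx
  rw [mem_ball_zero_iff] at hm
  have re1 : ((x : ℂ) + y * Complex.I).re = x := by simp
  have im1 : ((x : ℂ) + y * Complex.I).im = y := by simp
  have b1 := norm_ez hN1 w x y
  have b2 : ‖Complex.sin (Real.pi * (x + y * Complex.I))‖ ≤ Real.exp 4 := by
    refine (norm_sin_le _).trans (Real.exp_le_exp.2 ?_)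
    rw [Complex.im_ofReal_mul, im1, abs_of_pos (by positivity)]
    nlinarith [Real.pi_lt_four]
  have b3 := VB_bd hF hB hN hN1 hη hξ hA hm
  rw [re1, im1] at b3
  rw [norm_mul, norm_mul, b1]
  obtain ⟨F, hF'⟩ : ∃ F : ℝ, F = N * (v0 α + K * η ^ 2 + mR α (re3 ξ) -
      κ * (sR α (re3 ξ) + x ^ 2) + K * (∑ i, (ξ i).im ^ 2 + y ^ 2)) := ⟨_, rfl⟩
  rw [← hF'] at b3
  calc Real.exp (-(Real.pi * w * N * x * y / 2)) * ‖Complex.sin (Real.pi * (x + y * Complex.I))‖ *
        ‖VB r N α η ξ (x + y * Complex.I)‖ ≤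
        Real.exp (-(Real.pi * w * N * x * y / 2)) * Real.exp 4 * (C0 * N * Real.exp F) := by
        apply mul_le_mul _ b3 (norm_nonneg _) (by positivity)
        exact mul_le_mul_of_nonneg_left b2 (Real.exp_pos _).le
    _ = Real.exp 4 * (C0 * N * Real.exp (-(Real.pi * w * N * x * y / 2) + F)) := by
        rw [Real.exp_add]
        ring
    _ ≤ _ := by
        apply mul_le_mul_of_nonneg_left _ (Real.exp_pos _).le
        apply mul_le_mul_of_nonneg_left _ (by positivity)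
        rw [hE]
        apply Real.exp_le_exp.2
        rw [hF']
        have f : -(Real.pi * w * x * y / 2) - κ * x ^ 2 ≤ (Real.pi * w * y) ^ 2 / (16 * κ) := by
          rw [le_div_iff₀ (by positivity)]
          nlinarith [sq_nonneg (4 * κ * x + Real.pi * w * y)]
        have f2 := mul_le_mul_of_nonneg_left f hN0.le
        have e1 : (N : ℝ) * (-(Real.pi * w * x * y / 2) - κ * x ^ 2) =
          -(Real.pi * w * N * x * y / 2) - N * (κ * x ^ 2) := by ring
        rw [e1] at f2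
        have e2 : (N : ℝ) * (v0 α + K * η ^ 2 + mR α (re3 ξ) -
            κ * (sR α (re3 ξ) + x ^ 2) + K * (∑ i, (ξ i).im ^ 2 + y ^ 2)) =
            N * (v0 α + (K * η ^ 2 + K * y ^ 2) +
            mR α (re3 ξ) - κ * sR α (re3 ξ) + K * ∑ i, (ξ i).im ^ 2) - N * (κ * x ^ 2) := by ring
        have e3 : (N : ℝ) * (v0 α + (K * η ^ 2 + (Real.pi * w * y) ^ 2 / (16 * κ) + K * y ^ 2) +
            mR α (re3 ξ) - κ * sR α (re3 ξ) + K * ∑ i, (ξ i).im ^ 2) =
            N * (v0 α + (K * η ^ 2 + K * y ^ 2) +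
            mR α (re3 ξ) - κ * sR α (re3 ξ) + K * ∑ i, (ξ i).im ^ 2) +
            N * ((Real.pi * w * y) ^ 2 / (16 * κ)) := by ring
        rw [e2, e3]
        linarith

/-- one term of `Fk` -/
theorem term_bd (hL : Lat α κ C0) (hN1 : 1 ≤ N) (w : ℤ) {A b C k : ℕ} (hs : A + b + C < N)
    (hc : Cmp α A b C) (hk : k < N) :
    ‖deriv (fun z : ℂ => ez N w z * Complex.sin (Real.pi * z / N) * Wk N z A b C) (zl N k)‖ ≤
      (Real.pi * |(w : ℝ)| / 2 + Real.pi + 1) * (C0 * N ^ 3 *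
        Real.exp (eX N α A b C - κ * dX N α A b C k / N)) := by
  have h1 := Pool.Agent.Q208.KN.step_zeta w hN1 hk (fun z => Wk N z A b C) (Wk_diff N A b C _)
  have h2 := hL.bb N A b C k hs hc hk
  have h3 : 0 ≤ Real.pi * |(w : ℝ)| / 2 + Real.pi := by
    have := Real.pi_pos
    positivity
  refine h1.trans ?_
  have n1 := norm_nonneg (Wk N (zl N k) A b C)
  have n2 := norm_nonneg (deriv (fun z => Wk N z A b C) (zl N k))
  have h4 := mul_le_mul_of_nonneg_left h2 (by linarith : 0 ≤ Real.pi * |(w : ℝ)| / 2 + Real.pi + 1)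
  refine le_trans ?_ h4
  have h5 := mul_nonneg h3 n2
  rw [mul_add]
  linarith

theorem dX_ge (hN1 : 1 ≤ N) (A b C k : ℕ) : (N : ℝ) * sR α (x3 N A b C) ≤ dX N α A b C k / N := by
  have hN0 : (0 : ℝ) < N := by exact_mod_cast hN1
  rw [le_div_iff₀ hN0]
  unfold sR dX
  rw [Fin.sum_univ_three]
  have e0 : (x3 N A b C 0 - qc α 0) = (A : ℝ) / N - α 0 := rfl
  have e1 : (x3 N A b C 1 - qc α 1) = (b : ℝ) / N - (α 1 + α 4) := rfl
  have e2 : (x3 N A b C 2 - qc α 2) = (C : ℝ) / N - α 3 := rfl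
  rw [e0, e1, e2]
  have f : (N : ℝ) * (((A : ℝ) / N - α 0) ^ 2 + ((b : ℝ) / N - (α 1 + α 4)) ^ 2 + ((C : ℝ) / N - α 3) ^ 2) * N =
      ((A : ℝ) - N * α 0) ^ 2 + ((b : ℝ) - N * (α 1 + α 4)) ^ 2 + ((C : ℝ) - N * α 3) ^ 2 := by
    field_simp
  rw [f]
  have := sq_nonneg ((k : ℝ) - N / 2)
  linarith

theorem Fk_bd (hL : Lat α κ C0) (hκ : 0 < κ) (hC0 : 1 ≤ C0) (hN1 : 1 ≤ N) (w : ℤ) {A b C : ℕ} (hs : A + b + C < N)
    (hc : Cmp α A b C) : ‖Fk N w A b C‖ ≤ (Real.pi * |(w : ℝ)| / 2 + Real.pi + 1) * C0 * N ^ 4 *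
    Real.exp (eX N α A b C - κ * N * sR α (x3 N A b C)) := by
  unfold Fk
  obtain ⟨E, hE⟩ : ∃ E : ℝ, E = Real.exp (eX N α A b C - κ * N * sR α (x3 N A b C)) := ⟨_, rfl⟩
  rw [← hE]
  refine (norm_sum_le _ _).trans ?_
  have key : ∀ k ∈ range N, ‖deriv (fun z : ℂ => ez N w z * Complex.sin (Real.pi * z / N) * Wk N z A b C) (zl N k)‖ ≤
      (Real.pi * |(w : ℝ)| / 2 + Real.pi + 1) * (C0 * N ^ 3 * E) := by
    intro k hk
    refine (term_bd hL hN1 w hs hc (Finset.mem_range.1 hk)).trans ?_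
    have hp := Real.pi_pos
    apply mul_le_mul_of_nonneg_left _ (by positivity)
    apply mul_le_mul_of_nonneg_left _ (by positivity)
    rw [hE]
    apply Real.exp_le_exp.2
    have h1 := mul_le_mul_of_nonneg_left (dX_ge (α := α) hN1 A b C k) hκ.le
    have e1 : κ * (dX N α A b C k / N) = κ * dX N α A b C k / N := by ring
    have e2 : κ * (N * sR α (x3 N A b C)) = κ * N * sR α (x3 N A b C) := by ring
    rw [e1, e2] at h1
    linarith
  have h := Finset.sum_le_card_nsmul (range N) _ _ key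
  rw [Finset.card_range, nsmul_eq_mul] at h
  refine h.trans (le_of_eq ?_)
  ring

end

/-! ### the comparison -/

section

variable {α : Fin 6 → ℝ} {r κ K C0 : ℝ} {N : ℕ} {η : ℝ}

/-- the function of `ζ` -/
noncomputable def ff (r : ℝ) (N : ℕ) (α : Fin 6 → ℝ) (w : ℤ) (η : ℝ) (ξ : Fin 3 → ℂ) (ζ : ℂ) : ℂ :=
  ez N w (N * ζ) * Complex.sin (Real.pi * ζ) * VB r N α η ξ ζ

theorem FZ_eq (w : ℤ) (y : ℝ) (ξ : Fin 3 → ℂ) : FZ r N α w y η ξ = QZ r N y (ff r N α w η ξ) := rfl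

theorem ff_diff (hB : Blk α r κ K C0) (hN : 16 / r ≤ N) (hN1 : 1 ≤ N) (hη : |η| ≤ r / 4) (w : ℤ)
    {ξ : Fin 3 → ℂ} (hξ : ξ ∈ Metric.ball (qC α) (r / 2)) :
    DifferentiableOn ℂ (ff r N α w η ξ) (Metric.ball 0 r) := by
  intro ζ hζ
  rw [mem_ball_zero_iff] at hζ
  have h1 := V_diff hB hN hN1 hη hξ hζ
  have h2 : Differentiable ℂ (fun ζ : ℂ => ez N w (N * ζ)) := by
    unfold ez
    fun_prop
  have h3 : Differentiable ℂ (fun ζ : ℂ => Complex.sin (Real.pi * ζ)) := by fun_prop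
  exact (((h2 ζ).mul (h3 ζ)).mul h1).differentiableWithinAt

theorem ff_line (hN1 : 1 ≤ N) (w : ℤ) (ξ : Fin 3 → ℂ) : (fun z : ℂ => ff r N α w η ξ (z / N)) =
    fun z => ez N w z * Complex.sin (Real.pi * z / N) * VB r N α η ξ (z / N) := by
  have hNc : (N : ℂ) ≠ 0 := by
    have : N ≠ 0 := by omega
    exact_mod_cast this
  funext z
  unfold ff
  rw [mul_div_cancel₀ _ hNc, mul_div_assoc]

theorem core_bd (hB : Blk α r κ K C0) (hN : 16 / r ≤ N) (hN1 : 1 ≤ N) (hη : |η| ≤ r / 4) (w : ℤ)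
    {ξ : Fin 3 → ℂ} (hξ : ξ ∈ Metric.ball (qC α) (r / 2)) {A b C k : ℕ} (hkN : k < N)
    (hk : |(2 * (k : ℝ) + 1 - N) / N| ≤ r / 2) {E : ℝ}
    (hE : ‖Wk N (zl N k) A b C - VB r N α η ξ (zl N k / N)‖ +
      ‖deriv (fun z => Wk N z A b C) (zl N k) - deriv (fun z : ℂ => VB r N α η ξ (z / N)) (zl N k)‖ ≤ E) :
    ‖deriv (fun z : ℂ => ez N w z * Complex.sin (Real.pi * z / N) * Wk N z A b C) (zl N k) -
      deriv (fun z : ℂ => ff r N α w η ξ (z / N)) (zl N k)‖ ≤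
      (Real.pi * |(w : ℝ)| / 2 + Real.pi + 1) * E := by
  obtain ⟨m1, m2⟩ := disc_mem hB.r0 hN hk (z := zl N k) (by simp)
  have hV : DifferentiableAt ℂ (fun z : ℂ => VB r N α η ξ (z / N)) (zl N k) := by
    have h1 := V_diff hB hN hN1 hη hξ m1
    exact DifferentiableAt.comp (g := fun ζ => VB r N α η ξ ζ) (f := fun z : ℂ => z / N) (zl N k) h1
      (differentiableAt_id.div_const _)
  have hW := Wk_diff N A b C (zl N k)
  have hD : DifferentiableAt ℂ (fun z : ℂ => Wk N z A b C - VB r N α η ξ (z / N)) (zl N k) := hW.sub hV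
  have h1 := Pool.Agent.Q208.KN.step_zeta w hN1 hkN (fun z => Wk N z A b C - VB r N α η ξ (z / N)) hD
  have e1 : deriv (fun z : ℂ => Wk N z A b C - VB r N α η ξ (z / N)) (zl N k) =
      deriv (fun z => Wk N z A b C) (zl N k) - deriv (fun z : ℂ => VB r N α η ξ (z / N)) (zl N k) := by
    have h2 := (hW.hasDerivAt.sub hV.hasDerivAt).deriv
    exact h2
  have hez : DifferentiableAt ℂ (fun z : ℂ => ez N w z * Complex.sin (Real.pi * z / N)) (zl N k) := by
    unfold ez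
    fun_prop
  have e2 : deriv (fun z : ℂ => ez N w z * Complex.sin (Real.pi * z / N) *
      (Wk N z A b C - VB r N α η ξ (z / N))) (zl N k) =
      deriv (fun z : ℂ => ez N w z * Complex.sin (Real.pi * z / N) * Wk N z A b C) (zl N k) -
      deriv (fun z : ℂ => ff r N α w η ξ (z / N)) (zl N k) := by
    rw [ff_line hN1]
    have d1 : DifferentiableAt ℂ (fun z : ℂ => ez N w z * Complex.sin (Real.pi * z / N) * Wk N z A b C) (zl N k) :=
      hez.mul hW
    have d2 : DifferentiableAt ℂ (fun z : ℂ => ez N w z * Complex.sin (Real.pi * z / N) *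
        VB r N α η ξ (z / N)) (zl N k) := hez.mul hV
    have h2 := (d1.hasDerivAt.sub d2.hasDerivAt).deriv
    have h3 : (fun z : ℂ => ez N w z * Complex.sin (Real.pi * z / N) *
      (Wk N z A b C - VB r N α η ξ (z / N))) = (fun z : ℂ => ez N w z * Complex.sin (Real.pi * z / N) * Wk N z A b C) -
        (fun z : ℂ => ez N w z * Complex.sin (Real.pi * z / N) * VB r N α η ξ (z / N)) := by
      funext z
      rw [Pi.sub_apply]
      ring
    rw [h3]
    exact h2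
  rw [e2, e1] at h1
  refine h1.trans ?_
  have hp := Real.pi_pos
  have h3 : 0 ≤ Real.pi * |(w : ℝ)| / 2 + Real.pi := by positivity
  have n2 := norm_nonneg (deriv (fun z => Wk N z A b C) (zl N k) - deriv (fun z : ℂ => VB r N α η ξ (z / N)) (zl N k))
  have n1 := norm_nonneg (Wk N (zl N k) A b C - VB r N α η ξ (zl N k / N))
  have h4 := mul_le_mul_of_nonneg_left hE (by linarith : 0 ≤ Real.pi * |(w : ℝ)| / 2 + Real.pi + 1)
  refine le_trans ?_ h4
  have h5 := mul_nonneg h3 n2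
  rw [mul_add]
  linarith

/-- the bound at real corners -/
theorem VB_real (hF : Fr α) (hB : Blk α r κ K C0) (hN : 16 / r ≤ N) (hN1 : 1 ≤ N) (hη : |η| ≤ r / 4)
    {A b C : ℕ} (hc : Cmp α A b C) (hA : |(A : ℝ) / N - α 0| ≤ r / 4)
    (hb : |(b : ℝ) / N - (α 1 + α 4)| ≤ r / 4) (hC : |(C : ℝ) / N - α 3| ≤ r / 4) {ζ : ℂ} (hζ : ‖ζ‖ < r) :
    ‖VB r N α η (fun i => ((x3 N A b C i : ℝ) : ℂ)) ζ‖ ≤ C0 * N * Real.exp (eX N α A b C + N * (K * η ^ 2) +
      N * (-κ * ζ.re ^ 2 + K * ζ.im ^ 2)) := by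
  have hr := hB.r0
  have hκ := hB.κ0
  have hC0 := hB.C1
  refine (VB_bd hF hB hN hN1 hη (x3_mem hr hA hb hC) (x3_ad hF hc) hζ).trans ?_
  apply mul_le_mul_of_nonneg_left _ (by positivity)
  apply Real.exp_le_exp.2
  have e1 : re3 (fun i => ((x3 N A b C i : ℝ) : ℂ)) = x3 N A b C := by
    funext i
    exact Complex.ofReal_re _
  have e2 : ∑ i : Fin 3, (((x3 N A b C i : ℝ) : ℂ)).im ^ 2 = 0 := by
    simp
  rw [e1, e2, ← eX_eq hN1]
  have h2 : 0 ≤ sR α (x3 N A b C) := by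
    unfold sR
    positivity
  have h3 : 0 ≤ κ * sR α (x3 N A b C) := by positivity
  have h4 := mul_nonneg (Nat.cast_nonneg (α := ℝ) N) h3
  have h5 : (N : ℝ) * (v0 α + K * η ^ 2 + mR α (x3 N A b C) - κ * (sR α (x3 N A b C) + ζ.re ^ 2) +
      K * (0 + ζ.im ^ 2)) = N * (v0 α + mR α (x3 N A b C)) + N * (K * η ^ 2) +
      N * (-κ * ζ.re ^ 2 + K * ζ.im ^ 2) - N * (κ * sR α (x3 N A b C)) := by ring
  rw [h5]
  linarith

theorem zl_refl {k : ℕ} (hk : k < N) : zl N (N - 1 - k) = -zl N k := by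
  rw [zl_real, zl_real, ← Complex.ofReal_neg]
  congr 1
  have h : ((N - 1 - k : ℕ) : ℝ) = (N : ℝ) - 1 - k := by
    have h1 : N - 1 - k + k + 1 = N := by omega
    have h2 : ((N - 1 - k : ℕ) : ℝ) + k + 1 = N := by exact_mod_cast h1
    linarith
  rw [h]
  ring

/-- the odd part is small -/
theorem delta_bd (hF : Fr α) (hB : Blk α r κ K C0) (hL : Lat α κ C0) (hN : 16 / r ≤ N) (hN1 : 1 ≤ N)
    (hη : |η| ≤ r / 4) {c1 c2 y0 CI Cs : ℝ} {p : ℕ} (hCs : 0 ≤ Cs)
    (hI : ∀ (Δ : ℂ → ℂ) (M : ℝ), 0 ≤ M → DifferentiableOn ℂ Δ (Metric.ball 0 (r / 2)) →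
      (∀ ζ ∈ Metric.ball (0 : ℂ) (r / 2), ‖Δ ζ‖ ≤ M * Real.exp (N * (-κ * ζ.re ^ 2 + K * ζ.im ^ 2))) →
      (∀ k < N, |(2 * (k : ℝ) + 1 - N) / N| < r / 2 → ‖Δ (zl N k / N)‖ ≤ M * Real.exp (-(c1 * N))) →
      ∀ ζ : ℂ, |ζ.re| ≤ r / 2 / 2 → |ζ.im| ≤ y0 → ‖Δ ζ‖ ≤ CI * N * M * Real.exp (-(c2 * N)))
    {A b C : ℕ} (hc : Cmp α A b C) (hA : |(A : ℝ) / N - α 0| ≤ r / 4)
    (hb : |(b : ℝ) / N - (α 1 + α 4)| ≤ r / 4) (hC : |(C : ℝ) / N - α 3| ≤ r / 4)
    (hS : ∀ k < N, |(2 * (k : ℝ) + 1 - N) / N| ≤ r / 2 → ‖Wk N (zl N k) A b C -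
      VB r N α η (fun i => ((x3 N A b C i : ℝ) : ℂ)) (zl N k / N)‖ ≤ Cs * N ^ p * Real.exp (eX N α A b C - c1 * N))
    {ζ : ℂ} (h1 : |ζ.re| ≤ r / 4) (h2 : |ζ.im| ≤ y0) :
    ‖VB r N α η (fun i => ((x3 N A b C i : ℝ) : ℂ)) ζ - VB r N α η (fun i => ((x3 N A b C i : ℝ) : ℂ)) (-ζ)‖ ≤
      CI * N * (2 * (C0 + Cs) * N ^ (p + 1) * Real.exp (eX N α A b C + N * (K * η ^ 2))) * Real.exp (-(c2 * N)) := by
  have hr := hB.r0
  have hκ := hB.κ0
  have hK : 0 < K := lt_of_lt_of_le hκ hB.κK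
  have hC0 := hB.C1
  have hN1' : (1 : ℝ) ≤ N := by exact_mod_cast hN1
  have hN0 : (0 : ℝ) < N := by linarith
  have hXm := x3_mem hr hA hb hC
  obtain ⟨V, hV⟩ : ∃ V : ℂ → ℂ, V = fun ζ => VB r N α η (fun i => ((x3 N A b C i : ℝ) : ℂ)) ζ := ⟨_, rfl⟩
  have hVz : ∀ ζ, VB r N α η (fun i => ((x3 N A b C i : ℝ) : ℂ)) ζ = V ζ := by
    intro ζ
    rw [hV]
  have hVd : ∀ ζ : ℂ, ‖ζ‖ < r → DifferentiableAt ℂ V ζ := by
    intro ζ hζ
    rw [hV]
    exact V_diff hB hN hN1 hη hXm hζ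
  have hVb : ∀ ζ : ℂ, ‖ζ‖ < r → ‖V ζ‖ ≤ C0 * N * Real.exp (eX N α A b C + N * (K * η ^ 2) +
      N * (-κ * ζ.re ^ 2 + K * ζ.im ^ 2)) := by
    intro ζ hζ
    rw [← hVz]
    exact VB_real hF hB hN hN1 hη hc hA hb hC hζ
  simp only [hVz] at hS ⊢
  have p0 : (1 : ℝ) ≤ (N : ℝ) ^ p := one_le_pow₀ hN1'
  have p1 : (N : ℝ) ≤ (N : ℝ) ^ (p + 1) := by
    rw [pow_succ]
    nlinarith
  have p2 : (N : ℝ) ^ p ≤ (N : ℝ) ^ (p + 1) := pow_le_pow_right₀ hN1' (Nat.le_succ p)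
  have hKη : 0 ≤ (N : ℝ) * (K * η ^ 2) := by positivity
  refine hI (fun ζ => V ζ - V (-ζ)) _ (by positivity) ?_ ?_ ?_ ζ (by linarith) h2
  · intro ζ hζ
    rw [mem_ball_zero_iff] at hζ
    have d1 := hVd ζ (by linarith)
    have d2 : DifferentiableAt ℂ (fun ζ => V (-ζ)) ζ := by
      have h3 : DifferentiableAt ℂ V ((fun ζ : ℂ => -ζ) ζ) := hVd (-ζ) (by rw [norm_neg]; linarith)
      exact DifferentiableAt.comp (g := V) (f := fun ζ : ℂ => -ζ) ζ h3 (by fun_prop)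
    exact (d1.sub d2).differentiableWithinAt
  · intro ζ hζ
    rw [mem_ball_zero_iff] at hζ
    have b1 := hVb ζ (by linarith)
    have b2 := hVb (-ζ) (by rw [norm_neg]; linarith)
    rw [Complex.neg_re, Complex.neg_im, neg_sq, neg_sq] at b2
    refine (norm_sub_le _ _).trans ((add_le_add b1 b2).trans ?_)
    rw [Real.exp_add (eX N α A b C + N * (K * η ^ 2))]
    obtain ⟨X, hX⟩ : ∃ X : ℝ, X = Real.exp (eX N α A b C + N * (K * η ^ 2)) := ⟨_, rfl⟩
    obtain ⟨Y, hY⟩ : ∃ Y : ℝ, Y = Real.exp (N * (-κ * ζ.re ^ 2 + K * ζ.im ^ 2)) := ⟨_, rfl⟩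
    have hX0 : 0 < X := by rw [hX]; exact Real.exp_pos _
    have hY0 : 0 < Y := by rw [hY]; exact Real.exp_pos _
    rw [← hX, ← hY]
    have q1 : C0 * N ≤ (C0 + Cs) * N ^ (p + 1) :=
      mul_le_mul (by linarith) p1 hN0.le (by linarith)
    have q2 := mul_le_mul_of_nonneg_right q1 (mul_pos hX0 hY0).le
    calc _ = 2 * (C0 * N * (X * Y)) := by ring
      _ ≤ 2 * ((C0 + Cs) * N ^ (p + 1) * (X * Y)) := by linarith
      _ = _ := by ring
  · intro k hkN hk
    have hk' : |(2 * (((N - 1 - k : ℕ)) : ℝ) + 1 - N) / N| ≤ r / 2 := by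
      have h3 : (2 * (((N - 1 - k : ℕ)) : ℝ) + 1 - N) = -(2 * (k : ℝ) + 1 - N) := by
        have h4 : N - 1 - k + k + 1 = N := by omega
        have h5 : ((N - 1 - k : ℕ) : ℝ) + k + 1 = N := by exact_mod_cast h4
        linarith
      rw [h3, neg_div, abs_neg]
      exact hk.le
    have b1 := hS k hkN hk.le
    have b2 := hS (N - 1 - k) (by omega) hk'
    rw [zl_refl hkN, hL.ev N A b C (sum_lt hF hB hN1 hA hb hC), neg_div] at b2
    have e1 : V (zl N k / N) - V (-(zl N k / N)) =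
        (Wk N (zl N k) A b C - V (-(zl N k / N))) - (Wk N (zl N k) A b C - V (zl N k / N)) := by ring
    show ‖V (zl N k / N) - V (-(zl N k / N))‖ ≤ _
    rw [e1]
    refine (norm_sub_le _ _).trans ((add_le_add b2 b1).trans ?_)
    have e2 : Real.exp (eX N α A b C - c1 * N) ≤ Real.exp (eX N α A b C + N * (K * η ^ 2)) * Real.exp (-(c1 * N)) := by
      rw [← Real.exp_add]
      apply Real.exp_le_exp.2
      linarith
    obtain ⟨X, hX⟩ : ∃ X : ℝ, X = Real.exp (eX N α A b C + N * (K * η ^ 2)) * Real.exp (-(c1 * N)) := ⟨_, rfl⟩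
    have hX0 : 0 < X := by rw [hX]; positivity
    rw [← hX] at e2
    have q1 : Cs * N ^ p ≤ (C0 + Cs) * N ^ (p + 1) :=
      mul_le_mul (by linarith) p2 (by positivity) (by linarith)
    have q2 := mul_le_mul q1 e2 (Real.exp_pos _).le (by positivity)
    calc _ = 2 * (Cs * N ^ p * Real.exp (eX N α A b C - c1 * N)) := by ring
      _ ≤ 2 * ((C0 + Cs) * N ^ (p + 1) * X) := by linarith
      _ = _ := by rw [hX]; ring

theorem outer_k (hr : 0 < r) (hr1 : r ≤ 1 / 16) (hN : 16 / r ≤ N) {A b C k : ℕ}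
    (hk : k ∉ Ico (jN r N) (N - jN r N)) : (r / 16 * N) ^ 2 ≤ dX N α A b C k := by
  obtain ⟨hN1, hth1, hth2, hj⟩ := th_bounds hr hr1 hN
  have hN0 : (0 : ℝ) < N := by exact_mod_cast hN1
  have hNth : (N : ℝ) * th r N = N - 2 * jN r N := by
    unfold th; field_simp
  have h1 : (r / 16 * N) ^ 2 ≤ ((k : ℝ) - N / 2) ^ 2 := by
    have h2 : r / 8 * N ≤ N * th r N := by
      rw [mul_comm]
      exact mul_le_mul_of_nonneg_left hth1 hN0.le
    have h0 : 0 ≤ r / 16 * N := by positivity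
    rw [Finset.mem_Ico, not_and_or, not_le, not_lt] at hk
    rcases hk with hk | hk
    · have h3 : (k : ℝ) < jN r N := by exact_mod_cast hk
      have h4 : r / 16 * N ≤ -((k : ℝ) - N / 2) := by linarith
      have h5 := pow_le_pow_left₀ h0 h4 2
      rwa [neg_sq] at h5
    · have h3 : (N : ℝ) ≤ k + jN r N := by
        have : N ≤ k + jN r N := by omega
        exact_mod_cast this
      have h4 : r / 16 * N ≤ (k : ℝ) - N / 2 := by linarith
      exact pow_le_pow_left₀ h0 h4 2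
  unfold dX
  have := sq_nonneg ((A : ℝ) - N * α 0)
  have := sq_nonneg ((b : ℝ) - N * (α 1 + α 4))
  have := sq_nonneg ((C : ℝ) - N * α 3)
  linarith

theorem core_k (hr : 0 < r) (hr1 : r ≤ 1 / 16) (hN : 16 / r ≤ N) {k : ℕ}
    (hk : k ∈ Ico (jN r N) (N - jN r N)) : k < N ∧ |(2 * (k : ℝ) + 1 - N) / N| ≤ r / 2 := by
  obtain ⟨hN1, hth1, hth2, hj⟩ := th_bounds hr hr1 hN
  have hN0 : (0 : ℝ) < N := by exact_mod_cast hN1
  have hNth : (N : ℝ) * th r N = N - 2 * jN r N := by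
    unfold th; field_simp
  rw [Finset.mem_Ico] at hk
  refine ⟨by omega, ?_⟩
  have h2 : (N : ℝ) * th r N ≤ N * (r / 4) := mul_le_mul_of_nonneg_left hth2 hN0.le
  have h3 : (jN r N : ℝ) ≤ k := by exact_mod_cast hk.1
  have h4 : (k : ℝ) + 1 + jN r N ≤ N := by
    have : k + 1 + jN r N ≤ N := by omega
    exact_mod_cast this
  have h5 : 0 ≤ (N : ℝ) * (r / 4) := by positivity
  rw [abs_div, abs_of_pos hN0, div_le_iff₀ hN0, abs_le]
  constructor <;> linarith

/-- the sides of the rectangle -/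
theorem side_bd (hF : Fr α) (hB : Blk α r κ K C0) (hN : 16 / r ≤ N) (hη : |η| ≤ r / 4) (w : ℤ)
    {A b C : ℕ} (hc : Cmp α A b C) (hA : |(A : ℝ) / N - α 0| ≤ r / 4)
    (hb : |(b : ℝ) / N - (α 1 + α 4)| ≤ r / 4) (hC : |(C : ℝ) / N - α 3| ≤ r / 4) {y τ : ℝ}
    (hy1 : y ≤ r / 2) (hwy : |(w : ℝ)| * y ≤ τ) (hs1 : τ + K * η ^ 2 + K * y ^ 2 ≤ κ * r ^ 2 / 128)
    {s t : ℝ} (hs : |s| = th r N) (ht : |t| ≤ y) :
    ‖ff r N α w η (fun i => ((x3 N A b C i : ℝ) : ℂ)) (s + t * Complex.I)‖ ≤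
      Real.exp 4 * C0 * N * Real.exp (eX N α A b C - κ * r ^ 2 / 256 * N) := by
  have hr := hB.r0
  have hr1 : r ≤ 1 / 16 := by linarith [hB.r1]
  have hκ := hB.κ0
  have hK : 0 < K := lt_of_lt_of_le hκ hB.κK
  have hC0 := hB.C1
  obtain ⟨hN1, hth1, hth2, hj⟩ := th_bounds hr hr1 hN
  have hN0 : (0 : ℝ) < N := by exact_mod_cast hN1
  have hm : ‖(s : ℂ) + t * Complex.I‖ < r := by
    have h1 := norm_add_le (s : ℂ) (t * Complex.I)
    rw [norm_mul, Complex.norm_I, mul_one, Complex.norm_real, Complex.norm_real, Real.norm_eq_abs,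
      Real.norm_eq_abs, hs] at h1
    linarith
  have b1 := es_bd hN1 w (x := s) (t := t) (y := y) (τ := τ) (by rw [hs]; linarith) ht (by linarith) hwy
  have b2 := VB_real hF hB hN hN1 hη hc hA hb hC hm
  have re1 : ((s : ℂ) + t * Complex.I).re = s := by simp
  have im1 : ((s : ℂ) + t * Complex.I).im = t := by simp
  rw [re1, im1] at b2
  unfold ff
  rw [norm_mul]
  calc _ ≤ (Real.exp 4 * Real.exp (N * τ)) * (C0 * N * Real.exp (eX N α A b C + N * (K * η ^ 2) +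
      N * (-κ * s ^ 2 + K * t ^ 2))) := mul_le_mul b1 b2 (norm_nonneg _) (by positivity)
    _ = Real.exp 4 * C0 * N * Real.exp (N * τ + (eX N α A b C + N * (K * η ^ 2) +
      N * (-κ * s ^ 2 + K * t ^ 2))) := by rw [Real.exp_add (N * τ)]; ring
    _ ≤ _ := by
        apply mul_le_mul_of_nonneg_left _ (by positivity)
        apply Real.exp_le_exp.2
        have h1 : t ^ 2 ≤ y ^ 2 := by
          rw [← sq_abs t]
          exact pow_le_pow_left₀ (abs_nonneg _) ht 2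
        have h2 : (r / 8) ^ 2 ≤ s ^ 2 := by
          rw [← sq_abs s, hs]
          exact pow_le_pow_left₀ (by positivity) hth1 2
        have h3 : K * t ^ 2 ≤ K * y ^ 2 := mul_le_mul_of_nonneg_left h1 hK.le
        have h4 : κ * (r / 8) ^ 2 ≤ κ * s ^ 2 := mul_le_mul_of_nonneg_left h2 hκ.le
        have h5 : τ + K * η ^ 2 + (-κ * s ^ 2 + K * t ^ 2) ≤ -(κ * r ^ 2 / 256) := by
          have h6 : κ * (r / 8) ^ 2 = κ * r ^ 2 / 64 := by ring
          have h7 : 0 ≤ κ * r ^ 2 := by positivity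
          linarith
        have h6 := mul_le_mul_of_nonneg_left h5 hN0.le
        linarith

end

theorem task_BN : S_BN := by
  intro hGPX hPZ hPZ2 hINT hSJ α r κ K C0 hF hAc hB hL
  have hr := hB.r0
  have hr64 := hB.r1
  have hr1 : r ≤ 1 / 16 := by linarith
  have hκ := hB.κ0
  have hK : 0 < K := lt_of_lt_of_le hκ hB.κK
  have hC0 := hB.C1
  have hpi := Real.pi_pos
  obtain ⟨τ1, c1, hτ1, hc1, hSJ'⟩ := hSJ hGPX α r κ K C0 hF hAc hB hL
  obtain ⟨y0, c2, CI, hy0, hc2, NI, hI⟩ := hINT (r / 2) κ K c1 (by positivity) (by linarith) hκ hK hc1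
  obtain ⟨Cp, hCp⟩ := hPZ2 hPZ r hr hr1
  obtain ⟨m, hm⟩ : ∃ m, m = min (κ * r ^ 2 / 128) (c2 / 2) := ⟨_, rfl⟩
  have hm0 : 0 < m := by rw [hm]; positivity
  have hm1 : m ≤ κ * r ^ 2 / 128 := hm ▸ min_le_left _ _
  have hm2 : m ≤ c2 / 2 := hm ▸ min_le_right _ _
  obtain ⟨τ0, hτ0⟩ : ∃ τ0, τ0 = min (min τ1 y0) (min (r / 8) (m / (1 + 2 * K))) := ⟨_, rfl⟩
  have hτp : 0 < τ0 := by rw [hτ0]; positivity
  have hτa : τ0 ≤ τ1 := by rw [hτ0]; exact (min_le_left _ _).trans (min_le_left _ _)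
  have hτb : τ0 ≤ y0 := by rw [hτ0]; exact (min_le_left _ _).trans (min_le_right _ _)
  have hτc : τ0 ≤ r / 8 := by rw [hτ0]; exact (min_le_right _ _).trans (min_le_left _ _)
  have hτd : τ0 * (1 + 2 * K) ≤ m := by
    have : τ0 ≤ m / (1 + 2 * K) := by rw [hτ0]; exact (min_le_right _ _).trans (min_le_right _ _)
    rwa [le_div_iff₀ (by positivity)] at this
  obtain ⟨c, hc⟩ : ∃ c, c = min (min c1 (c2 / 2)) (κ * r ^ 2 / 256) := ⟨_, rfl⟩
  have hcp : 0 < c := by rw [hc]; positivity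
  have hca : c ≤ c1 := by rw [hc]; exact (min_le_left _ _).trans (min_le_left _ _)
  have hcb : c ≤ c2 / 2 := by rw [hc]; exact (min_le_left _ _).trans (min_le_right _ _)
  have hcc : c ≤ κ * r ^ 2 / 256 := by rw [hc]; exact min_le_right _ _
  refine ⟨τ0, c, hτp, hcp, fun w y η hy hyτ hwy hη => ?_⟩
  obtain ⟨Cs, p, N0, hS⟩ := hSJ' η (hη.trans hτa)
  obtain ⟨E1, hE1⟩ : ∃ E1 : ℝ, E1 = Real.pi * |(w : ℝ)| / 2 + Real.pi + 1 := ⟨_, rfl⟩
  have hE10 : 0 < E1 := by rw [hE1]; positivity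
  refine ⟨E1 * C0 + E1 * |Cs| + |Cp| * (Real.exp 4 * C0) + Real.exp 4 * |CI| * (C0 + |Cs|) / y ^ 2 +
    Real.exp 4 * C0 / y ^ 2, p + 4, max N0 (max NI ⌈16 / r⌉₊), fun N hN => ?_⟩
  have hNa : N0 ≤ N := (le_max_left _ _).trans hN
  have hNb : NI ≤ N := ((le_max_left _ _).trans (le_max_right _ _)).trans hN
  have hNc : 16 / r ≤ N := by
    have h1 : ⌈16 / r⌉₊ ≤ N := ((le_max_right _ _).trans (le_max_right _ _)).trans hN
    exact (Nat.le_ceil _).trans (by exact_mod_cast h1)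
  obtain ⟨hN1, hth1, hth2, hj⟩ := th_bounds hr hr1 hNc
  have hN1' : (1 : ℝ) ≤ N := by exact_mod_cast hN1
  have hN0 : (0 : ℝ) < N := by linarith
  have hη4 : |η| ≤ r / 4 := by linarith
  have hyr : y ≤ r / 2 := by linarith
  have hη2 : K * η ^ 2 ≤ K * τ0 := by
    apply mul_le_mul_of_nonneg_left _ hK.le
    rw [← sq_abs]
    nlinarith [abs_nonneg η]
  have hy2 : K * y ^ 2 ≤ K * τ0 := by
    apply mul_le_mul_of_nonneg_left _ hK.le
    nlinarith
  obtain ⟨k1, k2, k3, k4, k5⟩ : 0 ≤ E1 * C0 ∧ 0 ≤ E1 * |Cs| ∧ 0 ≤ |Cp| * (Real.exp 4 * C0) ∧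
      0 ≤ Real.exp 4 * |CI| * (C0 + |Cs|) / y ^ 2 ∧ 0 ≤ Real.exp 4 * C0 / y ^ 2 := by
    refine ⟨?_, ?_, ?_, ?_, ?_⟩ <;> positivity
  have pw : ∀ j : ℕ, j ≤ p + 4 → (N : ℝ) ^ j ≤ (N : ℝ) ^ (p + 4) := fun j hj => pow_le_pow_right₀ hN1' hj
  refine ⟨FZ_LD hB hNc hη4 hy hyr w, ?_, ?_, ?_⟩
  · intro ξ hξ hA
    refine (FZ_bd hF hB hNc hη4 hy hyr w hξ hA).trans ?_
    apply mul_le_mul_of_nonneg_right _ (Real.exp_pos _).le
    exact mul_le_mul (by linarith) (pw 2 (by omega)) (by positivity) (by linarith)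
  · intro A b C hcm hA hb hC
    have hsum := sum_lt hF hB hN1 hA hb hC
    have hXm := x3_mem hr hA hb hC
    rw [← x3_c, FZ_eq]
    obtain ⟨X, hX⟩ : ∃ X : Fin 3 → ℂ, X = fun i => ((x3 N A b C i : ℝ) : ℂ) := ⟨_, rfl⟩
    obtain ⟨Y, hY⟩ : ∃ Y : ℝ, Y = Real.exp (eX N α A b C - c * N) := ⟨_, rfl⟩
    have hY0 : 0 < Y := by rw [hY]; exact Real.exp_pos _
    have hYle : ∀ c' : ℝ, c ≤ c' → Real.exp (eX N α A b C - c' * N) ≤ Y := by
      intro c' h
      rw [hY]
      apply Real.exp_le_exp.2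
      have := mul_le_mul_of_nonneg_right h hN0.le
      linarith
    -- the approximation at the lattice points
    have hS3 : ∀ k < N, |(2 * (k : ℝ) + 1 - N) / N| ≤ r / 2 →
        ‖Wk N (zl N k) A b C - VB r N α η X (zl N k / N)‖ +
        ‖deriv (fun z => Wk N z A b C) (zl N k) - deriv (fun z : ℂ => VB r N α η X (z / N)) (zl N k)‖ ≤
        |Cs| * N ^ p * Real.exp (eX N α A b C - c1 * N) := by
      intro k hkN hk
      have h1 := (hS N hNa).2.2 A b C k hcm hA hb hC hkN hk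
      rw [← x3_c, ← hX] at h1
      refine h1.trans ?_
      apply mul_le_mul_of_nonneg_right _ (Real.exp_pos _).le
      exact mul_le_mul_of_nonneg_right (le_abs_self _) (by positivity)
    -- the sum
    have hsub : Ico (jN r N) (N - jN r N) ⊆ range N := by
      intro k hk
      exact Finset.mem_range.2 (core_k hr hr1 hNc hk).1
    have hsplit : Fk N w A b C = ∑ k ∈ range N \ Ico (jN r N) (N - jN r N),
        deriv (fun z : ℂ => ez N w z * Complex.sin (Real.pi * z / N) * Wk N z A b C) (zl N k) +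
        ∑ k ∈ Ico (jN r N) (N - jN r N),
        deriv (fun z : ℂ => ez N w z * Complex.sin (Real.pi * z / N) * Wk N z A b C) (zl N k) := by
      unfold Fk
      exact (Finset.sum_sdiff hsub).symm
    have hO : ‖∑ k ∈ range N \ Ico (jN r N) (N - jN r N),
        deriv (fun z : ℂ => ez N w z * Complex.sin (Real.pi * z / N) * Wk N z A b C) (zl N k)‖ ≤
        E1 * C0 * N ^ (p + 4) * Y := by
      refine (norm_sum_le _ _).trans ?_
      have key : ∀ k ∈ range N \ Ico (jN r N) (N - jN r N),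
          ‖deriv (fun z : ℂ => ez N w z * Complex.sin (Real.pi * z / N) * Wk N z A b C) (zl N k)‖ ≤
          E1 * (C0 * N ^ 3 * Y) := by
        intro k hk
        rw [Finset.mem_sdiff, Finset.mem_range] at hk
        have h1 := term_bd hL hN1 w hsum hcm hk.1
        rw [← hE1] at h1
        refine h1.trans ?_
        apply mul_le_mul_of_nonneg_left _ hE10.le
        apply mul_le_mul_of_nonneg_left _ (by positivity)
        refine le_trans ?_ (hYle _ hcc)
        apply Real.exp_le_exp.2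
        have h2 := outer_k (α := α) hr hr1 hNc (A := A) (b := b) (C := C) hk.2
        have h3 : κ * r ^ 2 / 256 * N ≤ κ * dX N α A b C k / N := by
          rw [le_div_iff₀ hN0]
          have h4 := mul_le_mul_of_nonneg_left h2 hκ.le
          calc _ = κ * (r / 16 * N) ^ 2 := by ring
            _ ≤ _ := h4
        linarith
      have h := Finset.sum_le_card_nsmul _ _ _ key
      rw [nsmul_eq_mul] at h
      refine h.trans ?_
      have hcard : ((range N \ Ico (jN r N) (N - jN r N)).card : ℝ) ≤ N := by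
        have h1 := Finset.card_le_card (Finset.sdiff_subset (s := range N) (t := Ico (jN r N) (N - jN r N)))
        rw [Finset.card_range] at h1
        exact_mod_cast h1
      have h4 : (N : ℝ) ^ 4 * (E1 * C0 * Y) ≤ N ^ (p + 4) * (E1 * C0 * Y) :=
        mul_le_mul_of_nonneg_right (pw 4 (by omega)) (by positivity)
      have h5 := mul_le_mul_of_nonneg_right hcard (by positivity : 0 ≤ E1 * (C0 * N ^ 3 * Y))
      refine h5.trans ?_
      have e1 : (N : ℝ) * (E1 * (C0 * N ^ 3 * Y)) = N ^ 4 * (E1 * C0 * Y) := by ring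
      have e2 : E1 * C0 * N ^ (p + 4) * Y = N ^ (p + 4) * (E1 * C0 * Y) := by ring
      rw [e1, e2]
      exact h4
    have hCo : ‖∑ k ∈ Ico (jN r N) (N - jN r N),
        deriv (fun z : ℂ => ez N w z * Complex.sin (Real.pi * z / N) * Wk N z A b C) (zl N k) -
        ∑ k ∈ Ico (jN r N) (N - jN r N), deriv (fun z : ℂ => ff r N α w η X (z / N)) (zl N k)‖ ≤
        E1 * |Cs| * N ^ (p + 4) * Y := by
      rw [← Finset.sum_sub_distrib]
      refine (norm_sum_le _ _).trans ?_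
      have key : ∀ k ∈ Ico (jN r N) (N - jN r N),
          ‖deriv (fun z : ℂ => ez N w z * Complex.sin (Real.pi * z / N) * Wk N z A b C) (zl N k) -
          deriv (fun z : ℂ => ff r N α w η X (z / N)) (zl N k)‖ ≤ E1 * (|Cs| * N ^ p * Y) := by
        intro k hk
        obtain ⟨hkN, hk2⟩ := core_k hr hr1 hNc hk
        have h0 := hS3 k hkN hk2
        have h1 := core_bd hB hNc hN1 hη4 w (ξ := X) (by rw [hX]; exact hXm) hkN hk2 h0
        rw [← hE1] at h1
        refine h1.trans ?_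
        apply mul_le_mul_of_nonneg_left _ hE10.le
        apply mul_le_mul_of_nonneg_left _ (by positivity)
        exact hYle _ hca
      have h := Finset.sum_le_card_nsmul _ _ _ key
      rw [nsmul_eq_mul] at h
      refine h.trans ?_
      have hcard : ((Ico (jN r N) (N - jN r N)).card : ℝ) ≤ N := by
        have h1 := Finset.card_le_card hsub
        rw [Finset.card_range] at h1
        exact_mod_cast h1
      have h4 : (N : ℝ) ^ (p + 1) * (E1 * |Cs| * Y) ≤ N ^ (p + 4) * (E1 * |Cs| * Y) :=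
        mul_le_mul_of_nonneg_right (pw (p + 1) (by omega)) (by positivity)
      have h5 := mul_le_mul_of_nonneg_right hcard (by positivity : 0 ≤ E1 * (|Cs| * N ^ p * Y))
      refine h5.trans ?_
      have e1 : (N : ℝ) * (E1 * (|Cs| * N ^ p * Y)) = N ^ (p + 1) * (E1 * |Cs| * Y) := by ring
      have e2 : E1 * |Cs| * N ^ (p + 4) * Y = N ^ (p + 4) * (E1 * |Cs| * Y) := by ring
      rw [e1, e2]
      exact h4
    -- the integral
    have hfd := ff_diff hB hNc hN1 hη4 w hXm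
    have hgd : DifferentiableOn ℂ (fun ζ => -ff r N α w η (fun i => ((x3 N A b C i : ℝ) : ℂ)) (-ζ)) (Metric.ball 0 r) := by
      refine DifferentiableOn.neg ?_
      refine hfd.comp (f := fun ζ : ℂ => -ζ) (by fun_prop) ?_
      intro ζ hζ
      rw [mem_ball_zero_iff] at hζ ⊢
      rwa [norm_neg]
    have hside : τ0 + K * η ^ 2 + K * y ^ 2 ≤ κ * r ^ 2 / 128 := by
      have e : τ0 * (1 + 2 * K) = τ0 + K * τ0 + K * τ0 := by ring
      rw [e] at hτd
      linarith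
    have hP := hCp N hNc (ff r N α w η (fun i => ((x3 N A b C i : ℝ) : ℂ))) hfd y
      (Real.exp 4 * C0 * N * Real.exp (eX N α A b C - κ * r ^ 2 / 256 * N)) hy hyr ?_
    · have hQ : ‖QZ r N y (ff r N α w η (fun i => ((x3 N A b C i : ℝ) : ℂ))) -
          QZ r N y (fun ζ => -ff r N α w η (fun i => ((x3 N A b C i : ℝ) : ℂ)) (-ζ))‖ ≤
          2 * (Real.exp 4 * |CI| * (C0 + |Cs|) / y ^ 2) * N ^ (p + 4) * Y := by
        rw [QZ_sub hr hr1 hNc hy hyr hfd.continuousOn hgd.continuousOn]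
        obtain ⟨Z, hZ⟩ : ∃ Z : ℝ, Z = |CI| * N * (2 * (C0 + |Cs|) * N ^ (p + 1) *
          Real.exp (eX N α A b C + N * (K * η ^ 2))) * Real.exp (-(c2 * N)) := ⟨_, rfl⟩
        have hZ0 : 0 ≤ Z := by rw [hZ]; positivity
        refine (QZ_bd hr hr1 hNc hy (Q := Real.exp 4 * Real.exp (N * τ0) * Z) (by positivity) ?_).trans ?_
        · intro x hx
          have hx4 : |x| ≤ r / 4 := by
            rw [abs_le]
            exact ⟨by linarith [hx.1], by linarith [hx.2]⟩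
          have e1 : ff r N α w η (fun i => ((x3 N A b C i : ℝ) : ℂ)) (x + y * Complex.I) -
              -ff r N α w η (fun i => ((x3 N A b C i : ℝ) : ℂ)) (-(x + y * Complex.I)) =
              ez N w (N * (x + y * Complex.I)) * Complex.sin (Real.pi * (x + y * Complex.I)) *
              (VB r N α η (fun i => ((x3 N A b C i : ℝ) : ℂ)) (x + y * Complex.I) -
                VB r N α η (fun i => ((x3 N A b C i : ℝ) : ℂ)) (-(x + y * Complex.I))) := by
            unfold ff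
            rw [ez_even, mul_neg (Real.pi : ℂ), Complex.sin_neg]
            ring
          rw [e1, norm_mul]
          have b1 := es_bd hN1 w (x := x) (t := y) (y := y) (τ := τ0) (by linarith)
            (by rw [abs_of_pos hy]) (by linarith) hwy
          have re1 : ((x : ℂ) + y * Complex.I).re = x := by simp
          have im1 : ((x : ℂ) + y * Complex.I).im = y := by simp
          have b2 := delta_bd hF hB hL hNc hN1 hη4 (abs_nonneg Cs) (hI N hNb) hcm hA hb hC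
            (fun k hkN hk => (le_add_of_nonneg_right (norm_nonneg _)).trans (by
              have h9 := hS3 k hkN hk
              rw [hX] at h9
              exact h9)) (ζ := (x : ℂ) + y * Complex.I) (by rw [re1]; exact hx4)
            (by rw [im1, abs_of_pos hy]; linarith)
          refine mul_le_mul b1 (b2.trans ?_) (norm_nonneg _) (by positivity)
          rw [hZ]
          apply mul_le_mul_of_nonneg_right _ (Real.exp_pos _).le
          apply mul_le_mul_of_nonneg_right _ (by positivity)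
          exact mul_le_mul_of_nonneg_right (le_abs_self _) hN0.le
        · have e1 : Real.exp (N * τ0) * (Real.exp (eX N α A b C + N * (K * η ^ 2)) * Real.exp (-(c2 * N))) ≤ Y := by
            rw [← Real.exp_add, ← Real.exp_add]
            refine le_trans ?_ (hYle _ hcb)
            apply Real.exp_le_exp.2
            have h1 : τ0 + K * η ^ 2 ≤ c2 / 2 := by
              have e : τ0 * (1 + 2 * K) = τ0 + K * τ0 + K * τ0 := by ring
              rw [e] at hτd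
              have : 0 < K * τ0 := by positivity
              linarith
            have h2 := mul_le_mul_of_nonneg_left h1 hN0.le
            linarith
          obtain ⟨U, hU⟩ : ∃ U : ℝ, U = Real.exp 4 * |CI| * (C0 + |Cs|) / y ^ 2 := ⟨_, rfl⟩
          rw [← hU] at k4 ⊢
          have e2 : (N : ℝ) * (Real.exp 4 * Real.exp (N * τ0) * Z / y ^ 2) = 2 * U * N ^ (p + 3) *
              (Real.exp (N * τ0) * (Real.exp (eX N α A b C + N * (K * η ^ 2)) * Real.exp (-(c2 * N)))) := by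
            rw [hZ, hU]
            ring
          rw [e2]
          apply mul_le_mul _ e1 (by positivity) (by positivity)
          exact mul_le_mul_of_nonneg_left (pw (p + 3) (by omega)) (by positivity)
      have hB2 : Cp * N * (Real.exp 4 * C0 * N * Real.exp (eX N α A b C - κ * r ^ 2 / 256 * N)) ≤
          |Cp| * (Real.exp 4 * C0) * N ^ (p + 4) * Y := by
        have h1 := hYle _ hcc
        have h2 : Cp * N * (Real.exp 4 * C0 * N * Real.exp (eX N α A b C - κ * r ^ 2 / 256 * N)) ≤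
            |Cp| * N * (Real.exp 4 * C0 * N * Y) := by
          apply mul_le_mul _ _ (by positivity) (by positivity)
          · exact mul_le_mul_of_nonneg_right (le_abs_self _) hN0.le
          · exact mul_le_mul_of_nonneg_left h1 (by positivity)
        have h3 : (N : ℝ) ^ 2 * (|Cp| * (Real.exp 4 * C0) * Y) ≤ N ^ (p + 4) * (|Cp| * (Real.exp 4 * C0) * Y) :=
          mul_le_mul_of_nonneg_right (pw 2 (by omega)) (by positivity)
        have e1 : |Cp| * N * (Real.exp 4 * C0 * N * Y) = (N : ℝ) ^ 2 * (|Cp| * (Real.exp 4 * C0) * Y) := by ring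
        have e2 : |Cp| * (Real.exp 4 * C0) * N ^ (p + 4) * Y = N ^ (p + 4) * (|Cp| * (Real.exp 4 * C0) * Y) := by ring
        rw [e2]
        rw [e1] at h2
        linarith
      have hP2 := hP.trans hB2
      rw [hX] at hCo
      rw [hsplit]
      obtain ⟨S1, hS1⟩ : ∃ S1 : ℂ, S1 = ∑ k ∈ range N \ Ico (jN r N) (N - jN r N),
        deriv (fun z : ℂ => ez N w z * Complex.sin (Real.pi * z / N) * Wk N z A b C) (zl N k) := ⟨_, rfl⟩
      obtain ⟨S2, hS2⟩ : ∃ S2 : ℂ, S2 = ∑ k ∈ Ico (jN r N) (N - jN r N),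
        deriv (fun z : ℂ => ez N w z * Complex.sin (Real.pi * z / N) * Wk N z A b C) (zl N k) := ⟨_, rfl⟩
      obtain ⟨S4, hS4⟩ : ∃ S4 : ℂ, S4 = ∑ k ∈ Ico (jN r N) (N - jN r N),
        deriv (fun z : ℂ => ff r N α w η (fun i => ((x3 N A b C i : ℝ) : ℂ)) (z / N)) (zl N k) := ⟨_, rfl⟩
      obtain ⟨Q1, hQ1⟩ : ∃ Q1 : ℂ, Q1 = QZ r N y (ff r N α w η (fun i => ((x3 N A b C i : ℝ) : ℂ))) := ⟨_, rfl⟩
      obtain ⟨Q2, hQ2⟩ : ∃ Q2 : ℂ, Q2 = QZ r N y (fun ζ => -ff r N α w η (fun i => ((x3 N A b C i : ℝ) : ℂ)) (-ζ)) := ⟨_, rfl⟩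
      rw [← hS1] at hO ⊢
      rw [← hS2, ← hS4] at hCo
      rw [← hS2, ← hQ1]
      rw [← hS4, ← hQ1, ← hQ2] at hP2
      rw [← hQ1, ← hQ2] at hQ
      have e0 : S1 + S2 - Q1 = S1 + (S2 - S4) + (S4 - (Q1 + Q2) / 2) + (-(1 / 2 : ℂ)) * (Q1 - Q2) := by ring
      have t1 := norm_add_le (S1 + (S2 - S4) + (S4 - (Q1 + Q2) / 2)) ((-(1 / 2 : ℂ)) * (Q1 - Q2))
      have t2 := norm_add_le (S1 + (S2 - S4)) (S4 - (Q1 + Q2) / 2)
      have t3 := norm_add_le S1 (S2 - S4)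
      have t4 : ‖(-(1 / 2 : ℂ)) * (Q1 - Q2)‖ = 1 / 2 * ‖Q1 - Q2‖ := by
        rw [norm_mul, norm_neg]
        norm_num
      rw [e0]
      rw [t4] at t1
      have t5 : 0 ≤ Real.exp 4 * C0 / y ^ 2 * N ^ (p + 4) * Y := by positivity
      have e5 : (E1 * C0 + E1 * |Cs| + |Cp| * (Real.exp 4 * C0) + Real.exp 4 * |CI| * (C0 + |Cs|) / y ^ 2 +
          Real.exp 4 * C0 / y ^ 2) * N ^ (p + 4) * Y = E1 * C0 * N ^ (p + 4) * Y + E1 * |Cs| * N ^ (p + 4) * Y +
          |Cp| * (Real.exp 4 * C0) * N ^ (p + 4) * Y + 1 / 2 * (2 * (Real.exp 4 * |CI| * (C0 + |Cs|) / y ^ 2) * N ^ (p + 4) * Y) +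
          Real.exp 4 * C0 / y ^ 2 * N ^ (p + 4) * Y := by ring
      rw [← hY, e5]
      linarith
    · intro t ht
      have ht' : |t| ≤ y := abs_le.2 ht
      constructor
      · exact side_bd hF hB hNc hη4 w hcm hA hb hC hyr hwy hside
          (by rw [abs_of_pos (by linarith)]) ht'
      · have h1 := side_bd hF hB hNc hη4 w hcm hA hb hC hyr hwy hside (s := -th r N)
          (by rw [abs_neg, abs_of_pos (by linarith)]) ht'
        have e : ((-th r N : ℝ) : ℂ) = -(th r N : ℂ) := by push_cast; rfl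
        rw [e] at h1
        exact h1
  · intro A b C hsum hcm
    have h1 := Fk_bd hL hκ hC0 hN1 w hsum hcm
    rw [← hE1] at h1
    refine h1.trans ?_
    have e1 : sR α (x3 N A b C) = sR α ![(A : ℝ) / N, (b : ℝ) / N, (C : ℝ) / N] := rfl
    rw [← e1]
    apply mul_le_mul_of_nonneg_right _ (Real.exp_pos _).le
    exact mul_le_mul (by linarith) (pw 4 (by omega)) (by positivity) (by linarith)

end Pool.Agent.Q195.HT
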