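import Pool.Agent.Q99.HT.Stm3
import Pool.Agent.HopfPinch.AnS1

/-!
# Project HT: functions which are differentiable along lines; tools for the tasks SJ and BN
-/

set_option autoImplicit false

namespace Pool.Agent.Q195.HT

open Finset Filter Topology MeasureTheory
open Pool.Agent.Q99.HT
open Pool.Agent.Q99.KN (bc Wk zl ez Fk QZ kz th jN)

/-- an integral over a compact interval -/
theorem LD_int {E : Type} [NormedAddCommGroup E] [NormedSpace ℂ E] {U : Set E} (hU : IsOpen U)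
    (G : E → ℝ → ℂ) {a b : ℝ} (hab : a ≤ b)
    (hc : ContinuousOn (fun p : E × ℝ => G p.1 p.2) (U ×ˢ Set.Icc a b))
    (hd : ∀ x ∈ Set.Icc a b, ∀ q ∈ U, ∀ u : E, DifferentiableAt ℂ (fun t : ℂ => G (q + t • u) x) 0) :
    LD (fun q => ∫ x in a..b, G q x) U := by
  classical
  refine ⟨?_, ?_⟩
  · have h1 : Continuous (Function.uncurry fun (q : U) (x : ℝ) => G q (Set.projIcc a b hab x)) := by
      have h2 : Continuous (fun p : U × ℝ => ((p.1 : E), ((Set.projIcc a b hab p.2 : Set.Icc a b) : ℝ))) := by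
        refine Continuous.prodMk (by fun_prop) ?_
        exact continuous_subtype_val.comp (continuous_projIcc.comp continuous_snd)
      exact hc.comp_continuous h2 (fun p => ⟨p.1.2, (Set.projIcc a b hab p.2).2⟩)
    have h3 := intervalIntegral.continuous_parametric_intervalIntegral_of_continuous' (μ := volume)
      (f := fun (q : U) (x : ℝ) => G q (Set.projIcc a b hab x)) h1 a b
    rw [continuousOn_iff_continuous_domRestrict]
    refine h3.congr fun q => ?_
    rw [Set.domRestrict_apply]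
    refine intervalIntegral.integral_congr fun x hx => ?_
    rw [Set.uIcc_of_le hab] at hx
    beta_reduce
    rw [Set.projIcc_of_mem hab hx]
  · intro q hq u
    have hcont : Continuous (fun t : ℂ => q + t • u) := by fun_prop
    have h0 : (fun t : ℂ => q + t • u) ⁻¹' U ∈ 𝓝 (0 : ℂ) := by
      apply hcont.continuousAt.preimage_mem_nhds
      simpa using hU.mem_nhds hq
    obtain ⟨δ, hδ, hδU⟩ := Metric.mem_nhds_iff.1 h0
    have hsub : ∀ t ∈ Metric.closedBall (0 : ℂ) (δ / 2), q + t • u ∈ U := fun t ht =>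
      hδU (Metric.closedBall_subset_ball (by linarith) ht)
    have hc2 : ContinuousOn (fun p : ℂ × ℝ => G (q + p.1 • u) p.2)
        (Metric.closedBall 0 (δ / 2) ×ˢ Set.Icc a b) := by
      refine hc.comp (f := fun p : ℂ × ℝ => (q + p.1 • u, p.2)) (by fun_prop) ?_
      intro p hp
      exact ⟨hsub _ hp.1, hp.2⟩
    obtain ⟨M, hM⟩ := ((isCompact_closedBall (0 : ℂ) (δ / 2)).prod isCompact_Icc).bddAbove_image hc2.norm
    have hM' : ∀ t ∈ Metric.closedBall (0 : ℂ) (δ / 2), ∀ x ∈ Set.Icc a b, ‖G (q + t • u) x‖ ≤ M := by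
      intro t ht x hx
      have h1 : ((t, x) : ℂ × ℝ) ∈ Metric.closedBall (0 : ℂ) (δ / 2) ×ˢ Set.Icc a b := ⟨ht, hx⟩
      exact hM (Set.mem_image_of_mem _ h1)
    have hb2 : Metric.ball (0 : ℂ) (δ / 2) ⊆ Metric.closedBall (0 : ℂ) (δ / 2) := Metric.ball_subset_closedBall
    have h := Pool.Agent.HP.differentiableOn_integral (X := ℂ) (E := ℂ) (volume.restrict (Set.Ioc a b))
      (fun (x : ℝ) (t : ℂ) => if x ∈ Set.Icc a b then G (q + t • u) x else 0)
      (Metric.ball 0 (δ / 2)) Metric.isOpen_ball ?_ ?_ (fun _ => |M|) (integrable_const _) ?_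
    · have h4 := (h 0 (Metric.mem_ball_self (by positivity))).differentiableAt
        (Metric.ball_mem_nhds _ (by positivity))
      refine h4.congr_of_eventuallyEq (Eventually.of_forall fun t => ?_)
      beta_reduce
      rw [intervalIntegral.integral_of_le hab]
      refine setIntegral_congr_fun measurableSet_Ioc fun x hx => ?_
      beta_reduce
      rw [if_pos (Set.Ioc_subset_Icc_self hx)]
    · intro t ht
      have h1 : ContinuousOn (fun x : ℝ => G (q + t • u) x) (Set.Ioc a b) := by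
        refine hc2.comp (f := fun x : ℝ => (t, x)) (by fun_prop) ?_
        intro x hx
        exact ⟨hb2 ht, Set.Ioc_subset_Icc_self hx⟩
      refine (h1.aestronglyMeasurable measurableSet_Ioc).congr ?_
      filter_upwards [ae_restrict_mem measurableSet_Ioc] with x hx
      rw [if_pos (Set.Ioc_subset_Icc_self hx)]
    · intro x
      by_cases hx : x ∈ Set.Icc a b
      · simp only [if_pos hx]
        intro t ht
        have h1 := hd x hx (q + t • u) (hsub t (hb2 ht)) u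
        have h2 : DifferentiableAt ℂ (fun s : ℂ => G (q + t • u + (s - t) • u) x) t := by
          have h3 : DifferentiableAt ℂ (fun s : ℂ => G (q + t • u + s • u) x) ((fun s : ℂ => s - t) t) := by
            simpa using h1
          exact DifferentiableAt.comp (g := fun s : ℂ => G (q + t • u + s • u) x) t h3 (by fun_prop)
        refine (h2.congr_of_eventuallyEq (Eventually.of_forall fun s => ?_)).differentiableWithinAt
        beta_reduce
        rw [add_assoc, ← add_smul]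
        congr 3
        ring
      · simp only [if_neg hx]
        exact differentiableOn_const _
    · intro x t ht
      by_cases hx : x ∈ Set.Icc a b
      · simp only [if_pos hx]
        exact (hM' t (hb2 ht) x hx).trans (le_abs_self M)
      · simp only [if_neg hx, norm_zero]
        exact abs_nonneg M

theorem LD_of_diff {E : Type} [NormedAddCommGroup E] [NormedSpace ℂ E] {U : Set E} (hU : IsOpen U)
    {f : E → ℂ} (hf : DifferentiableOn ℂ f U) : LD f U := by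
  refine ⟨hf.continuousOn, fun x hx u => ?_⟩
  have h1 : DifferentiableAt ℂ f ((fun t : ℂ => x + t • u) 0) := by
    simpa using hf.differentiableAt (hU.mem_nhds hx)
  exact DifferentiableAt.comp (g := f) (f := fun t : ℂ => x + t • u) 0 h1 (by fun_prop)

theorem LD_const_mul {E : Type} [NormedAddCommGroup E] [NormedSpace ℂ E] {U : Set E}
    {f : E → ℂ} (hf : LD f U) (c : ℂ) : LD (fun x => c * f x) U :=
  ⟨continuousOn_const.mul hf.1, fun x hx u => (hf.2 x hx u).const_mul c⟩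

/-- the four variables -/
def v4 (ξ : Fin 3 → ℂ) (s : ℂ) : Fin 4 → ℂ := ![ξ 0, ξ 1, ξ 2, s]

theorem v4_diff : Differentiable ℂ (fun p : (Fin 3 → ℂ) × ℂ => v4 p.1 p.2) := by
  rw [differentiable_pi]
  intro i
  fin_cases i
  · show Differentiable ℂ (fun p : (Fin 3 → ℂ) × ℂ => p.1 0)
    fun_prop
  · show Differentiable ℂ (fun p : (Fin 3 → ℂ) × ℂ => p.1 1)
    fun_prop
  · show Differentiable ℂ (fun p : (Fin 3 → ℂ) × ℂ => p.1 2)
    fun_prop
  · show Differentiable ℂ (fun p : (Fin 3 → ℂ) × ℂ => p.2)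
    fun_prop

section

variable {α : Fin 6 → ℝ} {r κ K C0 : ℝ}

theorem v4_mem (hr : 0 < r) {ξ : Fin 3 → ℂ} {s : ℂ} (h : ξ ∈ Metric.ball (qC α) r)
    (hs : ‖s - α 1‖ < r) : v4 ξ s ∈ Metric.ball (vC α) r := by
  rw [Metric.mem_ball, dist_pi_lt_iff hr] at h ⊢
  intro i
  fin_cases i
  · have := h 0
    simpa [qC, qc, vC, v4] using this
  · have := h 1
    simpa [qC, qc, vC, v4] using this
  · have := h 2
    simpa [qC, qc, vC, v4] using this
  · show dist s (α 1 : ℂ) < r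
    rwa [dist_eq_norm]

theorem ball_half (hr : 0 < r) {ξ : Fin 3 → ℂ} (h : ξ ∈ Metric.ball (qC α) (r / 2)) :
    ξ ∈ Metric.ball (qC α) r := Metric.ball_subset_ball (by linarith) h

theorem Adm_v4 (hF : Fr α) {ξ : Fin 3 → ℂ} {s : ℂ} (h : Ad3 α ξ) (hs : α 1 = 0 → s = 0) :
    Adm α (v4 ξ s) := by
  refine ⟨fun h0 => h 0 ?_, fun h1 => ⟨h 1 ?_, hs h1⟩, fun h3 => h 2 ?_⟩
  · show α 0 = 0
    exact h0
  · show α 1 + α 4 = 0
    rw [h1, hF.z14.1 h1, add_zero]
  · show α 3 = 0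
    exact h3

/-- the bound of the product of the brackets -/
theorem PB_bd (hF : Fr α) (hB : Blk α r κ K C0) {N : ℕ} (hN : 1 ≤ N) {ξ : Fin 3 → ℂ} {s ζ : ℂ}
    (hξ : ξ ∈ Metric.ball (qC α) r) (hA : Ad3 α ξ) (hs0 : α 1 = 0 → s = 0) (hs : ‖s - α 1‖ < r)
    (hζ : ‖ζ‖ < r) : ‖PB N α (v4 ξ s) ζ‖ ≤ C0 * Real.exp (N * (v0 α + mR α (re3 ξ) -
      κ * (sR α (re3 ξ) + (s.re - α 1) ^ 2 + ζ.re ^ 2) +
      K * (∑ i, (ξ i).im ^ 2 + s.im ^ 2 + ζ.im ^ 2))) := by
  have h := hB.maj N hN (v4 ξ s) (v4_mem hB.r0 hξ hs) (Adm_v4 hF hA hs0) ζ hζ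
  have e1 : r3 (v4 ξ s) = re3 ξ := by
    funext i
    fin_cases i <;> rfl
  have e2 : ∑ i, ((v4 ξ s i).re - (vC α i).re) ^ 2 = sR α (re3 ξ) + (s.re - α 1) ^ 2 := by
    rw [Fin.sum_univ_four]
    unfold sR
    rw [Fin.sum_univ_three]
    have a0 : (vC α 0).re = qc α 0 := by simp [vC, qc]
    have a1 : (vC α 1).re = qc α 1 := by simp [vC, qc]
    have a2 : (vC α 2).re = qc α 2 := by simp [vC, qc]
    have a3 : (vC α 3).re = α 1 := by simp [vC]
    rw [a0, a1, a2, a3]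
    rfl
  have e3 : ∑ i, (v4 ξ s i).im ^ 2 = ∑ i, (ξ i).im ^ 2 + s.im ^ 2 := by
    rw [Fin.sum_univ_four, Fin.sum_univ_three]
    rfl
  rw [e1, e2, e3] at h
  exact h

/-! ### the interval of the summation index -/

theorem half_le {N : ℕ} (h0 : 0 < r) (hN : 16 / r ≤ N) :
    (0 : ℝ) < N ∧ 16 ≤ r * N ∧ 1 / (N : ℝ) ≤ r / 16 := by
  have h1 : 0 < 16 / r := by positivity
  have h2 : (0 : ℝ) < N := lt_of_lt_of_le h1 hN
  have h3 : 16 ≤ r * N := by
    rw [div_le_iff₀ h0] at hN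
    linarith
  refine ⟨h2, h3, ?_⟩
  rw [div_le_iff₀ h2]
  linarith

/-- the first and the last lattice point -/
noncomputable def ja (r : ℝ) (N : ℕ) (x : ℝ) : ℤ := ⌈(N : ℝ) * (x - r / 4)⌉
noncomputable def jb (r : ℝ) (N : ℕ) (x : ℝ) : ℤ := ⌊(N : ℝ) * (x + r / 4)⌋

theorem geo {N : ℕ} (h0 : 0 < r) (hN : 16 / r ≤ N) (x : ℝ) :
    x - 9 * r / 32 ≤ lo N (ja r N x) ∧ lo N (ja r N x) ≤ x - 7 * r / 32 ∧
    x + 7 * r / 32 ≤ hi N (jb r N x) ∧ hi N (jb r N x) ≤ x + 9 * r / 32 := by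
  obtain ⟨hN0, hN1, -⟩ := half_le h0 hN
  have c1 := Int.le_ceil ((N : ℝ) * (x - r / 4))
  have c2 := Int.ceil_lt_add_one ((N : ℝ) * (x - r / 4))
  have f1 := Int.floor_le ((N : ℝ) * (x + r / 4))
  have f2 := Int.lt_floor_add_one ((N : ℝ) * (x + r / 4))
  unfold lo hi ja jb
  refine ⟨?_, ?_, ?_, ?_⟩
  · rw [le_div_iff₀ hN0]; nlinarith
  · rw [div_le_iff₀ hN0]; nlinarith
  · rw [le_div_iff₀ hN0]; nlinarith
  · rw [div_le_iff₀ hN0]; nlinarith

theorem ja_le_jb {N : ℕ} (h0 : 0 < r) (hN : 16 / r ≤ N) (x : ℝ) : ja r N x ≤ jb r N x := by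
  obtain ⟨hN0, hN1, -⟩ := half_le h0 hN
  have c2 := Int.ceil_lt_add_one ((N : ℝ) * (x - r / 4))
  have f2 := Int.lt_floor_add_one ((N : ℝ) * (x + r / 4))
  have h1 : ((ja r N x : ℤ) : ℝ) ≤ ((jb r N x : ℤ) : ℝ) := by
    unfold ja jb
    nlinarith
  exact_mod_cast h1

theorem card_le {N : ℕ} (h0 : 0 < r) (h1 : r ≤ 1 / 16) (hN : 16 / r ≤ N) (x : ℝ) :
    ((jb r N x : ℤ) : ℝ) - (ja r N x : ℤ) + 1 ≤ N := by
  obtain ⟨hN0, hN1, -⟩ := half_le h0 hN
  have c1 := Int.le_ceil ((N : ℝ) * (x - r / 4))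
  have f1 := Int.floor_le ((N : ℝ) * (x + r / 4))
  unfold ja jb
  nlinarith

theorem seg_mem {N : ℕ} (h0 : 0 < r) (hN : 16 / r ≤ N) {y x t : ℝ}
    (hx : x ∈ Set.Icc (lo N (ja r N y)) (hi N (jb r N y))) (ht : |t| ≤ r / 4) :
    ‖(x : ℂ) + t * Complex.I - y‖ < r := by
  obtain ⟨g1, g2, g3, g4⟩ := geo h0 hN y
  have e : (x : ℂ) + t * Complex.I - y = ((x - y : ℝ) : ℂ) + t * Complex.I := by push_cast; ring
  rw [e]
  have h2 : ‖((x - y : ℝ) : ℂ) + t * Complex.I‖ ≤ |x - y| + |t| := by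
    refine (norm_add_le _ _).trans ?_
    rw [norm_mul, Complex.norm_I, Complex.norm_real, Complex.norm_real, mul_one, Real.norm_eq_abs, Real.norm_eq_abs]
  have h3 : |x - y| ≤ 9 * r / 32 := by
    rw [abs_le]
    exact ⟨by linarith [hx.1], by linarith [hx.2]⟩
  linarith

theorem core_mem {N : ℕ} (h0 : 0 < r) (hN : 16 / r ≤ N) {x : ℝ} {y : ℤ} (hy : y ∈ Icc (ja r N x) (jb r N x)) :
    |(y : ℝ) / N - x| ≤ r / 4 := by
  obtain ⟨hN0, hN1, -⟩ := half_le h0 hN
  rw [Finset.mem_Icc] at hy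
  have c1 := Int.ceil_le.1 hy.1
  have c2 := Int.le_floor.1 hy.2
  rw [abs_le]
  constructor
  · have : x - r / 4 ≤ (y : ℝ) / N := by
      rw [le_div_iff₀ hN0]; linarith
    linarith
  · have : (y : ℝ) / N ≤ x + r / 4 := by
      rw [div_le_iff₀ hN0]; linarith
    linarith

theorem core_not {N : ℕ} (h0 : 0 < r) (hN : 16 / r ≤ N) {x : ℝ} {y : ℤ} (hy : y ∉ Icc (ja r N x) (jb r N x)) :
    (r / 4 * N) ^ 2 ≤ ((y : ℝ) - N * x) ^ 2 := by
  obtain ⟨hN0, hN1, -⟩ := half_le h0 hN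
  rw [Finset.mem_Icc, not_and_or, not_le, not_le] at hy
  rcases hy with hy | hy
  · have c1 : (y : ℝ) < N * (x - r / 4) := Int.lt_ceil.1 hy
    nlinarith
  · have c1 : (N : ℝ) * (x + r / 4) < y := Int.floor_lt.1 hy
    nlinarith

end

end Pool.Agent.Q195.HT
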