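import Pool.Agent.Q207.HT.Stm

/-!
# HT2, HT4: transport of Lie algebra invariants
-/

set_option autoImplicit false

open Finset Matrix

namespace Pool.Agent.Q195.HT

open Q207.DB Q207.HT

section

variable {X Y κ : Type} [Fintype X] [Fintype Y] [Fintype κ] [DecidableEq κ]

lemma actM_update [DecidableEq X] (A : Matrix X X ℂ) (l : κ) (x : (κ → X) → ℂ) (w : κ → X) :
    actM (Function.update (fun _ => (1 : Matrix X X ℂ)) l A) x w =
      ∑ y, A (w l) y * x (Function.update w l y) := by
  rw [actM_apply]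
  symm
  apply Fintype.sum_of_injective (fun y => Function.update w l y) (Function.update_injective w l)
  · intro v hv
    have h1 : ∃ k, k ≠ l ∧ v k ≠ w k := by
      by_contra hcon
      push Not at hcon
      apply hv
      refine ⟨v l, ?_⟩
      funext k
      show Function.update w l (v l) k = v k
      by_cases hk : k = l
      · rw [hk, Function.update_self]
      · rw [Function.update_of_ne hk, hcon k hk]
    obtain ⟨k, hk, hvk⟩ := h1
    have h2 : (Function.update (fun _ => (1 : Matrix X X ℂ)) l A) k (w k) (v k) = 0 := by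
      rw [Function.update_of_ne hk]
      exact Matrix.one_apply_ne' hvk
    rw [prod_eq_zero (mem_univ k) h2, zero_mul]
  · intro y
    congr 1
    rw [prod_eq_single l]
    · rw [Function.update_self, Function.update_self]
    · intro k _ hk
      rw [Function.update_of_ne hk, Function.update_of_ne hk]
      exact Matrix.one_apply_eq _
    · intro h
      exact absurd (mem_univ _) h

lemma lieA_eq_sum [DecidableEq X] (A : Matrix X X ℂ) (x : (κ → X) → ℂ) :
    lieA A x = ∑ l, actM (Function.update (fun _ => (1 : Matrix X X ℂ)) l A) x := by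
  funext w
  rw [lieA_apply, Finset.sum_apply]
  exact sum_congr rfl fun l _ => (actM_update A l x w).symm

/-- intertwining -/
lemma lieA_actM {Q : κ → Matrix Y X ℂ} {h : Matrix Y Y ℂ} {g : Matrix X X ℂ}
    (H : ∀ k, h * Q k = Q k * g) (x : (κ → X) → ℂ) : lieA h (actM Q x) = actM Q (lieA g x) := by
  classical
  rw [lieA_eq_sum, lieA_eq_sum, map_sum]
  refine sum_congr rfl fun l _ => ?_
  rw [actM_comp, actM_comp]
  have h1 : (fun k => Function.update (fun _ => (1 : Matrix Y Y ℂ)) l h k * Q k) =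
      fun k => Q k * Function.update (fun _ => (1 : Matrix X X ℂ)) l g k := by
    funext k
    by_cases hk : k = l
    · rw [hk, Function.update_self, Function.update_self, H]
    · rw [Function.update_of_ne hk, Function.update_of_ne hk, Matrix.one_mul, Matrix.mul_one]
  rw [h1]

end

theorem trans : S_Trans := by
  classical
  intro X Y _ _ _ _ HX HY Δ hY J _ Q Q' h1 h2 h3 κ _ _ x hx
  have e1 : x = ∑ τ : κ → J, actM (fun k => Q' (τ k)) (actM (fun k => Q (τ k)) x) := by
    have e2 := actM_sum (κ := κ) (fun j => Q' j * Q j) x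
    rw [h3, actM_one] at e2
    rw [e2]
    refine sum_congr rfl fun τ _ => ?_
    rw [actM_comp, ← e2]
  rw [e1]
  refine Submodule.sum_mem _ fun τ _ => ?_
  have e3 : actM (fun k => Q (τ k)) x ∈ gensL HY Δ κ := by
    refine hY κ _ fun h hh => ?_
    obtain ⟨g, hg, hgh⟩ := h1 h hh
    rw [lieA_actM (fun k => hgh (τ k)), hx g hg, map_zero]
  have e5 : gensL HY Δ κ ≤ (gensL HX Δ κ).comap (actM fun k => Q' (τ k)) := by
    unfold gensL
    rw [Submodule.span_le]
    rintro y ⟨l, s, e, u, hu, rfl⟩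
    show actM (fun k => Q' (τ k)) (prodT e u) ∈ gensL HX Δ κ
    rw [actM_prodT]
    refine Submodule.subset_span ⟨l, s, e, _, fun j => ⟨(hu j).1, fun g hg => ?_⟩, rfl⟩
    obtain ⟨h, hh, hgh⟩ := h2 g hg
    rw [lieA_actM (fun a => hgh (τ (e ⟨j, a⟩))), (hu j).2 h hh, map_zero]
  exact e5 e3

theorem trbd : S_TrBd := by
  intro I P _ _ _ _ d d' Δ V W h ι N N' h0 h1 h2
  refine trans _ _ _ _ Δ h P (fun p => (sel d (ι p))ᵀ * N p * sel d' p) (fun p => (sel d' p)ᵀ * N' p * sel d (ι p)) ?_ ?_ ?_
  · rintro _ ⟨D, hD, rfl⟩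
    obtain ⟨w, hw, hDw⟩ := h1 D hD
    refine ⟨_, ⟨w, hw, rfl⟩, fun p => ?_⟩
    calc blockDiagonal' D * ((sel d (ι p))ᵀ * N p * sel d' p) = (blockDiagonal' D * (sel d (ι p))ᵀ) * N p * sel d' p := by
          simp only [Matrix.mul_assoc]
      _ = (sel d (ι p))ᵀ * (D (ι p) * N p) * sel d' p := by
          rw [bd_selT]
          simp only [Matrix.mul_assoc]
      _ = (sel d (ι p))ᵀ * N p * (w p * sel d' p) := by
          rw [hDw]
          simp only [Matrix.mul_assoc]
      _ = _ := by
          rw [← sel_bd]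
          simp only [Matrix.mul_assoc]
  · rintro _ ⟨w, hw, rfl⟩
    obtain ⟨D, hD, hDw⟩ := h2 w hw
    refine ⟨_, ⟨D, hD, rfl⟩, fun p => ?_⟩
    calc blockDiagonal' w * ((sel d' p)ᵀ * N' p * sel d (ι p)) = (blockDiagonal' w * (sel d' p)ᵀ) * N' p * sel d (ι p) := by
          simp only [Matrix.mul_assoc]
      _ = (sel d' p)ᵀ * (w p * N' p) * sel d (ι p) := by
          rw [bd_selT]
          simp only [Matrix.mul_assoc]
      _ = (sel d' p)ᵀ * N' p * (D (ι p) * sel d (ι p)) := by
          rw [hDw]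
          simp only [Matrix.mul_assoc]
      _ = _ := by
          rw [← sel_bd]
          simp only [Matrix.mul_assoc]
  · rw [← sum_sel (d := d')]
    refine sum_congr rfl fun p _ => ?_
    calc (sel d' p)ᵀ * N' p * sel d (ι p) * ((sel d (ι p))ᵀ * N p * sel d' p) =
          (sel d' p)ᵀ * (N' p * (sel d (ι p) * (sel d (ι p))ᵀ) * N p) * sel d' p := by simp only [Matrix.mul_assoc]
      _ = _ := by
          rw [sel_selT, Matrix.mul_one, h0, Matrix.mul_one]

theorem stB : S_StA → S_StB := by
  intro hA A _ _ m B hB hm J _ _ ν q d P P' h1 h2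
  refine trbd _ _ _ _ _ _ _ (hA A m B hB hm) (fun j => (q j, d j)) P' P h1 ?_ ?_
  · rintro w ⟨X, hX, hw⟩
    refine ⟨fun j => Q207.HG.lkL (d j) (P j) (P' j) (X (q j)), ⟨X, hX, fun j => rfl⟩, fun j => ?_⟩
    rw [hw]
    show (if d j then -(X (q j))ᵀ else X (q j)) * P' j = P' j * (P j * (if d j then -(X (q j))ᵀ else X (q j)) * P' j)
    rw [← Matrix.mul_assoc, ← Matrix.mul_assoc, h2, Matrix.one_mul]
  · rintro w ⟨X, hX, hw⟩
    refine ⟨fun p => if p.2 then -(X p.1)ᵀ else X p.1, ⟨X, hX, fun p => rfl⟩, fun j => ?_⟩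
    rw [hw]
    show P j * (if d j then -(X (q j))ᵀ else X (q j)) * P' j * P j = P j * (if d j then -(X (q j))ᵀ else X (q j))
    rw [Matrix.mul_assoc, h2, Matrix.mul_one]

end Pool.Agent.Q195.HT
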