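import Pool.Agent.Q195.HT.MixA

/-!
# HT8: rational tensors on a sum
-/

set_option autoImplicit false

open Finset Matrix

namespace Pool.Agent.Q195.HT

open Q207.DB Q207.HT

section

variable {K J : Type} {r : ℕ}

/-- rational products -/
def prodQ {κ L : Type} [Fintype L] {s : L → ℕ} (e : (Σ l, Fin (s l)) ≃ κ) (v : ∀ l, (Fin (s l) → K) → ℚ) :
    (κ → K) → ℚ := fun w => ∏ l, v l fun a => w (e ⟨l, a⟩)

lemma cast_prodQ {κ L : Type} [Fintype L] {s : L → ℕ} (e : (Σ l, Fin (s l)) ≃ κ) (v : ∀ l, (Fin (s l) → K) → ℚ) :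
    (fun w => ((prodQ e v w : ℚ) : ℂ)) = prodT e fun l w => ((v l w : ℚ) : ℂ) := by
  funext w
  unfold prodQ prodT
  push_cast
  rfl

/-- the product of a tensor on the places of the first kind and of one on the others -/
noncomputable def join (σ : Fin r → Bool) (c : ({k : Fin r // ¬ σ k = true} → J) → ℚ) :
    (({k : Fin r // σ k = true} → K) → ℚ) →ₗ[ℚ] ((Fin r → K ⊕ J) → ℚ) where
  toFun g := Function.extend (fun ab : ({k : Fin r // σ k = true} → K) × ({k : Fin r // ¬ σ k = true} → J) =>
    glue σ ab.1 ab.2) (fun ab => g ab.1 * c ab.2) 0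
  map_add' g g' := by
    funext p
    by_cases h : ∃ ab, (fun ab : ({k : Fin r // σ k = true} → K) × ({k : Fin r // ¬ σ k = true} → J) =>
      glue σ ab.1 ab.2) ab = p
    · obtain ⟨ab, rfl⟩ := h
      rw [Pi.add_apply, glue_inj.extend_apply, glue_inj.extend_apply, glue_inj.extend_apply, Pi.add_apply, add_mul]
    · rw [Pi.add_apply, Function.extend_apply' _ _ _ h, Function.extend_apply' _ _ _ h, Function.extend_apply' _ _ _ h]
      simp
  map_smul' z g := by
    funext p
    by_cases h : ∃ ab, (fun ab : ({k : Fin r // σ k = true} → K) × ({k : Fin r // ¬ σ k = true} → J) =>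
      glue σ ab.1 ab.2) ab = p
    · obtain ⟨ab, rfl⟩ := h
      rw [Pi.smul_apply, glue_inj.extend_apply, glue_inj.extend_apply, Pi.smul_apply, smul_eq_mul, smul_eq_mul]
      simp [mul_assoc]
    · rw [Pi.smul_apply, Function.extend_apply' _ _ _ h, Function.extend_apply' _ _ _ h]
      simp

lemma join_glue (σ : Fin r → Bool) (c : ({k : Fin r // ¬ σ k = true} → J) → ℚ) (g : ({k : Fin r // σ k = true} → K) → ℚ)
    (a : {k : Fin r // σ k = true} → K) (b : {k : Fin r // ¬ σ k = true} → J) : join σ c g (glue σ a b) = g a * c b :=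
  glue_inj.extend_apply (fun ab => g ab.1 * c ab.2) 0 (a, b)

lemma join_not (σ : Fin r → Bool) (c : ({k : Fin r // ¬ σ k = true} → J) → ℚ) (g : ({k : Fin r // σ k = true} → K) → ℚ)
    {p : Fin r → K ⊕ J} (h : ∀ a b, p ≠ glue σ a b) : join σ c g p = 0 := by
  have h0 : ¬ ∃ ab, (fun ab : ({k : Fin r // σ k = true} → K) × ({k : Fin r // ¬ σ k = true} → J) =>
      glue σ ab.1 ab.2) ab = p := by
    rintro ⟨⟨a, b⟩, hab⟩
    exact h a b hab.symm
  show Function.extend (fun ab : ({k : Fin r // σ k = true} → K) × ({k : Fin r // ¬ σ k = true} → J) =>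
    glue σ ab.1 ab.2) (fun ab => g ab.1 * c ab.2) 0 p = 0
  rw [Function.extend_apply' _ _ _ h0]
  rfl

/-- words which are of type `σ` -/
lemma exists_glue (σ : Fin r → Bool) {p : Fin r → K ⊕ J} (h1 : ∀ k, σ k = true → (p k).isLeft = true)
    (h2 : ∀ k, ¬ σ k = true → (p k).isRight = true) : ∃ a b, p = glue σ a b := by
  refine ⟨fun k => (p k).getLeft (h1 k k.2), fun k => (p k).getRight (h2 k k.2), ?_⟩
  funext k
  unfold glue
  by_cases h : σ k = true
  · rw [dif_pos h, Sum.inl_getLeft]
  · rw [dif_neg h, Sum.inr_getRight]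

lemma join_prodQ (σ : Fin r → Bool) (c : ({k : Fin r // ¬ σ k = true} → J) → ℚ) {l : ℕ} {s : Fin l → ℕ}
    (e : (Σ j, Fin (s j)) ≃ {k : Fin r // σ k = true}) (v : ∀ j, (Fin (s j) → K) → ℚ) {s₀ : ℕ}
    (η : Fin s₀ ≃ {k : Fin r // ¬ σ k = true}) :
    join σ c (prodQ e v) = mix ((e.sumCongr η).trans (Equiv.sumCompl fun k => σ k = true)) v
      (fun w => c fun k => w (η.symm k)) := by
  funext p
  unfold mix
  have e1 : ∀ j a, ((e.sumCongr η).trans (Equiv.sumCompl fun k => σ k = true)) (Sum.inl ⟨j, a⟩) = (e ⟨j, a⟩ : Fin r) :=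
    fun j a => rfl
  have e2 : ∀ a, ((e.sumCongr η).trans (Equiv.sumCompl fun k => σ k = true)) (Sum.inr a) = (η a : Fin r) :=
    fun a => rfl
  simp only [e1, e2]
  by_cases h : ∃ a b, p = glue σ a b
  · obtain ⟨a, b, rfl⟩ := h
    rw [join_glue]
    congr 1
    · unfold prodQ
      refine prod_congr rfl fun j _ => ?_
      have h1 : ∀ i, ((fun i => glue σ a b (e ⟨j, i⟩)) i).isLeft = true := by
        intro i
        show (glue σ a b (e ⟨j, i⟩)).isLeft = true
        rw [glue_left]
        rfl
      rw [lft, dif_pos h1]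
      congr 1
      funext i
      have h2 : glue σ a b (e ⟨j, i⟩) = Sum.inl (a (e ⟨j, i⟩)) := glue_left _
      exact (Sum.getLeft_eq_iff _).2 h2 |>.symm
    · have h1 : ∀ i, ((fun i => glue σ a b (η i)) i).isRight = true := by
        intro i
        show (glue σ a b (η i)).isRight = true
        rw [glue_right]
        rfl
      rw [rgt, dif_pos h1]
      congr 1
      funext k
      have h2 : glue σ a b (η (η.symm k)) = Sum.inr (b (η (η.symm k))) := glue_right _
      have h3 := (Sum.getRight_eq_iff (h1 (η.symm k))).2 h2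
      rw [Equiv.apply_symm_apply] at h3
      exact h3.symm
  · rw [join_not σ c _ (fun a b hab => h ⟨a, b, hab⟩)]
    symm
    by_contra hne
    apply h
    apply exists_glue
    · intro k hk
      by_contra hcon
      apply hne
      obtain ⟨⟨j, i⟩, hji⟩ := e.surjective ⟨k, hk⟩
      rw [Finset.prod_eq_zero (mem_univ j), zero_mul]
      rw [lft, dif_neg]
      intro hall
      apply hcon
      have h1 := hall i
      rw [hji] at h1
      exact h1
    · intro k hk
      by_contra hcon
      apply hne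
      have h0 : rgt (fun w => c fun k => w (η.symm k)) (fun a => p (η a)) = 0 := by
        rw [rgt, dif_neg]
        intro hall
        apply hcon
        have h1 := hall (η.symm ⟨k, hk⟩)
        rw [Equiv.apply_symm_apply] at h1
        exact h1
      rw [h0, mul_zero]

end

/-- reindexing -/
lemma lieA_reindex {J κ κ' : Type} [Fintype J] [Fintype κ] [DecidableEq κ] [Fintype κ'] [DecidableEq κ'] (η : κ ≃ κ')
    (X : Matrix J J ℂ) (c : (κ' → J) → ℂ) (h : lieA X c = 0) :
    lieA X (fun w : κ → J => c fun k => w (η.symm k)) = 0 := by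
  funext w
  have h1 := congrFun h fun k => w (η.symm k)
  rw [lieA_apply] at h1 ⊢
  rw [Pi.zero_apply] at h1 ⊢
  rw [← h1]
  refine Fintype.sum_equiv η _ _ fun l => sum_congr rfl fun y _ => ?_
  rw [Equiv.symm_apply_apply]
  congr 2
  funext k
  by_cases hk : k = η l
  · rw [hk, Equiv.symm_apply_apply, Function.update_self, Function.update_self]
  · rw [Function.update_of_ne hk, Function.update_of_ne]
    intro h2
    exact hk (by rw [← h2, Equiv.apply_symm_apply])

lemma lieA_sum_mul {J κ ι : Type} [Fintype J] [Fintype κ] [DecidableEq κ] [Fintype ι] (X : Matrix J J ℂ)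
    (z : ι → ℂ) (c : ι → (κ → J) → ℂ) (b : κ → J) :
    lieA X (fun b => ∑ m, z m * c m b) b = ∑ m, z m * lieA X (c m) b := by
  have h1 : (fun b => ∑ m, z m * c m b) = ∑ m, z m • c m := by
    funext b
    rw [Finset.sum_apply]
    rfl
  rw [h1, map_sum, Finset.sum_apply]
  exact sum_congr rfl fun m _ => by rw [map_smul, Pi.smul_apply, smul_eq_mul]

theorem mixed : S_Mix := by
  classical
  intro K J _ _ _ _ H Δ hGen VQ hVQ Φ Φ' hΦ r u hH hΦΦ
  set target : Submodule ℚ ((Fin r → K ⊕ J) → ℚ) :=
    Submodule.span ℚ {x | ∃ (l : ℕ) (s : Fin l → ℕ) (s₀ : ℕ) (e : (Σ j, Fin (s j)) ⊕ Fin s₀ ≃ Fin r)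
      (v : ∀ j, (Fin (s j) → K) → ℚ) (c : (Fin s₀ → J) → ℚ), (∀ j, Δ (s j) ∧ v j ∈ VQ (s j)) ∧
      lieA Φ' (fun p => ((c p : ℚ) : ℂ)) = 0 ∧ x = mix e v c} with htarget
  -- one type
  have key : ∀ σ : Fin r → Bool, ∃ uσ : (Fin r → K ⊕ J) → ℚ, uσ ∈ target ∧ (∀ a b, uσ (glue σ a b) = u (glue σ a b)) ∧
      ∀ p, (∀ a b, p ≠ glue σ a b) → uσ p = 0 := by
    intro σ
    set P : Set (({k : Fin r // σ k = true} → K) → ℚ) := {g | ∃ (l : ℕ) (s : Fin l → ℕ)
      (e : (Σ j, Fin (s j)) ≃ {k : Fin r // σ k = true}) (v : ∀ j, (Fin (s j) → K) → ℚ),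
      (∀ j, Δ (s j) ∧ v j ∈ VQ (s j)) ∧ g = prodQ e v} with hP
    set G := Submodule.span ℚ P with hG
    -- the sections
    have hF : ∀ b, (fun a => u (glue σ a b)) ∈ G := by
      intro b
      apply descQ
      have h1 : InvL H (fun a : {k : Fin r // σ k = true} → K => ((u (glue σ a b) : ℚ) : ℂ)) := by
        intro X hX
        funext a
        have h2 := congrFun (hH X hX) (glue σ a b)
        rw [lieA_glue] at h2
        have h3 : lieA (0 : Matrix J J ℂ) (fun b' => ((u (glue σ a b') : ℚ) : ℂ)) b = 0 := by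
          rw [lieA_apply]
          refine sum_eq_zero fun l _ => sum_eq_zero fun y _ => ?_
          rw [Matrix.zero_apply, zero_mul]
        rw [h3, add_zero] at h2
        exact h2
      have h2 := hGen _ _ h1
      refine (?_ : gensL H Δ {k : Fin r // σ k = true} ≤ _) h2
      unfold gensL
      rw [Submodule.span_le]
      rintro x ⟨l, s, e, w, hw, rfl⟩
      have h3 := prod_span e (S := fun j => (fun (x : (Fin (s j) → K) → ℚ) p => ((x p : ℚ) : ℂ)) '' VQ (s j))
        (fun j => hVQ _ (hw j).1 _ (hw j).2)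
      refine (?_ : Submodule.span ℂ {y | ∃ u' : ∀ l, (Fin (s l) → K) → ℂ, (∀ l, u' l ∈
        (fun (x : (Fin (s l) → K) → ℚ) p => ((x p : ℚ) : ℂ)) '' VQ (s l)) ∧ y = prodT e u'} ≤ _) h3
      rw [Submodule.span_le]
      rintro y ⟨u', hu', rfl⟩
      choose v hv hvu using hu'
      refine Submodule.subset_span ⟨prodQ e v, ⟨l, s, e, v, fun j => ⟨(hw j).1, hv j⟩, rfl⟩, ?_⟩
      rw [← funext hvu]
      exact cast_prodQ e v
    -- Leibniz
    have hL : ∀ g ∈ G, lieA Φ (fun a : {k : Fin r // σ k = true} → K => ((g a : ℚ) : ℂ)) = 0 := by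
      intro g hg
      induction hg using Submodule.span_induction with
      | mem g hg =>
        obtain ⟨l, s, e, v, hv, rfl⟩ := hg
        rw [cast_prodQ]
        exact lieA_prodT e fun j => hΦ _ (hv j).1 _ (hv j).2
      | zero =>
        have h1 : (fun a : {k : Fin r // σ k = true} → K => (((0 : ({k : Fin r // σ k = true} → K) → ℚ) a : ℚ) : ℂ)) = 0 := by
          funext a
          simp
        rw [h1, map_zero]
      | add g g' _ _ ih ih' =>
        have h1 : (fun a : {k : Fin r // σ k = true} → K => (((g + g') a : ℚ) : ℂ)) =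
            (fun a => ((g a : ℚ) : ℂ)) + fun a => ((g' a : ℚ) : ℂ) := by
          funext a
          simp
        rw [h1, map_add, ih, ih', add_zero]
      | smul z g _ ih =>
        have h1 : (fun a : {k : Fin r // σ k = true} → K => (((z • g) a : ℚ) : ℂ)) =
            (z : ℂ) • (fun a => ((g a : ℚ) : ℂ)) := by
          funext a
          simp
        rw [h1, map_smul, ih, smul_zero]
    let B := Module.finBasis ℚ G
    set bb : Fin (Module.finrank ℚ G) → ({k : Fin r // σ k = true} → K) → ℚ := fun m => (B m : ({k : Fin r // σ k = true} → K) → ℚ) with hbb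
    have hbi : LinearIndependent ℚ bb := B.linearIndependent.map' G.subtype (Submodule.ker_subtype G)
    set cc : Fin (Module.finrank ℚ G) → ({k : Fin r // ¬ σ k = true} → J) → ℚ := fun m b =>
      B.repr ⟨fun a => u (glue σ a b), hF b⟩ m with hcc
    have hexp : ∀ a b, u (glue σ a b) = ∑ m, bb m a * cc m b := by
      intro a b
      have h1 := B.sum_repr ⟨fun a => u (glue σ a b), hF b⟩
      have h2 := congrArg (fun g : G => (g : ({k : Fin r // σ k = true} → K) → ℚ) a) h1
      simp only [Submodule.coe_sum, Submodule.coe_smul, Finset.sum_apply, Pi.smul_apply, smul_eq_mul] at h2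
      rw [← h2]
      exact sum_congr rfl fun m _ => mul_comm _ _
    have hcΦ : ∀ m, lieA Φ' (fun b => ((cc m b : ℚ) : ℂ)) = 0 := by
      intro m
      funext b
      refine indepQ hbi (z := fun m => lieA Φ' (fun b => ((cc m b : ℚ) : ℂ)) b) (fun a => ?_) m
      have h1 := congrFun hΦΦ (glue σ a b)
      rw [lieA_glue, hL _ (hF b)] at h1
      have h2 : (fun b' => ((u (glue σ a b') : ℚ) : ℂ)) =
          fun b' => ∑ m, ((bb m a : ℚ) : ℂ) * (fun b => ((cc m b : ℚ) : ℂ)) b' := by
        funext b'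
        rw [hexp]
        push_cast
        rfl
      rw [h2, lieA_sum_mul, Pi.zero_apply, zero_add] at h1
      rw [Pi.zero_apply] at h1
      rw [← h1]
      exact sum_congr rfl fun m _ => mul_comm _ _
    refine ⟨∑ m, join σ (cc m) (bb m), ?_, ?_, ?_⟩
    · refine Submodule.sum_mem _ fun m _ => ?_
      have h1 : G ≤ target.comap (join σ (cc m)) := by
        rw [hG, Submodule.span_le]
        rintro g ⟨l, s, e, v, hv, rfl⟩
        show join σ (cc m) (prodQ e v) ∈ target
        rw [join_prodQ σ (cc m) e v (Fintype.equivFin {k : Fin r // ¬ σ k = true}).symm]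
        refine Submodule.subset_span ⟨l, s, _, _, v, _, hv, ?_, rfl⟩
        exact lieA_reindex (Fintype.equivFin {k : Fin r // ¬ σ k = true}).symm Φ'
          (fun b => ((cc m b : ℚ) : ℂ)) (hcΦ m)
      exact h1 (B m).2
    · intro a b
      rw [Finset.sum_apply, hexp]
      exact sum_congr rfl fun m _ => join_glue σ _ _ a b
    · intro p hp
      rw [Finset.sum_apply]
      exact sum_eq_zero fun m _ => join_not σ _ _ hp
  choose uσ h1 h2 h3 using key
  have hsum : u = ∑ σ, uσ σ := by
    funext p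
    rw [Finset.sum_apply, Finset.sum_eq_single fun k => (p k).isLeft]
    · obtain ⟨a, b, hab⟩ := exists_glue (fun k => (p k).isLeft) (p := p) (fun k hk => hk) (fun k hk => by
        rcases hpk : p k with x | x
        · rw [hpk] at hk
          exact absurd rfl hk
        · rfl)
      have h4 := h2 (fun k => (p k).isLeft) a b
      rw [← hab] at h4
      exact h4.symm
    · intro σ _ hσ
      apply h3
      intro a b hab
      apply hσ
      funext k
      rw [hab]
      by_cases hk : σ k = true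
      · have h4 := glue_left (a := a) (b := b) ⟨k, hk⟩
        rw [show ((⟨k, hk⟩ : {k : Fin r // σ k = true}) : Fin r) = k from rfl] at h4
        rw [h4, hk]
        rfl
      · have h4 := glue_right (a := a) (b := b) ⟨k, hk⟩
        rw [show ((⟨k, hk⟩ : {k : Fin r // ¬ σ k = true}) : Fin r) = k from rfl] at h4
        rw [h4, Bool.eq_false_of_not_eq_true hk]
        rfl
    · intro h
      exact absurd (mem_univ _) h
  rw [hsum]
  exact Submodule.sum_mem _ fun σ _ => h1 σ

end Pool.Agent.Q195.HT
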