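import Pool.Agent.Q195.HT.LieTr
import Pool.Agent.Q207.DB.Des

/-!
# HT8: rational tensors on a sum, part A
-/

set_option autoImplicit false

open Finset Matrix

namespace Pool.Agent.Q195.HT

open Q207.DB Q207.HT

section glue

variable {K J : Type} {r : ℕ}

/-- the words of type `σ` -/
def glue (σ : Fin r → Bool) (a : {k : Fin r // σ k = true} → K) (b : {k : Fin r // ¬ σ k = true} → J) :
    Fin r → K ⊕ J := fun k => if h : σ k = true then Sum.inl (a ⟨k, h⟩) else Sum.inr (b ⟨k, h⟩)

variable {σ : Fin r → Bool} {a : {k : Fin r // σ k = true} → K} {b : {k : Fin r // ¬ σ k = true} → J}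

lemma glue_left (k : {k : Fin r // σ k = true}) : glue σ a b k = Sum.inl (a k) := dif_pos k.2

lemma glue_right (k : {k : Fin r // ¬ σ k = true}) : glue σ a b k = Sum.inr (b k) := dif_neg k.2

lemma glue_inj : Function.Injective fun ab : ({k : Fin r // σ k = true} → K) × ({k : Fin r // ¬ σ k = true} → J) =>
    glue σ ab.1 ab.2 := by
  rintro ⟨a, b⟩ ⟨a', b'⟩ h
  have h' : glue σ a b = glue σ a' b' := h
  have h1 : a = a' := by
    funext k
    have h2 := congrFun h' k
    rw [glue_left, glue_left] at h2
    exact Sum.inl.inj h2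
  have h2 : b = b' := by
    funext k
    have h2 := congrFun h' k
    rw [glue_right, glue_right] at h2
    exact Sum.inr.inj h2
  rw [h1, h2]

lemma glue_update_left (k : {k : Fin r // σ k = true}) (y : K) :
    Function.update (glue σ a b) k (Sum.inl y) = glue σ (Function.update a k y) b := by
  funext i
  by_cases h : i = k
  · rw [h, Function.update_self, glue_left, Function.update_self]
  · rw [Function.update_of_ne h]
    by_cases hi : σ i = true
    · have h1 := glue_left (a := a) (b := b) ⟨i, hi⟩
      have h2 := glue_left (a := Function.update a k y) (b := b) ⟨i, hi⟩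
      rw [show ((⟨i, hi⟩ : {k : Fin r // σ k = true}) : Fin r) = i from rfl] at h1 h2
      rw [h1, h2, Function.update_of_ne]
      intro h3
      exact h (congrArg Subtype.val h3)
    · have h1 := glue_right (a := a) (b := b) ⟨i, hi⟩
      have h2 := glue_right (a := Function.update a k y) (b := b) ⟨i, hi⟩
      rw [show ((⟨i, hi⟩ : {k : Fin r // ¬ σ k = true}) : Fin r) = i from rfl] at h1 h2
      rw [h1, h2]

lemma glue_update_right (k : {k : Fin r // ¬ σ k = true}) (y : J) :
    Function.update (glue σ a b) k (Sum.inr y) = glue σ a (Function.update b k y) := by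
  funext i
  by_cases h : i = k
  · rw [h, Function.update_self, glue_right, Function.update_self]
  · rw [Function.update_of_ne h]
    by_cases hi : σ i = true
    · have h1 := glue_left (a := a) (b := b) ⟨i, hi⟩
      have h2 := glue_left (a := a) (b := Function.update b k y) ⟨i, hi⟩
      rw [show ((⟨i, hi⟩ : {k : Fin r // σ k = true}) : Fin r) = i from rfl] at h1 h2
      rw [h1, h2]
    · have h1 := glue_right (a := a) (b := b) ⟨i, hi⟩
      have h2 := glue_right (a := a) (b := Function.update b k y) ⟨i, hi⟩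
      rw [show ((⟨i, hi⟩ : {k : Fin r // ¬ σ k = true}) : Fin r) = i from rfl] at h1 h2
      rw [h1, h2, Function.update_of_ne]
      intro h3
      exact h (congrArg Subtype.val h3)

variable [Fintype K] [Fintype J]

lemma lieA_glue (A : Matrix K K ℂ) (B : Matrix J J ℂ) (u : (Fin r → K ⊕ J) → ℂ) :
    lieA (fromBlocks A 0 0 B) u (glue σ a b) =
      lieA A (fun a' => u (glue σ a' b)) a + lieA B (fun b' => u (glue σ a b')) b := by
  rw [lieA_apply, lieA_apply, lieA_apply]
  rw [← Fintype.sum_equiv (Equiv.sumCompl fun k => σ k = true)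
    (fun l => ∑ y, (fromBlocks A 0 0 B) (glue σ a b (Equiv.sumCompl (fun k => σ k = true) l)) y *
      u (Function.update (glue σ a b) (Equiv.sumCompl (fun k => σ k = true) l) y)) _ (fun _ => rfl)]
  rw [Fintype.sum_sum_type]
  congr 1
  · refine sum_congr rfl fun l _ => ?_
    rw [Equiv.sumCompl_apply_inl, Fintype.sum_sum_type, glue_left]
    rw [Finset.sum_eq_zero (s := (univ : Finset J)) (fun y _ => by
      rw [fromBlocks_apply₁₂, Matrix.zero_apply, zero_mul]), add_zero]
    refine sum_congr rfl fun y _ => ?_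
    rw [fromBlocks_apply₁₁, glue_update_left]
  · refine sum_congr rfl fun l _ => ?_
    rw [Equiv.sumCompl_apply_inr, Fintype.sum_sum_type, glue_right]
    rw [Finset.sum_eq_zero (s := (univ : Finset K)) (fun y _ => by
      rw [fromBlocks_apply₂₁, Matrix.zero_apply, zero_mul]), zero_add]
    refine sum_congr rfl fun y _ => ?_
    rw [fromBlocks_apply₂₂, glue_update_right]

end glue

/-- Leibniz rule -/
lemma lieA_prodT {K κ L : Type} [Fintype K] [Fintype κ] [DecidableEq κ] [Fintype L] [DecidableEq L] {s : L → ℕ}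
    (e : (Σ l, Fin (s l)) ≃ κ) {X : Matrix K K ℂ} {u : ∀ l, (Fin (s l) → K) → ℂ} (h : ∀ l, lieA X (u l) = 0) :
    lieA X (prodT e u) = 0 := by
  funext w
  rw [lieA_apply, Pi.zero_apply,
    ← Fintype.sum_equiv e (fun p => ∑ y, X (w (e p)) y * prodT e u (Function.update w (e p) y)) _ (fun _ => rfl),
    Fintype.sum_sigma]
  refine sum_eq_zero fun l _ => ?_
  have h1 : ∀ (a : Fin (s l)) (y : K), prodT e u (Function.update w (e ⟨l, a⟩) y) =
      u l (Function.update (fun a => w (e ⟨l, a⟩)) a y) * ∏ l' ∈ univ.erase l, u l' fun a => w (e ⟨l', a⟩) := by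
    intro a y
    unfold prodT
    rw [← Finset.mul_prod_erase _ _ (mem_univ l)]
    congr 1
    · congr 1
      funext a'
      by_cases ha : a' = a
      · rw [ha, Function.update_self, Function.update_self]
      · rw [Function.update_of_ne ha, Function.update_of_ne]
        intro h2
        have h3 := e.injective h2
        exact ha (eq_of_heq (Sigma.mk.inj_iff.1 h3).2)
    · refine prod_congr rfl fun l' hl' => ?_
      congr 1
      funext a'
      rw [Function.update_of_ne]
      intro h2
      have h3 := e.injective h2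
      exact (Finset.mem_erase.1 hl').1 (Sigma.mk.inj_iff.1 h3).1
  simp only [h1]
  have h2 := congrFun (h l) fun a => w (e ⟨l, a⟩)
  rw [lieA_apply, Pi.zero_apply] at h2
  calc ∑ a, ∑ y, X (w (e ⟨l, a⟩)) y * (u l (Function.update (fun a => w (e ⟨l, a⟩)) a y) *
        ∏ l' ∈ univ.erase l, u l' fun a => w (e ⟨l', a⟩)) =
      (∑ a, ∑ y, X (w (e ⟨l, a⟩)) y * u l (Function.update (fun a => w (e ⟨l, a⟩)) a y)) *
        ∏ l' ∈ univ.erase l, u l' fun a => w (e ⟨l', a⟩) := by
        rw [Finset.sum_mul]
        refine sum_congr rfl fun a _ => ?_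
        rw [Finset.sum_mul]
        exact sum_congr rfl fun y _ => by ring
    _ = 0 := by rw [h2, zero_mul]

/-- descent -/
lemma descQ {W : Type} {P : Set (W → ℚ)} {x : W → ℚ}
    (h : (fun w => ((x w : ℚ) : ℂ)) ∈ Submodule.span ℂ ((fun (g : W → ℚ) w => ((g w : ℚ) : ℂ)) '' P)) :
    x ∈ Submodule.span ℚ P := by
  obtain ⟨φ, hφ⟩ := LinearMap.exists_leftInverse_of_injective (Algebra.linearMap ℚ ℂ)
    (LinearMap.ker_eq_bot.2 (algebraMap ℚ ℂ).injective)
  have hφ' : ∀ y : ℚ, φ (y : ℂ) = y := fun y => LinearMap.congr_fun hφ y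
  obtain ⟨n, f, g, hfg⟩ := Submodule.mem_span_set'.1 h
  choose g' hg' hgg' using fun i => (g i).2
  have h1 : x = ∑ i, φ (f i) • g' i := by
    funext w
    have h2 := congrFun hfg w
    have h3 := congrArg φ h2
    rw [hφ'] at h3
    rw [← h3, Finset.sum_apply, Finset.sum_apply, map_sum]
    refine sum_congr rfl fun i _ => ?_
    rw [Pi.smul_apply, Pi.smul_apply, smul_eq_mul, smul_eq_mul, ← hgg' i]
    have h4 : f i * ((g' i w : ℚ) : ℂ) = (g' i w) • f i := by
      rw [Algebra.smul_def, mul_comm]
      rfl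
    rw [h4, map_smul, smul_eq_mul, mul_comm]
  rw [h1]
  exact Submodule.sum_mem _ fun i _ => Submodule.smul_mem _ _ (Submodule.subset_span (hg' i))

/-- rational independent vectors are independent over the complex numbers -/
lemma indepQ {W ι : Type} [Fintype ι] {b : ι → W → ℚ} (hb : LinearIndependent ℚ b) {z : ι → ℂ}
    (h : ∀ w, ∑ i, z i * ((b i w : ℚ) : ℂ) = 0) (i : ι) : z i = 0 := by
  rw [← Module.forall_dual_apply_eq_zero_iff ℚ (z i)]
  intro φ
  have h1 : ∑ i, φ (z i) • b i = 0 := by
    funext w
    have h2 := congrArg φ (h w)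
    rw [map_zero, map_sum] at h2
    rw [Finset.sum_apply, Pi.zero_apply, ← h2]
    refine sum_congr rfl fun i _ => ?_
    rw [Pi.smul_apply, smul_eq_mul]
    have h4 : z i * ((b i w : ℚ) : ℂ) = (b i w) • z i := by
      rw [Algebra.smul_def, mul_comm]
      rfl
    rw [h4, map_smul, smul_eq_mul, mul_comm]
  exact Fintype.linearIndependent_iff.1 hb _ h1 i

end Pool.Agent.Q195.HT
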