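import Pool.Agent.Q207.HT.Stm

/-!
# HT5: rationality
-/

set_option autoImplicit false

open Finset Matrix

namespace Pool.Agent.Q195.HT

open Q207.DB Q207.HT

lemma lieA_sum_smul {K κ ι : Type} [Fintype K] [Fintype κ] [DecidableEq κ] [Fintype ι]
    (c : ι → ℂ) (M : ι → Matrix K K ℂ) (u : (κ → K) → ℂ) :
    lieA (∑ i, c i • M i) u = ∑ i, c i • lieA (M i) u := by
  funext p
  rw [lieA_apply, Finset.sum_apply]
  calc ∑ l, ∑ y, (∑ i, c i • M i) (p l) y * u (Function.update p l y) =
      ∑ l, ∑ y, ∑ i, c i * (M i (p l) y * u (Function.update p l y)) := by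
        refine sum_congr rfl fun l _ => sum_congr rfl fun y _ => ?_
        rw [Matrix.sum_apply, Finset.sum_mul]
        exact sum_congr rfl fun i _ => by rw [Matrix.smul_apply, smul_eq_mul]; ring
    _ = ∑ l, ∑ i, ∑ y, c i * (M i (p l) y * u (Function.update p l y)) :=
        sum_congr rfl fun l _ => Finset.sum_comm
    _ = ∑ i, ∑ l, ∑ y, c i * (M i (p l) y * u (Function.update p l y)) := Finset.sum_comm
    _ = _ := by
        refine sum_congr rfl fun i _ => ?_
        rw [Pi.smul_apply, lieA_apply, smul_eq_mul, Finset.mul_sum]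
        exact sum_congr rfl fun l _ => (Finset.mul_sum _ _ _).symm

lemma lieA_rat {K : Type} [Fintype K] {r : ℕ} (X : Matrix K K ℚ) (u : (Fin r → K) → ℚ) (p : Fin r → K) :
    lieA (X.map (algebraMap ℚ ℂ)) (fun p => ((u p : ℚ) : ℂ)) p =
      ((∑ l, ∑ y, X (p l) y * u (Function.update p l y) : ℚ) : ℂ) := by
  rw [lieA_apply]
  push_cast
  rfl

theorem rat : S_Rat := by
  classical
  intro K _ _ r u Φ hΦ
  set S : Submodule ℚ ℂ := Submodule.span ℚ (Set.range fun p : K × K => Φ p.1 p.2) with hS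
  have hfin : Module.Finite ℚ S := Module.Finite.iff_fg.2 (Submodule.fg_span (Set.finite_range _))
  let e := Module.finBasis ℚ S
  have hmem : ∀ a b, Φ a b ∈ S := fun a b => Submodule.subset_span ⟨(a, b), rfl⟩
  set X : Fin (Module.finrank ℚ S) → Matrix K K ℚ := fun i => Matrix.of fun a b => e.repr ⟨Φ a b, hmem a b⟩ i with hX
  have hsum : Φ = ∑ i, ((e i : S) : ℂ) • (X i).map (algebraMap ℚ ℂ) := by
    ext a b
    rw [Matrix.sum_apply]
    have h1 := e.sum_repr ⟨Φ a b, hmem a b⟩
    have h2 := congrArg (fun s : S => (s : ℂ)) h1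
    simp only [Submodule.coe_sum, Submodule.coe_smul] at h2
    rw [← h2]
    refine sum_congr rfl fun i _ => ?_
    rw [Matrix.smul_apply, Matrix.map_apply, hX]
    simp only [Matrix.of_apply, smul_eq_mul]
    rw [Algebra.smul_def, mul_comm]
  have hlin : LinearIndependent ℚ fun i => ((e i : S) : ℂ) :=
    e.linearIndependent.map' S.subtype (Submodule.ker_subtype S)
  have hzero : ∀ i, lieA ((X i).map (algebraMap ℚ ℂ)) (fun p => ((u p : ℚ) : ℂ)) = 0 := by
    intro i
    funext p
    rw [lieA_rat]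
    have h1 : ∑ i, (∑ l, ∑ y, X i (p l) y * u (Function.update p l y)) • ((e i : S) : ℂ) = 0 := by
      have h2 := congrFun hΦ p
      rw [hsum, lieA_sum_smul, Finset.sum_apply] at h2
      rw [Pi.zero_apply] at h2
      rw [← h2]
      refine sum_congr rfl fun i _ => ?_
      rw [Pi.smul_apply, lieA_rat, smul_eq_mul, Algebra.smul_def, mul_comm]
      rfl
    have h3 := Fintype.linearIndependent_iff.1 hlin _ h1 i
    rw [h3]
    simp
  rw [hsum]
  refine Submodule.sum_mem _ fun i _ => Submodule.smul_mem _ _ (Submodule.subset_span ⟨X i, hzero i, rfl⟩)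

end Pool.Agent.Q195.HT
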