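import Pool.Agent.Q195.HT.LieTr

/-!
# HT6: reality
-/

set_option autoImplicit false

open Finset Matrix

namespace Pool.Agent.Q195.HT

open Q207.DB Q207.HT
open Q207.HG (Grd Low rho S_Low)

/-- a basis adapted to a Hodge structure -/
theorem adaptedI {I : Type} [Fintype I] [DecidableEq I] {H : ℤ → Submodule ℂ (I → ℂ)} (hH : DirectSum.IsInternal H) :
    ∃ (C : Matrix I I ℂ) (lev : I → ℤ), IsUnit C.det ∧ ∀ a, C a ∈ H (lev a) := by
  classical
  set b := hH.collectedBasis fun p => Module.finBasis ℂ (H p) with hb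
  set b₀ := Pi.basisFun ℂ I with hb₀
  set e := b.indexEquiv b₀ with he
  set b' := b.reindex e with hb'
  refine ⟨Matrix.of fun a => b' a, fun a => (e.symm a).1, ?_, ?_⟩
  · rw [← Matrix.isUnit_iff_isUnit_det, ← Matrix.linearIndependent_rows_iff_isUnit]
    exact b'.linearIndependent
  · intro a
    have h1 : (Matrix.of fun a => b' a) a = b (e.symm a) := Module.Basis.reindex_apply b e a
    rw [h1]
    exact DirectSum.IsInternal.collectedBasis_mem hH _ _

lemma lieA_diagonal {I κ : Type} [Fintype I] [DecidableEq I] [Fintype κ] [DecidableEq κ] (c : I → ℂ)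
    (x : (κ → I) → ℂ) (p : κ → I) : lieA (Matrix.diagonal c) x p = (∑ l, c (p l)) * x p := by
  rw [lieA_apply, Finset.sum_mul]
  refine sum_congr rfl fun l _ => ?_
  rw [Finset.sum_eq_single (p l)]
  · rw [Matrix.diagonal_apply_eq, Function.update_eq_self]
  · intro y _ hy
    rw [Matrix.diagonal_apply_ne _ (Ne.symm hy), zero_mul]
  · intro h
    exact absurd (mem_univ _) h

lemma actM_ne_zero {X Y κ : Type} [Fintype Y] [Fintype κ] [DecidableEq κ] {g : κ → Matrix X Y ℂ}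
    {x : (κ → Y) → ℂ} {w : κ → X} (h : actM g x w ≠ 0) :
    ∃ v : κ → Y, (∀ k, g k (w k) (v k) ≠ 0) ∧ x v ≠ 0 := by
  rw [actM_apply] at h
  obtain ⟨v, _, hv⟩ := Finset.exists_ne_zero_of_sum_ne_zero h
  refine ⟨v, fun k => ?_, right_ne_zero_of_mul hv⟩
  have h1 := left_ne_zero_of_mul hv
  exact fun h2 => h1 (prod_eq_zero (mem_univ k) h2)

lemma real_of_low (hLow : S_Low) : S_Real := by
  classical
  intro I _ _ lev Z T Φ H hZ hH hconj hF hΦ hG r u hu hT
  obtain ⟨C, lev', hC, hCm⟩ := adaptedI hH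
  have hC1 : C * C⁻¹ = 1 := Matrix.mul_nonsing_inv _ hC
  have hC2 : C⁻¹ * C = 1 := Matrix.nonsing_inv_mul _ hC
  have hZ1 : Z * Z⁻¹ = 1 := Matrix.mul_nonsing_inv _ hZ
  have hZ2 : Z⁻¹ * Z = 1 := Matrix.nonsing_inv_mul _ hZ
  set D : Matrix I I ℂ := Matrix.diagonal fun a => (lev' a : ℂ) with hD
  have hCΦ : C * Φ = D * C := by
    funext a b
    have h1 := congrFun (hΦ _ _ (hCm a)) b
    rw [hD, Matrix.diagonal_mul]
    exact h1
  have hΦC : Φ * C⁻¹ = C⁻¹ * D := by
    calc Φ * C⁻¹ = C⁻¹ * (C * Φ) * C⁻¹ := by rw [← Matrix.mul_assoc, hC2, Matrix.one_mul]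
      _ = C⁻¹ * D * (C * C⁻¹) := by rw [hCΦ]; simp only [Matrix.mul_assoc]
      _ = _ := by rw [hC1, Matrix.mul_one]
  -- coordinates of elements of `H q`
  have hcoord : ∀ q, ∀ v ∈ H q, ∀ b, (v ᵥ* C⁻¹) b ≠ 0 → lev' b = q := by
    intro q v hv b hb
    have h1 : (v ᵥ* C⁻¹) ᵥ* D = (q : ℂ) • (v ᵥ* C⁻¹) := by
      rw [Matrix.vecMul_vecMul, ← hΦC, ← Matrix.vecMul_vecMul, hΦ q v hv, Matrix.smul_vecMul]
    have h2 := congrFun h1 b
    rw [hD, Matrix.vecMul_diagonal, Pi.smul_apply, smul_eq_mul, mul_comm] at h2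
    have h3 := mul_right_cancel₀ hb h2
    exact_mod_cast h3
  -- coordinates of elements of the filtration
  have hV : ∀ a b, (Z * C⁻¹) a b ≠ 0 → lev a ≤ lev' b := by
    intro a b hab
    by_contra hcon
    push Not at hcon
    apply hab
    have h1 : Z a ∈ (⨆ q : {q : ℤ // lev a ≤ q}, H q) := by
      rw [hF]
      exact Submodule.subset_span ⟨a, le_rfl, rfl⟩
    let S : Submodule ℂ (I → ℂ) := LinearMap.ker ((LinearMap.proj b).comp (Matrix.vecMulLinear C⁻¹))
    have h2 : (⨆ q : {q : ℤ // lev a ≤ q}, H q) ≤ S := by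
      apply iSup_le
      rintro ⟨q, hq⟩ v hv
      show (v ᵥ* C⁻¹) b = 0
      by_contra h3
      have h4 := hcoord q v hv b h3
      omega
    exact h2 h1
  have hq : ∀ a b, (C.map (starRingEnd ℂ) * C⁻¹) a b ≠ 0 → lev' b = -lev' a := by
    intro a b hab
    exact hcoord _ _ (hconj _ _ (hCm a)) b hab
  -- the coordinates of `u`
  set x : (Fin r → I) → ℂ := actM (fun _ => (Z⁻¹)ᵀ) u with hx
  have hTx : lieA (Z * T * Z⁻¹)ᵀ x = 0 := by
    rw [hx, lieA_actM (g := Tᵀ) (fun k => ?_), hT, map_zero]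
    rw [← Matrix.transpose_mul, ← Matrix.transpose_mul]
    congr 1
    rw [← Matrix.mul_assoc, ← Matrix.mul_assoc, hZ2, Matrix.one_mul]
  have hxl : ∀ p, ∑ l, lev (p l) < 0 → x p = 0 := by
    refine hLow I r lev (Z * T * Z⁻¹)ᵀ ?_ x hTx
    intro a b hab
    rw [Matrix.transpose_apply, hG b a hab]
    by_cases h : a = b
    · rw [if_pos h, if_pos h.symm, h]
    · rw [if_neg h, if_neg (Ne.symm h)]
  have hux : u = actM (fun _ => Zᵀ) x := by
    rw [hx, actM_comp]
    have : (fun _ : Fin r => Zᵀ * (Z⁻¹)ᵀ) = fun _ => (1 : Matrix I I ℂ) := by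
      funext _
      rw [← Matrix.transpose_mul, hZ2, Matrix.transpose_one]
    rw [this, actM_one]
  set x' : (Fin r → I) → ℂ := actM (fun _ => (C⁻¹)ᵀ) u with hx'
  have hux' : u = actM (fun _ => Cᵀ) x' := by
    rw [hx', actM_comp]
    have : (fun _ : Fin r => Cᵀ * (C⁻¹)ᵀ) = fun _ => (1 : Matrix I I ℂ) := by
      funext _
      rw [← Matrix.transpose_mul, hC2, Matrix.transpose_one]
    rw [this, actM_one]
  have hxx' : x' = actM (fun _ => (Z * C⁻¹)ᵀ) x := by
    rw [hx']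
    conv_lhs => rw [hux]
    rw [actM_comp]
    have h0 : (fun _ : Fin r => (C⁻¹)ᵀ * Zᵀ) = fun _ => (Z * C⁻¹)ᵀ :=
      funext fun _ => (Matrix.transpose_mul _ _).symm
    rw [h0]
  have hx'l : ∀ p, x' p ≠ 0 → 0 ≤ ∑ l, lev' (p l) := by
    intro p hp
    rw [hxx'] at hp
    obtain ⟨v, hv1, hv2⟩ := actM_ne_zero hp
    have h1 : 0 ≤ ∑ l, lev (v l) := by
      by_contra h
      push Not at h
      exact hv2 (hxl v h)
    refine h1.trans (Finset.sum_le_sum fun l _ => ?_)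
    exact hV _ _ (hv1 l)
  have hxc : x' = actM (fun _ => (C.map (starRingEnd ℂ) * C⁻¹)ᵀ) (fun p => (starRingEnd ℂ) (x' p)) := by
    have h1 : u = actM (fun _ => (C.map (starRingEnd ℂ))ᵀ) (fun p => (starRingEnd ℂ) (x' p)) := by
      funext w
      rw [← hu w]
      conv_lhs => rw [hux']
      rw [actM_apply, actM_apply, map_sum]
      refine sum_congr rfl fun v _ => ?_
      rw [map_mul, map_prod]
      rfl
    rw [hx']
    conv_lhs => rw [h1]
    rw [actM_comp, ← hx']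
    have h0 : (fun _ : Fin r => (C⁻¹)ᵀ * (C.map (starRingEnd ℂ))ᵀ) =
        fun _ => (C.map (starRingEnd ℂ) * C⁻¹)ᵀ :=
      funext fun _ => (Matrix.transpose_mul _ _).symm
    rw [h0]
  have hx'r : ∀ p, x' p ≠ 0 → ∑ l, lev' (p l) ≤ 0 := by
    intro p hp
    rw [hxc] at hp
    obtain ⟨v, hv1, hv2⟩ := actM_ne_zero hp
    have h1 : x' v ≠ 0 := fun h => hv2 (by
      show (starRingEnd ℂ) (x' v) = 0
      rw [h, map_zero])
    have h2 := hx'l v h1
    have h3 : ∑ l, lev' (p l) = -∑ l, lev' (v l) := by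
      rw [← Finset.sum_neg_distrib]
      exact Finset.sum_congr rfl fun l _ => hq _ _ (hv1 l)
    rw [h3]
    linarith
  have hDx : lieA D x' = 0 := by
    funext p
    rw [hD, lieA_diagonal, Pi.zero_apply]
    by_cases hp : x' p = 0
    · rw [hp, mul_zero]
    · have h1 := le_antisymm (hx'r p hp) (hx'l p hp)
      have h2 : ∑ l, (lev' (p l) : ℂ) = 0 := by
        rw [← Int.cast_sum, h1, Int.cast_zero]
      rw [h2, zero_mul]
  rw [hux', lieA_actM (g := D) (fun k => ?_), hDx, map_zero]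
  rw [← Matrix.transpose_mul, hCΦ, Matrix.transpose_mul, hD, Matrix.diagonal_transpose]

theorem real : S_Real := real_of_low Q198.HG.low

end Pool.Agent.Q195.HT
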