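import Pool.Agent.Q195.HT.Base

/-!
# Project HT: the step in the summation index (task SJ)
-/

set_option autoImplicit false

namespace Pool.Agent.Q195.HT

open Finset Filter Topology MeasureTheory
open Pool.Agent.W719.BS (D LL)
open Pool.Agent.Q99.HT
open Pool.Agent.Q99.KN (sn bc Wk zl ez Fk QZ kz th jN)

theorem bc_diff1 (N k : ℕ) : Differentiable ℂ (fun z : ℂ => bc N ((N - 1 + z) / 2) k) := by
  unfold bc sn
  apply Differentiable.div_const
  apply Differentiable.fun_finsetProd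
  intro j _
  fun_prop

theorem bc_diff2 (N k : ℕ) : Differentiable ℂ (fun z : ℂ => bc N ((N - 1 - z) / 2) k) := by
  unfold bc sn
  apply Differentiable.div_const
  apply Differentiable.fun_finsetProd
  intro j _
  fun_prop

theorem Tm_diff (N A b C j : ℕ) : Differentiable ℂ (fun z : ℂ => Tm N z A b C j) := by
  unfold Tm
  exact (((bc_diff2 N A).mul (bc_diff1 N C)).mul ((bc_diff1 N j).mul (bc_diff2 N (b - j)))).mul
    ((bc_diff1 N (A + j)).mul (bc_diff2 N (C + (b - j))))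

theorem Wk_sum (N : ℕ) (z : ℂ) (A b C : ℕ) : Wk N z A b C = ∑ j ∈ range (b + 1), Tm N z A b C j := rfl

theorem Wk_diff (N A b C : ℕ) : Differentiable ℂ (fun z : ℂ => Wk N z A b C) := by
  have h : (fun z : ℂ => Wk N z A b C) = fun z => ∑ j ∈ range (b + 1), Tm N z A b C j :=
    funext fun z => Wk_sum N z A b C
  rw [h]
  apply Differentiable.fun_sum
  intro j _
  exact Tm_diff N A b C j

section

variable {α : Fin 6 → ℝ} {r κ K C0 : ℝ} {N : ℕ} {η : ℝ}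

theorem VB_ne (h : α 1 ≠ 0) (ξ : Fin 3 → ℂ) (ζ : ℂ) : VB r N α η ξ ζ =
    N * ∫ x in (lo N (ja r N (α 1)))..(hi N (jb r N (α 1))), PB N α (v4 ξ (x + η * Complex.I)) ζ := by
  unfold VB
  rw [if_neg h]
  rfl

theorem VB_eq (h : α 1 = 0) (ξ : Fin 3 → ℂ) (ζ : ℂ) : VB r N α η ξ ζ = PB N α (v4 ξ 0) ζ := by
  unfold VB
  rw [if_pos h]
  rfl

theorem VB_LD (hB : Blk α r κ K C0) (hN : 16 / r ≤ N) (hN1 : 1 ≤ N) (hη : |η| ≤ r / 4) :
    LD (fun q : (Fin 3 → ℂ) × ℂ => VB r N α η q.1 q.2)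
      (Metric.ball (qC α) (r / 2) ×ˢ Metric.ball 0 r) := by
  have hU : IsOpen (Metric.ball (qC α) (r / 2) ×ˢ Metric.ball (0 : ℂ) r) :=
    Metric.isOpen_ball.prod Metric.isOpen_ball
  have hr := hB.r0
  by_cases h : α 1 = 0
  · have e : (fun q : (Fin 3 → ℂ) × ℂ => VB r N α η q.1 q.2) = fun q => PB N α (v4 q.1 0) q.2 :=
      funext fun q => VB_eq h q.1 q.2
    rw [e]
    apply LD_of_diff hU
    refine (hB.diff N hN1).comp (f := fun q : (Fin 3 → ℂ) × ℂ => (v4 q.1 0, q.2)) ?_ ?_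
    · apply Differentiable.differentiableOn
      refine Differentiable.prodMk ?_ (by fun_prop)
      exact v4_diff.comp (f := fun q : (Fin 3 → ℂ) × ℂ => (q.1, (0 : ℂ))) (by fun_prop)
    · intro q hq
      exact ⟨v4_mem hr (ball_half hr hq.1) (by rw [h]; simpa using hr), hq.2⟩
  · have e : (fun q : (Fin 3 → ℂ) × ℂ => VB r N α η q.1 q.2) = fun q => (N : ℂ) *
        ∫ x in (lo N (ja r N (α 1)))..(hi N (jb r N (α 1))), PB N α (v4 q.1 (x + η * Complex.I)) q.2 :=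
      funext fun q => VB_ne h q.1 q.2
    rw [e]
    apply LD_const_mul
    obtain ⟨g1, g2, g3, g4⟩ := geo hr hN (α 1)
    refine LD_int hU (fun (q : (Fin 3 → ℂ) × ℂ) (x : ℝ) => PB N α (v4 q.1 (x + η * Complex.I)) q.2)
      (by linarith) ?_ ?_
    · refine (hB.diff N hN1).continuousOn.comp
        (f := fun p : ((Fin 3 → ℂ) × ℂ) × ℝ => (v4 p.1.1 ((p.2 : ℂ) + η * Complex.I), p.1.2)) ?_ ?_
      · apply Continuous.continuousOn
        refine Continuous.prodMk ?_ (by fun_prop)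
        exact v4_diff.continuous.comp
          (f := fun p : ((Fin 3 → ℂ) × ℂ) × ℝ => (p.1.1, (p.2 : ℂ) + η * Complex.I)) (by fun_prop)
      · intro p hp
        exact ⟨v4_mem hr (ball_half hr hp.1.1) (seg_mem hr hN hp.2 hη), hp.1.2⟩
    · intro x hx q hq u
      have hm : ((v4 q.1 (x + η * Complex.I), q.2) : (Fin 4 → ℂ) × ℂ) ∈
          Metric.ball (vC α) r ×ˢ Metric.ball 0 r :=
        ⟨v4_mem hr (ball_half hr hq.1) (seg_mem hr hN hx hη), hq.2⟩
      have h1 : DifferentiableAt ℂ (fun p : (Fin 4 → ℂ) × ℂ => PB N α p.1 p.2)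
          (v4 q.1 (x + η * Complex.I), q.2) :=
        (hB.diff N hN1).differentiableAt ((Metric.isOpen_ball.prod Metric.isOpen_ball).mem_nhds hm)
      have h2 : DifferentiableAt ℂ
          (fun t : ℂ => ((v4 (q.1 + t • u.1) (x + η * Complex.I), q.2 + t • u.2) : (Fin 4 → ℂ) × ℂ)) 0 := by
        apply DifferentiableAt.prodMk
        · exact (v4_diff.comp (f := fun t : ℂ => (q.1 + t • u.1, (x : ℂ) + η * Complex.I))
            (by fun_prop)).differentiableAt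
        · fun_prop
      have h3 : DifferentiableAt ℂ (fun p : (Fin 4 → ℂ) × ℂ => PB N α p.1 p.2)
          ((fun t : ℂ => ((v4 (q.1 + t • u.1) (x + η * Complex.I), q.2 + t • u.2) : (Fin 4 → ℂ) × ℂ)) 0) := by
        simpa using h1
      have h4 := DifferentiableAt.comp (g := fun p : (Fin 4 → ℂ) × ℂ => PB N α p.1 p.2) 0 h3 h2
      refine h4.congr_of_eventuallyEq (Eventually.of_forall fun t => ?_)
      show PB N α (v4 (q + t • u).1 (x + η * Complex.I)) (q + t • u).2 =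
        PB N α (v4 (q.1 + t • u.1) (x + η * Complex.I)) (q.2 + t • u.2)
      rw [Prod.fst_add, Prod.snd_add, Prod.smul_fst, Prod.smul_snd]

theorem VB_bd (hF : Fr α) (hB : Blk α r κ K C0) (hN : 16 / r ≤ N) (hN1 : 1 ≤ N) (hη : |η| ≤ r / 4)
    {ξ : Fin 3 → ℂ} (hξ : ξ ∈ Metric.ball (qC α) (r / 2)) (hA : Ad3 α ξ) {ζ : ℂ} (hζ : ‖ζ‖ < r) :
    ‖VB r N α η ξ ζ‖ ≤ C0 * N * Real.exp (N * (v0 α + K * η ^ 2 + mR α (re3 ξ) -
      κ * (sR α (re3 ξ) + ζ.re ^ 2) + K * (∑ i, (ξ i).im ^ 2 + ζ.im ^ 2))) := by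
  have hr := hB.r0
  have hr1 := hB.r1
  have hκ := hB.κ0
  have hK : 0 < K := lt_of_lt_of_le hκ hB.κK
  have hC0 := hB.C1
  have hN1' : (1 : ℝ) ≤ N := by exact_mod_cast hN1
  have hN0 : (0 : ℝ) < N := by linarith
  have hKη : 0 ≤ K * η ^ 2 := by positivity
  by_cases h : α 1 = 0
  · rw [VB_eq h]
    refine (PB_bd hF hB hN1 (ball_half hr hξ) hA (fun _ => rfl) (by rw [h]; simpa using hr) hζ).trans ?_
    have h1 : C0 ≤ C0 * N := by
      nlinarith
    refine mul_le_mul h1 ?_ (Real.exp_pos _).le (by positivity)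
    apply Real.exp_le_exp.2
    apply mul_le_mul_of_nonneg_left _ hN0.le
    rw [Complex.zero_re, Complex.zero_im, h]
    simp only [sub_zero, ne_eq, OfNat.ofNat_ne_zero, not_false_eq_true, zero_pow, add_zero]
    linarith
  · rw [VB_ne h, norm_mul, Complex.norm_natCast]
    obtain ⟨g1, g2, g3, g4⟩ := geo hr hN (α 1)
    obtain ⟨E, hE⟩ : ∃ E : ℝ, E = Real.exp (N * (v0 α + K * η ^ 2 + mR α (re3 ξ) -
      κ * (sR α (re3 ξ) + ζ.re ^ 2) + K * (∑ i, (ξ i).im ^ 2 + ζ.im ^ 2))) := ⟨_, rfl⟩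
    have hE0 : 0 < E := by rw [hE]; exact Real.exp_pos _
    have h1 : ‖∫ x in (lo N (ja r N (α 1)))..(hi N (jb r N (α 1))), PB N α (v4 ξ (x + η * Complex.I)) ζ‖ ≤
        C0 * E * |hi N (jb r N (α 1)) - lo N (ja r N (α 1))| := by
      apply intervalIntegral.norm_integral_le_of_norm_le_const
      intro x hx
      rw [Set.uIoc_of_le (by linarith)] at hx
      refine (PB_bd hF hB hN1 (ball_half hr hξ) hA (fun h0 => absurd h0 h)
        (seg_mem hr hN (Set.Ioc_subset_Icc_self hx) hη) hζ).trans ?_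
      apply mul_le_mul_of_nonneg_left _ (by positivity)
      rw [hE]
      apply Real.exp_le_exp.2
      apply mul_le_mul_of_nonneg_left _ hN0.le
      have e1 : ((x : ℂ) + η * Complex.I).re = x := by simp
      have e2 : ((x : ℂ) + η * Complex.I).im = η := by simp
      rw [e1, e2]
      have h2 : 0 ≤ κ * (x - α 1) ^ 2 := by positivity
      have h3 : κ * (sR α (re3 ξ) + (x - α 1) ^ 2 + ζ.re ^ 2) =
        κ * (sR α (re3 ξ) + ζ.re ^ 2) + κ * (x - α 1) ^ 2 := by ring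
      have h4 : K * (∑ i, (ξ i).im ^ 2 + η ^ 2 + ζ.im ^ 2) =
        K * (∑ i, (ξ i).im ^ 2 + ζ.im ^ 2) + K * η ^ 2 := by ring
      rw [h3, h4]
      linarith
    have h2 : |hi N (jb r N (α 1)) - lo N (ja r N (α 1))| ≤ 1 := by
      rw [abs_le]
      constructor <;> linarith
    rw [← hE]
    have h3 : C0 * E * |hi N (jb r N (α 1)) - lo N (ja r N (α 1))| ≤ C0 * E * 1 :=
      mul_le_mul_of_nonneg_left h2 (by positivity)
    calc (N : ℝ) * _ ≤ N * (C0 * E * 1) := mul_le_mul_of_nonneg_left (h1.trans h3) hN0.le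
      _ = C0 * N * E := by ring

/-- the bound at real corners -/
theorem PB_real (hF : Fr α) (hB : Blk α r κ K C0) (hN1 : 1 ≤ N) {x : Fin 3 → ℝ}
    (hx : (fun i => (x i : ℂ)) ∈ Metric.ball (qC α) (r / 2)) (hA : Ad3 α (fun i => (x i : ℂ)))
    (h1 : α 1 ≠ 0) {s ζ : ℂ} (hs : ‖s - α 1‖ < r) (hζ : ‖ζ‖ < r) :
    ‖PB N α (v4 (fun i => (x i : ℂ)) s) ζ‖ ≤ C0 * Real.exp (N * (v0 α + mR α x) +
      N * (K * s.im ^ 2 - κ * (s.re - α 1) ^ 2) + N * (K * ζ.im ^ 2)) := by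
  have hr := hB.r0
  have hκ := hB.κ0
  have hC0 := hB.C1
  refine (PB_bd hF hB hN1 (ball_half hr hx) hA (fun h0 => absurd h0 h1) hs hζ).trans ?_
  apply mul_le_mul_of_nonneg_left _ (by positivity)
  apply Real.exp_le_exp.2
  have e1 : re3 (fun i => (x i : ℂ)) = x := by
    funext i
    exact Complex.ofReal_re _
  have e2 : ∑ i : Fin 3, (((x i : ℝ) : ℂ)).im ^ 2 = 0 := by
    simp
  rw [e1, e2]
  have h2 : 0 ≤ sR α x := by
    unfold sR
    positivity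
  have h3 : 0 ≤ κ * (sR α x + ζ.re ^ 2) := by positivity
  have h4 := mul_nonneg (Nat.cast_nonneg (α := ℝ) N) h3
  linarith

/-- the sum minus the integral -/
theorem D_bd (hF : Fr α) (hB : Blk α r κ K C0) (hG : S_GPX) (h1 : α 1 ≠ 0) {τ c1 : ℝ} (hτ : 0 < τ)
    (hτ1 : τ ≤ r / 8) (hτ2 : K * τ ≤ Real.pi) (hτ3 : K * τ ^ 2 ≤ κ * r ^ 2 / 256)
    (hc1 : c1 ≤ Real.pi * τ) (hc2 : c1 ≤ κ * r ^ 2 / 64) : ∃ C : ℝ, 0 ≤ C ∧ ∀ N : ℕ, 16 / r ≤ N →
    1 ≤ τ * N → 1 ≤ N → ∀ x : Fin 3 → ℝ, (fun i => (x i : ℂ)) ∈ Metric.ball (qC α) (r / 2) →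
    Ad3 α (fun i => (x i : ℂ)) → ∀ η : ℝ, |η| ≤ τ → ∀ ζ : ℂ, ‖ζ‖ < r → |ζ.im| ≤ 1 / N →
    ‖∑ y ∈ Icc (ja r N (α 1)) (jb r N (α 1)), PB N α (v4 (fun i => (x i : ℂ)) ((y : ℂ) / N)) ζ -
      VB r N α η (fun i => (x i : ℂ)) ζ‖ ≤ C * N * Real.exp (N * (v0 α + mR α x) - c1 * N) := by
  have hr := hB.r0
  have hr1 := hB.r1
  have hκ := hB.κ0
  have hK : 0 < K := lt_of_lt_of_le hκ hB.κK
  have hC0 := hB.C1
  have hpi := Real.pi_pos
  obtain ⟨CG, hCG0, hCG⟩ := hG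
  refine ⟨CG * 4 * (C0 * Real.exp K), by positivity, fun N hN hτN hN1 x hx hA η hη ζ hζ hζi => ?_⟩
  obtain ⟨hN0, hN16, -⟩ := half_le hr hN
  obtain ⟨g1, g2, g3, g4⟩ := geo hr hN (α 1)
  obtain ⟨X, hX⟩ : ∃ X : Fin 3 → ℂ, X = fun i => (x i : ℂ) := ⟨_, rfl⟩
  obtain ⟨e0, he0⟩ : ∃ e0 : ℝ, e0 = N * (v0 α + mR α x) := ⟨_, rfl⟩
  have hKi : (N : ℝ) * (K * ζ.im ^ 2) ≤ K := by
    have h1 : ζ.im ^ 2 ≤ (1 / N) ^ 2 := by
      rw [← sq_abs ζ.im]
      exact pow_le_pow_left₀ (abs_nonneg _) hζi 2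
    have h2 : (N : ℝ) * (1 / N) ^ 2 ≤ 1 := by
      have h3 : (N : ℝ) * (1 / N) ^ 2 = 1 / N := by field_simp
      rw [h3, div_le_one hN0]
      exact_mod_cast hN1
    calc (N : ℝ) * (K * ζ.im ^ 2) ≤ (N : ℝ) * (K * (1 / N) ^ 2) := by
          apply mul_le_mul_of_nonneg_left _ hN0.le
          exact mul_le_mul_of_nonneg_left h1 hK.le
      _ = K * (N * (1 / N) ^ 2) := by ring
      _ ≤ K * 1 := mul_le_mul_of_nonneg_left h2 hK.le
      _ = K := mul_one K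
  have hPB : ∀ s : ℂ, ‖s - α 1‖ < r → ‖PB N α (v4 X s) ζ‖ ≤
      C0 * Real.exp (e0 + N * (K * s.im ^ 2 - κ * (s.re - α 1) ^ 2) + K) := by
    intro s hs
    rw [hX]
    refine (PB_real hF hB hN1 hx hA h1 hs hζ).trans ?_
    apply mul_le_mul_of_nonneg_left _ (by positivity)
    apply Real.exp_le_exp.2
    rw [he0]
    linarith
  have hre : ∀ y t : ℝ, ((y : ℂ) + t * Complex.I).re = y := by intro y t; simp
  have him : ∀ y t : ℝ, ((y : ℂ) + t * Complex.I).im = t := by intro y t; simp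
  have hA1 : ∀ y ∈ Set.Icc (lo N (ja r N (α 1))) (hi N (jb r N (α 1))), ∀ t : ℝ, |t| = τ →
      ‖PB N α (v4 X (y + t * Complex.I)) ζ‖ ≤ C0 * Real.exp (e0 + N * (K * τ ^ 2) + K) := by
    intro y hy t ht
    refine (hPB _ (seg_mem hr hN hy (by rw [ht]; linarith))).trans ?_
    apply mul_le_mul_of_nonneg_left _ (by positivity)
    apply Real.exp_le_exp.2
    rw [hre, him]
    have h2 : t ^ 2 = τ ^ 2 := by rw [← sq_abs, ht]
    have h3 : 0 ≤ κ * (y - α 1) ^ 2 := by positivity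
    rw [h2]
    have h4 : (N : ℝ) * (K * τ ^ 2 - κ * (y - α 1) ^ 2) ≤ N * (K * τ ^ 2) :=
      mul_le_mul_of_nonneg_left (by linarith) hN0.le
    linarith
  have hB1 : ∀ y : ℝ, (y = lo N (ja r N (α 1)) ∨ y = hi N (jb r N (α 1))) → ∀ t ∈ Set.Icc (-τ) τ,
      ‖PB N α (v4 X (y + t * Complex.I)) ζ‖ ≤ C0 * Real.exp (e0 - c1 * N + K) := by
    intro y hy t ht
    have hym : y ∈ Set.Icc (lo N (ja r N (α 1))) (hi N (jb r N (α 1))) := by
      rcases hy with hy | hy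
      · rw [hy]; exact ⟨le_refl _, by linarith⟩
      · rw [hy]; exact ⟨by linarith, le_refl _⟩
    have hys : (7 * r / 32) ^ 2 ≤ (y - α 1) ^ 2 := by
      rcases hy with hy | hy
      · rw [hy]; nlinarith
      · rw [hy]; nlinarith
    have htt : |t| ≤ τ := abs_le.2 ht
    refine (hPB _ (seg_mem hr hN hym (by linarith))).trans ?_
    apply mul_le_mul_of_nonneg_left _ (by positivity)
    apply Real.exp_le_exp.2
    rw [hre, him]
    have h2 : t ^ 2 ≤ τ ^ 2 := by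
      rw [← sq_abs t]
      exact pow_le_pow_left₀ (abs_nonneg _) htt 2
    have h3 : K * t ^ 2 - κ * (y - α 1) ^ 2 ≤ -c1 := by
      have h4 : K * t ^ 2 ≤ K * τ ^ 2 := mul_le_mul_of_nonneg_left h2 hK.le
      have h5 : κ * (7 * r / 32) ^ 2 ≤ κ * (y - α 1) ^ 2 := mul_le_mul_of_nonneg_left hys hκ.le
      have h6 : 0 ≤ κ * r ^ 2 := by positivity
      have h7 : κ * (7 * r / 32) ^ 2 = 49 / 1024 * (κ * r ^ 2) := by ring
      linarith
    have h4 : (N : ℝ) * (K * t ^ 2 - κ * (y - α 1) ^ 2) ≤ N * -c1 := mul_le_mul_of_nonneg_left h3 hN0.le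
    linarith
  have hfd : DifferentiableOn ℂ (fun s : ℂ => PB N α (v4 X s) ζ) (Metric.ball (α 1 : ℂ) r) := by
    refine (hB.diff N hN1).comp (f := fun s : ℂ => (v4 X s, ζ)) ?_ ?_
    · apply Differentiable.differentiableOn
      refine Differentiable.prodMk ?_ (by fun_prop)
      exact v4_diff.comp (f := fun s : ℂ => (X, s)) (by fun_prop)
    · intro s hs
      rw [Metric.mem_ball, dist_eq_norm] at hs
      refine ⟨v4_mem hr (ball_half hr ?_) hs, by simpa using hζ⟩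
      rw [hX]
      exact hx
  have h := hCG N hN1 (ja r N (α 1)) (jb r N (α 1)) (ja_le_jb hr hN (α 1))
    (fun s : ℂ => PB N α (v4 X s) ζ) (Metric.ball (α 1 : ℂ) r) τ η
    (C0 * Real.exp (e0 + N * (K * τ ^ 2) + K)) (C0 * Real.exp (e0 - c1 * N + K))
    Metric.isOpen_ball hfd hτN (by linarith) hη ?_ (fun y hy => ⟨?_, ?_⟩) (fun t ht => ⟨?_, ?_⟩)
  · rw [← hX, VB_ne h1]
    refine h.trans ?_
    have e1 : Real.exp (-(2 * Real.pi * τ * N)) * (C0 * Real.exp (e0 + N * (K * τ ^ 2) + K)) ≤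
        C0 * Real.exp (e0 - c1 * N + K) := by
      rw [mul_left_comm, ← Real.exp_add]
      apply mul_le_mul_of_nonneg_left _ (by positivity)
      apply Real.exp_le_exp.2
      have h2 : K * τ ^ 2 - 2 * Real.pi * τ ≤ -c1 := by
        have : K * τ ^ 2 ≤ Real.pi * τ := by
          calc K * τ ^ 2 = K * τ * τ := by ring
            _ ≤ Real.pi * τ := mul_le_mul_of_nonneg_right hτ2 hτ.le
        linarith
      have h3 := mul_le_mul_of_nonneg_left h2 hN0.le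
      have e2 : (N : ℝ) * (K * τ ^ 2 - 2 * Real.pi * τ) = N * (K * τ ^ 2) - 2 * Real.pi * τ * N := by ring
      rw [e2] at h3
      linarith
    have e2 : C0 * Real.exp (e0 - c1 * N + K) = C0 * Real.exp K * Real.exp (e0 - c1 * N) := by
      rw [mul_assoc, ← Real.exp_add]
      congr 2
      ring
    have e3 := card_le hr (by linarith) hN (α 1)
    obtain ⟨Q, hQ⟩ : ∃ Q : ℝ, Q = C0 * Real.exp (e0 - c1 * N + K) := ⟨_, rfl⟩
    have hQ0 : 0 < Q := by rw [hQ]; positivity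
    rw [← hQ] at e1 ⊢
    have h4 : (N : ℝ) + (((jb r N (α 1) : ℤ) : ℝ) - (ja r N (α 1) : ℤ) + 1) ≤ 2 * N := by linarith
    calc _ ≤ CG * (2 * N) * (Q + Q) := by
          apply mul_le_mul
          · exact mul_le_mul_of_nonneg_left h4 hCG0
          · linarith
          · positivity
          · positivity
      _ = CG * 4 * N * Q := by ring
      _ = _ := by rw [hQ, e2, he0]; ring
  · intro y hy t ht
    rw [Metric.mem_ball, dist_eq_norm]
    exact seg_mem hr hN hy ((abs_le.2 ht).trans (by linarith))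
  · exact hA1 y hy τ (abs_of_pos hτ)
  · have h2 := hA1 y hy (-τ) (by rw [abs_neg]; exact abs_of_pos hτ)
    have e : (y : ℂ) + ((-τ : ℝ) : ℂ) * Complex.I = y - τ * Complex.I := by push_cast; ring
    rw [e] at h2
    exact h2
  · exact hB1 _ (Or.inl rfl) t ht
  · exact hB1 _ (Or.inr rfl) t ht

/-- the corners -/
noncomputable def x3 (N A b C : ℕ) : Fin 3 → ℝ := ![(A : ℝ) / N, (b : ℝ) / N, (C : ℝ) / N]

theorem x3_c (N A b C : ℕ) : (fun i => ((x3 N A b C i : ℝ) : ℂ)) = ![(A : ℂ) / N, (b : ℂ) / N, (C : ℂ) / N] := by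
  funext i
  fin_cases i
  · show (((A : ℝ) / N : ℝ) : ℂ) = (A : ℂ) / N
    push_cast
    rfl
  · show (((b : ℝ) / N : ℝ) : ℂ) = (b : ℂ) / N
    push_cast
    rfl
  · show (((C : ℝ) / N : ℝ) : ℂ) = (C : ℂ) / N
    push_cast
    rfl

theorem eX_eq (hN1 : 1 ≤ N) (A b C : ℕ) : (N : ℝ) * (v0 α + mR α (x3 N A b C)) = eX N α A b C := by
  have hN0 : (N : ℝ) ≠ 0 := by positivity
  unfold mR eX
  rw [Fin.sum_univ_three]
  have e0 : x3 N A b C 0 = (A : ℝ) / N := rfl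
  have e1 : x3 N A b C 1 = (b : ℝ) / N := rfl
  have e2 : x3 N A b C 2 = (C : ℝ) / N := rfl
  have q0 : qc α 0 = α 0 := rfl
  have q1 : qc α 1 = α 1 + α 4 := rfl
  have q2 : qc α 2 = α 3 := rfl
  rw [e0, e1, e2, q0, q1, q2]
  field_simp
  ring

theorem x3_mem (hr : 0 < r) {A b C : ℕ} (hA : |(A : ℝ) / N - α 0| ≤ r / 4)
    (hb : |(b : ℝ) / N - (α 1 + α 4)| ≤ r / 4) (hC : |(C : ℝ) / N - α 3| ≤ r / 4) :
    (fun i => ((x3 N A b C i : ℝ) : ℂ)) ∈ Metric.ball (qC α) (r / 2) := by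
  rw [Metric.mem_ball, dist_pi_lt_iff (by positivity)]
  have key : ∀ i, |x3 N A b C i - qc α i| ≤ r / 4 := by
    intro i
    fin_cases i
    · exact hA
    · exact hb
    · exact hC
  intro i
  have h := key i
  have e : dist (((x3 N A b C i : ℝ) : ℂ)) (qC α i) = |x3 N A b C i - qc α i| := by
    unfold qC
    rw [dist_eq_norm, ← Complex.ofReal_sub, Complex.norm_real, Real.norm_eq_abs]
  rw [e]
  linarith

theorem x3_ad (hF : Fr α) {A b C : ℕ} (h : Cmp α A b C) : Ad3 α (fun i => ((x3 N A b C i : ℝ) : ℂ)) := by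
  have key : ∀ i, qc α i = 0 → x3 N A b C i = 0 := by
    intro i
    fin_cases i
    · intro h0
      show (A : ℝ) / N = 0
      rw [h.1 h0]
      simp
    · intro h0
      have h0' : α 1 + α 4 = 0 := h0
      have h1 : α 1 = 0 := by
        have := hF.nn 1
        have := hF.nn 4
        linarith
      show (b : ℝ) / N = 0
      rw [h.2.1 h1]
      simp
    · intro h0
      show (C : ℝ) / N = 0
      rw [h.2.2 h0]
      simp
  intro i hi
  show ((x3 N A b C i : ℝ) : ℂ) = 0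
  rw [key i hi]
  simp

theorem zl_real (N k : ℕ) : zl N k = ((2 * (k : ℝ) + 1 - N : ℝ) : ℂ) := by
  unfold zl
  push_cast
  ring

theorem disc_mem (h0 : 0 < r) (hN : 16 / r ≤ N) {k : ℕ} (hk : |(2 * (k : ℝ) + 1 - N) / N| ≤ r / 2)
    {z : ℂ} (hz : ‖z - zl N k‖ ≤ 1) : ‖z / N‖ < r ∧ |(z / N).im| ≤ 1 / N := by
  obtain ⟨hN0, hN1, hN2⟩ := half_le h0 hN
  have h2 : ‖zl N k‖ ≤ r / 2 * N := by
    rw [zl_real, Complex.norm_real, Real.norm_eq_abs]
    rw [abs_div, abs_of_pos hN0, div_le_iff₀ hN0] at hk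
    exact hk
  constructor
  · rw [norm_div, Complex.norm_natCast, div_lt_iff₀ hN0]
    have h3 : ‖z‖ ≤ ‖z - zl N k‖ + ‖zl N k‖ := by
      have := norm_add_le (z - zl N k) (zl N k)
      rwa [sub_add_cancel] at this
    nlinarith
  · have h3 := (Complex.abs_im_le_norm (z - zl N k)).trans hz
    rw [Complex.sub_im, zl_real, Complex.ofReal_im, sub_zero] at h3
    rw [Complex.div_natCast_im, abs_div, abs_of_nonneg hN0.le]
    exact div_le_div_of_nonneg_right h3 hN0.le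

/-- `V` as a function of `ζ` -/
theorem V_diff (hB : Blk α r κ K C0) (hN : 16 / r ≤ N) (hN1 : 1 ≤ N) (hη : |η| ≤ r / 4)
    {ξ : Fin 3 → ℂ} (hξ : ξ ∈ Metric.ball (qC α) (r / 2)) {ζ : ℂ} (hζ : ‖ζ‖ < r) :
    DifferentiableAt ℂ (fun ζ => VB r N α η ξ ζ) ζ := by
  have h := (VB_LD hB hN hN1 hη).2 (ξ, ζ) ⟨hξ, by simpa using hζ⟩ (0, 1)
  have h1 : DifferentiableAt ℂ (fun t : ℂ => VB r N α η ξ (ζ + t)) 0 := by
    refine h.congr_of_eventuallyEq (Eventually.of_forall fun t => ?_)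
    simp
  have h2 : DifferentiableAt ℂ (fun t : ℂ => VB r N α η ξ (ζ + t)) ((fun s : ℂ => s - ζ) ζ) := by
    simpa using h1
  have h3 := DifferentiableAt.comp (g := fun t : ℂ => VB r N α η ξ (ζ + t)) (f := fun s : ℂ => s - ζ) ζ h2
    (by fun_prop)
  refine h3.congr_of_eventuallyEq (Eventually.of_forall fun t => ?_)
  show VB r N α η ξ t = VB r N α η ξ (ζ + (t - ζ))
  congr 1
  ring

/-- sums of terms at a lattice point -/
theorem lat_sum {A b C : ℕ} {k : ℕ} {E : ℝ} {S : Finset ℕ}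
    (hd : ∀ j ∈ S, ‖Tm N (zl N k) A b C j‖ + ‖deriv (fun z => Tm N z A b C j) (zl N k)‖ ≤ E) :
    ‖∑ j ∈ S, Tm N (zl N k) A b C j‖ + ‖deriv (fun z => ∑ j ∈ S, Tm N z A b C j) (zl N k)‖ ≤ S.card * E := by
  have hE : ∑ j ∈ S, (‖Tm N (zl N k) A b C j‖ + ‖deriv (fun z => Tm N z A b C j) (zl N k)‖) ≤ S.card * E := by
    have := Finset.sum_le_card_nsmul S _ E hd
    rwa [nsmul_eq_mul] at this
  have hder : deriv (fun z => ∑ j ∈ S, Tm N z A b C j) (zl N k) =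
      ∑ j ∈ S, deriv (fun z => Tm N z A b C j) (zl N k) := by
    have h1 : HasDerivAt (fun z => ∑ j ∈ S, Tm N z A b C j)
        (∑ j ∈ S, deriv (fun z => Tm N z A b C j) (zl N k)) (zl N k) := by
      apply HasDerivAt.fun_sum
      intro j _
      exact (Tm_diff N A b C j (zl N k)).hasDerivAt
    exact h1.deriv
  rw [hder]
  have h1 := norm_sum_le S fun j => Tm N (zl N k) A b C j
  have h2 := norm_sum_le S fun j => deriv (fun z => Tm N z A b C j) (zl N k)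
  rw [Finset.sum_add_distrib] at hE
  linarith

/-- the size of `α 2`, `α 5` -/
theorem al2 (hB : Blk α r κ K C0) : 32 * r ≤ α 2 ∧ 32 * r ≤ α 5 := by
  have hr1 := hB.r1
  constructor
  · by_cases h : ctr α 2 = 0
    · have h' : 1 / 2 - α 2 = 0 := h
      linarith
    · have h2 := (hB.sml 2 h).2
      have e : ctr α 2 = 1 / 2 - α 2 := rfl
      rw [e] at h2
      linarith
  · by_cases h : ctr α 5 = 0
    · have h' : 1 / 2 - α 5 = 0 := h
      linarith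
    · have h2 := (hB.sml 5 h).2
      have e : ctr α 5 = 1 / 2 - α 5 := rfl
      rw [e] at h2
      linarith

theorem sum_lt (hF : Fr α) (hB : Blk α r κ K C0) (hN1 : 1 ≤ N) {A b C : ℕ}
    (hA : |(A : ℝ) / N - α 0| ≤ r / 4)
    (hb : |(b : ℝ) / N - (α 1 + α 4)| ≤ r / 4) (hC : |(C : ℝ) / N - α 3| ≤ r / 4) : A + b + C < N := by
  have hr := hB.r0
  have hN0 : (0 : ℝ) < N := by exact_mod_cast hN1
  obtain ⟨a2, a5⟩ := al2 hB
  have s1 := hF.s1
  have s2 := hF.s2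
  have hA' := (abs_le.1 hA).2
  have hb' := (abs_le.1 hb).2
  have hC' := (abs_le.1 hC).2
  have h1 : ((A : ℝ) + b + C) / N < 1 := by
    have e : ((A : ℝ) + b + C) / N = (A : ℝ) / N + b / N + C / N := by ring
    rw [e]
    linarith
  rw [div_lt_one hN0] at h1
  exact_mod_cast h1

end

/-- no summation index -/
theorem case0 {α : Fin 6 → ℝ} {r κ K C0 : ℝ} {N : ℕ} (η : ℝ) (hB : Blk α r κ K C0) (hN : 16 / r ≤ N)
    (hN1 : 1 ≤ N) (h : α 1 = 0) {A b C k : ℕ} (hc : Cmp α A b C) (hA : |(A : ℝ) / N - α 0| ≤ r / 4)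
    (hb : |(b : ℝ) / N - (α 1 + α 4)| ≤ r / 4) (hC : |(C : ℝ) / N - α 3| ≤ r / 4)
    (hk : |(2 * (k : ℝ) + 1 - N) / N| ≤ r / 2) :
    Wk N (zl N k) A b C = VB r N α η ![(A : ℂ) / N, (b : ℂ) / N, (C : ℂ) / N] (zl N k / N) ∧
    deriv (fun z => Wk N z A b C) (zl N k) =
      deriv (fun z : ℂ => VB r N α η ![(A : ℂ) / N, (b : ℂ) / N, (C : ℂ) / N] (z / N)) (zl N k) := by
  have hr := hB.r0
  have hNc : (N : ℂ) ≠ 0 := by
    have : N ≠ 0 := by omega
    exact_mod_cast this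
  have hb0 : b = 0 := hc.2.1 h
  have key : ∀ z : ℂ, ‖z - zl N k‖ ≤ 1 → Wk N z A b C =
      VB r N α η ![(A : ℂ) / N, (b : ℂ) / N, (C : ℂ) / N] (z / N) := by
    intro z hz
    obtain ⟨m1, m2⟩ := disc_mem hr hN hk hz
    have h1 := hB.int N A b C 0 hN1 (Nat.zero_le _) hc (by linarith) (by linarith) (by linarith)
      (by rw [h]; simpa using hr) (z / N) m1
    rw [mul_div_cancel₀ _ hNc] at h1
    rw [Wk_sum, VB_eq h, hb0]
    rw [hb0] at h1
    rw [zero_add, Finset.sum_range_one, h1]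
    congr 1
    unfold v4
    simp
  refine ⟨key _ (by simp), ?_⟩
  apply Filter.EventuallyEq.deriv_eq
  filter_upwards [Metric.closedBall_mem_nhds (zl N k) one_pos] with z hz
  rw [Metric.mem_closedBall, dist_eq_norm] at hz
  exact key z hz

theorem Ak {r : ℝ} {N : ℕ} (hr : 0 < r) (hr1 : r ≤ 1 / 64) (hN : 16 / r ≤ N)
    {x : ℝ} (hx : x ≤ 1 / 4) {A k : ℕ} (hA : |(A : ℝ) / N - x| ≤ r / 4)
    (hk : |(2 * (k : ℝ) + 1 - N) / N| ≤ r / 2) : A ≤ k ∧ A + k < N := by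
  obtain ⟨hN0, hN1, hN2⟩ := half_le hr hN
  have hA' := (abs_le.1 hA).2
  rw [abs_div, abs_of_pos hN0, div_le_iff₀ hN0, abs_le] at hk
  have h1 : (A : ℝ) ≤ (1 / 4 + r / 4) * N := by
    rw [← div_le_iff₀ hN0]
    linarith
  have h2 : r * N ≤ N / 64 := by
    have := mul_le_mul_of_nonneg_right hr1 hN0.le
    linarith
  have h3 : 1024 ≤ (N : ℝ) := by linarith
  constructor
  · have : (A : ℝ) ≤ k := by linarith [hk.1]
    exact_mod_cast this
  · have : (A : ℝ) + k < N := by linarith [hk.2]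
    exact_mod_cast this

/-- the main case -/
theorem case1 {α : Fin 6 → ℝ} {r κ K C0 : ℝ} {N : ℕ} {η : ℝ} (hF : Fr α) (hAc : Acu α)
    (hB : Blk α r κ K C0) (hL : Lat α κ C0) (hN : 16 / r ≤ N) (hN1 : 1 ≤ N) (hη : |η| ≤ r / 4)
    (h : α 1 ≠ 0) {c1 : ℝ} (hc1 : c1 ≤ κ * r ^ 2 / 64) {A b C k : ℕ} (hc : Cmp α A b C)
    (hA : |(A : ℝ) / N - α 0| ≤ r / 4) (hb : |(b : ℝ) / N - (α 1 + α 4)| ≤ r / 4)
    (hC : |(C : ℝ) / N - α 3| ≤ r / 4) (hkN : k < N) (hk : |(2 * (k : ℝ) + 1 - N) / N| ≤ r / 2)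
    {Bd : ℝ} (hBd : ∀ ζ : ℂ, ‖ζ‖ < r → |ζ.im| ≤ 1 / N →
      ‖∑ y ∈ Icc (ja r N (α 1)) (jb r N (α 1)), PB N α (v4 (fun i => (x3 N A b C i : ℂ)) ((y : ℂ) / N)) ζ -
        VB r N α η (fun i => (x3 N A b C i : ℂ)) ζ‖ ≤ Bd) :
    ‖Wk N (zl N k) A b C - VB r N α η ![(A : ℂ) / N, (b : ℂ) / N, (C : ℂ) / N] (zl N k / N)‖ +
    ‖deriv (fun z => Wk N z A b C) (zl N k) -
      deriv (fun z : ℂ => VB r N α η ![(A : ℂ) / N, (b : ℂ) / N, (C : ℂ) / N] (z / N)) (zl N k)‖ ≤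
      N * (C0 * N ^ 2 * Real.exp (eX N α A b C - c1 * N)) + 2 * Bd := by
  classical
  have hr := hB.r0
  have hr1 := hB.r1
  have hκ := hB.κ0
  have hC0 := hB.C1
  obtain ⟨hN0, hN16, -⟩ := half_le hr hN
  have hNc : (N : ℂ) ≠ 0 := by exact_mod_cast hN0.ne'
  obtain ⟨X, hX⟩ : ∃ X : Fin 3 → ℂ, X = ![(A : ℂ) / N, (b : ℂ) / N, (C : ℂ) / N] := ⟨_, rfl⟩
  rw [x3_c, ← hX] at hBd
  rw [← hX]
  have hXm : X ∈ Metric.ball (qC α) (r / 2) := by
    rw [hX, ← x3_c]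
    exact x3_mem hr hA hb hC
  obtain ⟨V, hV⟩ : ∃ V : ℂ → ℂ, V = fun ζ => VB r N α η X ζ := ⟨_, rfl⟩
  have hVz : ∀ ζ, VB r N α η X ζ = V ζ := by
    intro ζ
    rw [hV]
  simp only [hVz] at hBd ⊢
  have hVc : ∀ z : ℂ, ‖z - zl N k‖ ≤ 1 → DifferentiableAt ℂ (fun z : ℂ => V (z / N)) z := by
    intro z hz
    obtain ⟨m1, m2⟩ := disc_mem hr hN hk hz
    have h1 : DifferentiableAt ℂ V (z / N) := by
      rw [hV]
      exact V_diff hB hN hN1 hη hXm m1
    exact DifferentiableAt.comp z h1 (differentiableAt_id.div_const _)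
  have hα4 : α 4 ≠ 0 := fun h4 => h (hF.z14.2 h4)
  have ha0 : 0 ≤ ja r N (α 1) := by
    apply Int.ceil_nonneg
    have h1 := (hB.sml 1 h).1
    have e : ctr α 1 = α 1 := rfl
    rw [e] at h1
    exact mul_nonneg hN0.le (by linarith)
  have hbb : jb r N (α 1) ≤ (b : ℤ) := by
    have h1 : (jb r N (α 1) : ℝ) ≤ (N : ℝ) * (α 1 + r / 4) := Int.floor_le _
    have h2 := (hB.sml 4 hα4).1
    have e : ctr α 4 = α 4 := rfl
    rw [e] at h2
    have h3 := (abs_le.1 hb).1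
    have h4 : (N : ℝ) * (α 1 + r / 4) ≤ b := by
      rw [mul_comm, ← le_div_iff₀ hN0]
      linarith
    exact_mod_cast h1.trans h4
  obtain ⟨S, hS⟩ : ∃ S : Finset ℕ, S = (range (b + 1)).filter fun j : ℕ => (j : ℤ) ∈ Icc (ja r N (α 1)) (jb r N (α 1)) := ⟨_, rfl⟩
  obtain ⟨S', hS'⟩ : ∃ S' : Finset ℕ, S' = (range (b + 1)).filter fun j : ℕ => ¬ (j : ℤ) ∈ Icc (ja r N (α 1)) (jb r N (α 1)) := ⟨_, rfl⟩
  have hsplit0 : ∀ z, Wk N z A b C = ∑ j ∈ S, Tm N z A b C j + ∑ j ∈ S', Tm N z A b C j := by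
    intro z
    rw [Wk_sum, hS, hS', Finset.sum_filter_add_sum_filter_not]
  have hcore : ∀ z : ℂ, ‖z - zl N k‖ ≤ 1 → ∑ j ∈ S, Tm N z A b C j =
      ∑ y ∈ Icc (ja r N (α 1)) (jb r N (α 1)), PB N α (v4 X ((y : ℂ) / N)) (z / N) := by
    intro z hz
    obtain ⟨m1, m2⟩ := disc_mem hr hN hk hz
    refine Finset.sum_nbij' (fun j : ℕ => (j : ℤ)) Int.toNat ?_ ?_ ?_ ?_ ?_
    · intro j hj
      rw [hS, Finset.mem_filter] at hj
      exact hj.2
    · intro y hy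
      rw [hS, Finset.mem_filter, Finset.mem_range]
      rw [Finset.mem_Icc] at hy
      have h1 : ((y.toNat : ℕ) : ℤ) = y := Int.toNat_of_nonneg (by omega)
      refine ⟨by omega, ?_⟩
      rw [h1, Finset.mem_Icc]
      exact hy
    · intro j hj
      exact Int.toNat_natCast j
    · intro y hy
      rw [Finset.mem_Icc] at hy
      exact Int.toNat_of_nonneg (by omega)
    · intro j hj
      rw [hS, Finset.mem_filter] at hj
      have h1 := core_mem hr hN hj.2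
      have hjb : j ≤ b := by
        have := Finset.mem_range.1 hj.1
        omega
      have h2 := hB.int N A b C j hN1 hjb hc (by linarith) (by linarith) (by linarith)
        (by push_cast at h1; linarith) (z / N) m1
      rw [mul_div_cancel₀ _ hNc] at h2
      rw [h2, hX]
      congr 1
  obtain ⟨g, hg⟩ : ∃ g : ℂ → ℂ, g = fun z => ∑ j ∈ S, Tm N z A b C j - V (z / N) := ⟨_, rfl⟩
  have hgb : ∀ z : ℂ, ‖z - zl N k‖ ≤ 1 → ‖g z‖ ≤ Bd := by
    intro z hz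
    obtain ⟨m1, m2⟩ := disc_mem hr hN hk hz
    have e2 : g z = ∑ j ∈ S, Tm N z A b C j - V (z / N) := by rw [hg]
    rw [e2, hcore z hz]
    exact hBd (z / N) m1 m2
  have hsd : Differentiable ℂ fun z => ∑ j ∈ S, Tm N z A b C j := by
    apply Differentiable.fun_sum
    intro j _
    exact Tm_diff N A b C j
  have hgd : ∀ z : ℂ, ‖z - zl N k‖ ≤ 1 → DifferentiableAt ℂ g z := by
    intro z hz
    rw [hg]
    exact (hsd z).sub (hVc z hz)
  have hgder : ‖deriv g (zl N k)‖ ≤ Bd := by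
    have h1 : DiffContOnCl ℂ g (Metric.ball (zl N k) 1) := by
      apply DifferentiableOn.diffContOnCl
      rw [closure_ball _ one_ne_zero]
      intro z hz
      rw [Metric.mem_closedBall, dist_eq_norm] at hz
      exact (hgd z hz).differentiableWithinAt
    have h2 := Complex.norm_deriv_le_of_forall_mem_sphere_norm_le (C := Bd) one_pos h1 (fun z hz => by
      rw [Metric.mem_sphere, dist_eq_norm] at hz
      exact hgb z hz.le)
    rwa [div_one] at h2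
  have hg0 : ‖g (zl N k)‖ ≤ Bd := hgb _ (by simp)
  have hsplit : ∀ z, Wk N z A b C = ∑ j ∈ S', Tm N z A b C j + g z + V (z / N) := by
    intro z
    rw [hsplit0, hg]
    ring
  have hRd : DifferentiableAt ℂ (fun z => ∑ j ∈ S', Tm N z A b C j) (zl N k) := by
    apply DifferentiableAt.fun_sum
    intro j _
    exact Tm_diff N A b C j _
  have hder : deriv (fun z => Wk N z A b C) (zl N k) = deriv (fun z => ∑ j ∈ S', Tm N z A b C j) (zl N k) +
      deriv g (zl N k) + deriv (fun z : ℂ => V (z / N)) (zl N k) := by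
    have h1 : (fun z => Wk N z A b C) = fun z => (∑ j ∈ S', Tm N z A b C j + g z) + V (z / N) :=
      funext hsplit
    have h2 := (hRd.hasDerivAt.add (hgd _ (by simp)).hasDerivAt).add (hVc (zl N k) (by simp)).hasDerivAt
    rw [h1]
    exact h2.deriv
  rw [hder, hsplit, add_sub_cancel_right, add_sub_cancel_right]
  have t1 := norm_add_le (∑ j ∈ S', Tm N (zl N k) A b C j) (g (zl N k))
  have t2 := norm_add_le (deriv (fun z => ∑ j ∈ S', Tm N z A b C j) (zl N k)) (deriv g (zl N k))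
  have hsum := sum_lt hF hB hN1 hA hb hC
  obtain ⟨k1, k2⟩ := Ak hr hr1 hN hAc.q0 hA hk
  obtain ⟨k3, k4⟩ := Ak hr hr1 hN hAc.q3 hC hk
  have hR := lat_sum (N := N) (A := A) (b := b) (C := C) (k := k) (S := S')
    (E := C0 * N ^ 2 * Real.exp (eX N α A b C - c1 * N)) ?_
  · have hcard : (S'.card : ℝ) ≤ N := by
      have h1 : S'.card ≤ b + 1 := by
        rw [hS']
        refine (Finset.card_filter_le _ _).trans ?_
        rw [Finset.card_range]
      have h2 : S'.card ≤ N := by omega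
      exact_mod_cast h2
    have h3 : (S'.card : ℝ) * (C0 * N ^ 2 * Real.exp (eX N α A b C - c1 * N)) ≤
        N * (C0 * N ^ 2 * Real.exp (eX N α A b C - c1 * N)) :=
      mul_le_mul_of_nonneg_right hcard (by positivity)
    linarith
  · intro j hj
    rw [hS', Finset.mem_filter, Finset.mem_range] at hj
    have h1 := hL.tw N A b C j k hsum hc (by omega) hkN k1 k2 k3 k4
    refine h1.trans ?_
    apply mul_le_mul_of_nonneg_left _ (by positivity)
    apply Real.exp_le_exp.2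
    have h2 := core_not hr hN hj.2
    push_cast at h2
    have h3 : 0 ≤ dX N α A b C k := by
      unfold dX
      positivity
    have h4 : c1 * N ≤ κ * (dX N α A b C k + ((j : ℝ) - N * α 1) ^ 2) / N := by
      rw [le_div_iff₀ hN0]
      have h5 : κ * (r / 4 * N) ^ 2 ≤ κ * (dX N α A b C k + ((j : ℝ) - N * α 1) ^ 2) :=
        mul_le_mul_of_nonneg_left (by linarith) hκ.le
      have h6 : c1 * N * N ≤ κ * r ^ 2 / 64 * N * N :=
        mul_le_mul_of_nonneg_right (mul_le_mul_of_nonneg_right hc1 hN0.le) hN0.le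
      have h7 : κ * (r / 4 * N) ^ 2 = 4 * (κ * r ^ 2 / 64 * N * N) := by ring
      have h8 : 0 ≤ κ * r ^ 2 / 64 * N * N := by positivity
      linarith
    linarith

theorem task_SJ : S_SJ := by
  intro hG α r κ K C0 hF hAc hB hL
  have hr := hB.r0
  have hr1 := hB.r1
  have hκ := hB.κ0
  have hK : 0 < K := lt_of_lt_of_le hκ hB.κK
  have hC0 := hB.C1
  have hpi := Real.pi_pos
  obtain ⟨τ, hτ, hτ1, hτ2, hτ3⟩ : ∃ τ : ℝ, 0 < τ ∧ τ ≤ r / 8 ∧ K * τ ≤ Real.pi ∧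
      K * τ ^ 2 ≤ κ * r ^ 2 / 256 := by
    obtain ⟨m, hm⟩ : ∃ m, m = min (κ * r / (16 * K)) (Real.pi / K) := ⟨_, rfl⟩
    have hm0 : 0 < m := by rw [hm]; positivity
    have h1 : m ≤ κ * r / (16 * K) := hm ▸ min_le_left _ _
    have h2 : m ≤ Real.pi / K := hm ▸ min_le_right _ _
    refine ⟨m, hm0, ?_, ?_, ?_⟩
    · refine h1.trans ?_
      rw [div_le_iff₀ (by positivity)]
      have := mul_le_mul_of_nonneg_right hB.κK hr.le
      nlinarith
    · rw [le_div_iff₀ hK] at h2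
      linarith
    · have h3 : m ^ 2 ≤ (κ * r / (16 * K)) ^ 2 := pow_le_pow_left₀ hm0.le h1 2
      have h4 : K * (κ * r / (16 * K)) ^ 2 = κ * r ^ 2 / 256 * (κ / K) := by field_simp; norm_num
      have h5 : κ / K ≤ 1 := (div_le_one hK).2 hB.κK
      have h6 : K * m ^ 2 ≤ K * (κ * r / (16 * K)) ^ 2 := mul_le_mul_of_nonneg_left h3 hK.le
      have h7 : κ * r ^ 2 / 256 * (κ / K) ≤ κ * r ^ 2 / 256 * 1 := mul_le_mul_of_nonneg_left h5 (by positivity)
      linarith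
  obtain ⟨c1, hc1⟩ : ∃ c1, c1 = min (Real.pi * τ) (κ * r ^ 2 / 64) := ⟨_, rfl⟩
  have hc1a : c1 ≤ Real.pi * τ := hc1 ▸ min_le_left _ _
  have hc1b : c1 ≤ κ * r ^ 2 / 64 := hc1 ▸ min_le_right _ _
  have hc10 : 0 < c1 := by rw [hc1]; positivity
  obtain ⟨CD, hCD0, hCD⟩ : ∃ C : ℝ, 0 ≤ C ∧ (α 1 ≠ 0 → ∀ N : ℕ, 16 / r ≤ N →
    1 ≤ τ * N → 1 ≤ N → ∀ x : Fin 3 → ℝ, (fun i => (x i : ℂ)) ∈ Metric.ball (qC α) (r / 2) →
    Ad3 α (fun i => (x i : ℂ)) → ∀ η : ℝ, |η| ≤ τ → ∀ ζ : ℂ, ‖ζ‖ < r → |ζ.im| ≤ 1 / N →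
    ‖∑ y ∈ Icc (ja r N (α 1)) (jb r N (α 1)), PB N α (v4 (fun i => (x i : ℂ)) ((y : ℂ) / N)) ζ -
      VB r N α η (fun i => (x i : ℂ)) ζ‖ ≤ C * N * Real.exp (N * (v0 α + mR α x) - c1 * N)) := by
    by_cases h : α 1 = 0
    · exact ⟨0, le_refl _, fun h0 => absurd h h0⟩
    · obtain ⟨C, h1, h2⟩ := D_bd hF hB hG h hτ hτ1 hτ2 hτ3 hc1a hc1b
      exact ⟨C, h1, fun _ => h2⟩
  refine ⟨τ, c1, hτ, hc10, fun η hη => ⟨C0 + 2 * CD, 3, ⌈max (16 / r) (1 / τ)⌉₊ + 1, fun N hN => ?_⟩⟩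
  have hNr : max (16 / r) (1 / τ) ≤ N := by
    have h1 := Nat.le_ceil (max (16 / r) (1 / τ))
    have h2 : ((⌈max (16 / r) (1 / τ)⌉₊ : ℕ) : ℝ) ≤ N := by
      have : ⌈max (16 / r) (1 / τ)⌉₊ ≤ N := by omega
      exact_mod_cast this
    linarith
  have hN16 : 16 / r ≤ N := (le_max_left _ _).trans hNr
  have hNτ : 1 ≤ τ * N := by
    have := (le_max_right (16 / r) (1 / τ)).trans hNr
    rw [div_le_iff₀ hτ] at this
    linarith
  have hN1 : 1 ≤ N := by omega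
  have hN1' : (1 : ℝ) ≤ N := by exact_mod_cast hN1
  have hN0 : (0 : ℝ) < N := by linarith
  have hη2 : |η| ≤ r / 4 := by linarith
  refine ⟨VB_LD hB hN16 hN1 hη2, ?_, ?_⟩
  · intro ξ hξ hA ζ hζ
    refine (VB_bd hF hB hN16 hN1 hη2 hξ hA hζ).trans ?_
    apply mul_le_mul_of_nonneg_right _ (Real.exp_pos _).le
    apply mul_le_mul_of_nonneg_right _ hN0.le
    linarith
  · intro A b C k hc hA hb hC hkN hk
    by_cases h : α 1 = 0
    · obtain ⟨h1, h2⟩ := case0 η hB hN16 hN1 h hc hA hb hC hk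
      rw [h1, h2, sub_self, sub_self, norm_zero, add_zero]
      positivity
    · refine (case1 hF hAc hB hL hN16 hN1 hη2 h hc1b hc hA hb hC hkN hk
        (Bd := CD * N * Real.exp (eX N α A b C - c1 * N)) ?_).trans ?_
      · intro ζ hζ hζi
        have h1 := hCD h N hN16 hNτ hN1 (x3 N A b C) (x3_mem hr hA hb hC) (x3_ad hF hc) η hη ζ hζ hζi
        rw [eX_eq hN1] at h1
        exact h1
      · obtain ⟨E, hE⟩ : ∃ E : ℝ, E = Real.exp (eX N α A b C - c1 * N) := ⟨_, rfl⟩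
        have hE0 : 0 < E := by rw [hE]; exact Real.exp_pos _
        rw [← hE]
        have p2 : (N : ℝ) ≤ N ^ 3 := by
          calc (N : ℝ) = N ^ 1 := (pow_one _).symm
            _ ≤ N ^ 3 := pow_le_pow_right₀ hN1' (by norm_num)
        have q2 : 2 * CD * E * (N : ℝ) ≤ 2 * CD * E * N ^ 3 :=
          mul_le_mul_of_nonneg_left p2 (by positivity)
        calc _ = C0 * N ^ 3 * E + 2 * CD * E * N := by ring
          _ ≤ C0 * N ^ 3 * E + 2 * CD * E * N ^ 3 := by linarith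
          _ = _ := by ring

end Pool.Agent.Q195.HT
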